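import Mathlib

set_option autoImplicit false

namespace Pool.Agent.H99Z.Link

open Finset

/-- The group of order 36. -/
abbrev A : Type := (ZMod 2 × ZMod 2) × (ZMod 3 × ZMod 3)

/-- A Hadamard sign function on `A` (Spence difference set with parameters (36,15,6)). -/
def phi (x : A) : ℤ :=
  if x.1 = (0, 0) then (if x.2.1 = 0 then 1 else -1)
  else if x.1 = (0, 1) then (if x.2.2 = 0 then -1 else 1)
  else if x.1 = (1, 0) then (if x.2.1 = x.2.2 then -1 else 1)
  else (if x.2.1 + x.2.2 = 0 then -1 else 1)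

theorem phi_pm : ∀ x : A, phi x = 1 ∨ phi x = -1 := by decide +kernel

theorem phi_sum : ∑ x : A, phi x = 6 := by decide +kernel

theorem phi_corr : ∀ x : A, ∑ y : A, phi (x + y) * phi y = if x = 0 then 36 else 0 := by
  decide +kernel

theorem card_A : Fintype.card A = 36 := by simp [A]

/-- A Hadamard function with sum `s` on a finite abelian group of order `s ^ 2`. -/
structure Had {B : Type} [AddCommGroup B] [Fintype B] [DecidableEq B] (s : ℤ) (f : B → ℤ) :
    Prop where
  pm : ∀ x, f x = 1 ∨ f x = -1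
  sum : ∑ x, f x = s
  corr : ∀ x, ∑ y, f (x + y) * f y = if x = 0 then s ^ 2 else 0

theorem had_phi : Had 6 phi := ⟨phi_pm, phi_sum, fun x => by rw [phi_corr x]; norm_num⟩

theorem Had.comp {B C : Type} [AddCommGroup B] [Fintype B] [DecidableEq B]
    [AddCommGroup C] [Fintype C] [DecidableEq C] {s : ℤ} {f : B → ℤ} (h : Had s f)
    (e : C ≃+ B) : Had s (fun x => f (e x)) := by
  refine ⟨fun x => h.pm _, ?_, fun x => ?_⟩
  · rw [← h.sum]; exact Equiv.sum_comp e.toEquiv f
  · have h1 := h.corr (e x)
    have h2 : ∑ y : C, f (e (x + y)) * f (e y) = ∑ y : B, f (e x + y) * f y := by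
      rw [← Equiv.sum_comp e.toEquiv (fun y => f (e x + y) * f y)]
      simp
    rw [h2, h1]
    simp

theorem Had.prod {B C : Type} [AddCommGroup B] [Fintype B] [DecidableEq B]
    [AddCommGroup C] [Fintype C] [DecidableEq C] {s t : ℤ} {f : B → ℤ} {g : C → ℤ}
    (h : Had s f) (k : Had t g) : Had (s * t) (fun x : B × C => f x.1 * g x.2) := by
  refine ⟨fun x => ?_, ?_, fun x => ?_⟩
  · rcases h.pm x.1 with h1 | h1 <;> rcases k.pm x.2 with h2 | h2 <;> simp [h1, h2]
  · rw [Fintype.sum_prod_type, ← h.sum, ← k.sum, Finset.sum_mul_sum]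
  · rw [Fintype.sum_prod_type]
    have h1 := h.corr x.1
    have h2 := k.corr x.2
    have h3 : ∑ a : B, ∑ b : C, f (x + (a, b)).1 * g (x + (a, b)).2 * (f (a, b).1 * g (a, b).2)
        = (∑ a : B, f (x.1 + a) * f a) * (∑ b : C, g (x.2 + b) * g b) := by
      rw [Finset.sum_mul_sum]
      refine Finset.sum_congr rfl fun a _ => Finset.sum_congr rfl fun b _ => ?_
      simp only [Prod.fst_add, Prod.snd_add]
      ring
    rw [h3, h1, h2]
    rcases x with ⟨a, b⟩
    by_cases ha : a = 0 <;> by_cases hb : b = 0 <;> simp [ha, hb, mul_pow, Prod.ext_iff]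

/-- The set where a sign function is `-1`, in the multiplicative group. -/
def neg {B : Type} [Fintype B] (f : B → ℤ) : Finset (Multiplicative B) :=
  Finset.univ.filter (fun x => f x.toAdd = -1)

theorem ind {B : Type} [Fintype B] [DecidableEq B] {f : B → ℤ} (h : ∀ x, f x = 1 ∨ f x = -1)
    (x : Multiplicative B) : 2 * (if x ∈ neg f then (1 : ℤ) else 0) = 1 - f x.toAdd := by
  rcases h x.toAdd with h1 | h1 <;> simp [neg, h1]

theorem card_neg {B : Type} [Fintype B] [DecidableEq B] {f : B → ℤ}
    (h : ∀ x, f x = 1 ∨ f x = -1) :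
    2 * ((neg f).card : ℤ) = Fintype.card B - ∑ x, f x := by
  have h1 : ((neg f).card : ℤ) = ∑ x : Multiplicative B, if x ∈ neg f then (1 : ℤ) else 0 := by
    simp
  rw [h1, Finset.mul_sum]
  simp only [ind h]
  rw [Finset.sum_sub_distrib]
  simp only [Finset.sum_const, Finset.card_univ, nsmul_eq_mul, mul_one, Fintype.card_multiplicative]
  rw [Equiv.sum_comp Multiplicative.toAdd f]

theorem count {B : Type} [AddCommGroup B] [Fintype B] [DecidableEq B] {f g : B → ℤ}
    (h : ∀ x, f x = 1 ∨ f x = -1) (k : ∀ x, g x = 1 ∨ g x = -1) (z : Multiplicative B) :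
    4 * (((neg f ×ˢ neg g).filter
      (fun p : Multiplicative B × Multiplicative B => p.1 * p.2⁻¹ = z)).card : ℤ)
      = Fintype.card B - ∑ x, f x - ∑ x, g x + ∑ y, f (z.toAdd + y) * g y := by
  have h1 : ((neg f ×ˢ neg g).filter
      (fun p : Multiplicative B × Multiplicative B => p.1 * p.2⁻¹ = z)).card
      = (Finset.univ.filter (fun y : Multiplicative B => z * y ∈ neg f ∧ y ∈ neg g)).card := by
    symm
    refine Finset.card_bij (fun y _ => (z * y, y)) ?_ ?_ ?_
    · intro y hy
      simp only [Finset.mem_filter, Finset.mem_univ, true_and] at hy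
      simp [hy.1, hy.2]
    · intro y _ y' _ hh
      exact (Prod.ext_iff.1 hh).2
    · intro p hp
      simp only [Finset.mem_filter, Finset.mem_product] at hp
      refine ⟨p.2, ?_, ?_⟩
      · simp only [Finset.mem_filter, Finset.mem_univ, true_and]
        refine ⟨?_, hp.1.2⟩
        rw [← hp.2]; simpa using hp.1.1
      · rw [← hp.2]; simp
  rw [h1]
  have h2 : ((Finset.univ.filter (fun y : Multiplicative B => z * y ∈ neg f ∧ y ∈ neg g)).card : ℤ)
      = ∑ y : Multiplicative B,
        (if z * y ∈ neg f then (1 : ℤ) else 0) * (if y ∈ neg g then (1 : ℤ) else 0) := by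
    rw [Finset.card_filter]
    push_cast
    refine Finset.sum_congr rfl fun y _ => ?_
    by_cases a : z * y ∈ neg f <;> by_cases b : y ∈ neg g <;> simp [a, b]
  rw [h2, Finset.mul_sum]
  have h3 : ∀ y : Multiplicative B, 4 * ((if z * y ∈ neg f then (1 : ℤ) else 0) *
      (if y ∈ neg g then (1 : ℤ) else 0))
      = 1 - f (z.toAdd + y.toAdd) - g y.toAdd + f (z.toAdd + y.toAdd) * g y.toAdd := by
    intro y
    have a := ind h (z * y)
    have b := ind k y
    rw [toAdd_mul] at a
    calc _ = (2 * (if z * y ∈ neg f then (1 : ℤ) else 0)) *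
        (2 * (if y ∈ neg g then (1 : ℤ) else 0)) := by ring
      _ = _ := by rw [a, b]; ring
  simp only [h3]
  rw [Finset.sum_add_distrib, Finset.sum_sub_distrib, Finset.sum_sub_distrib]
  have h4 : ∑ y : Multiplicative B, f (z.toAdd + y.toAdd) = ∑ x, f x := by
    have := Equiv.sum_comp (Equiv.addLeft z.toAdd) f
    rw [← this]
    exact Equiv.sum_comp Multiplicative.toAdd (fun y => f (z.toAdd + y))
  rw [h4]
  simp only [Finset.sum_const, Finset.card_univ, nsmul_eq_mul, mul_one, Fintype.card_multiplicative]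
  rw [Equiv.sum_comp Multiplicative.toAdd g,
    Equiv.sum_comp Multiplicative.toAdd (fun y => f (z.toAdd + y) * g y)]

/-- shear maps -/
def e1 : (A × A) ≃+ (A × A) where
  toFun x := (x.1 - x.2, x.2)
  invFun x := (x.1 + x.2, x.2)
  left_inv x := by simp
  right_inv x := by simp
  map_add' x y := by ext <;> simp <;> abel

def e3 : (A × A) ≃+ (A × A) where
  toFun x := (x.1, -x.2)
  invFun x := (x.1, -x.2)
  left_inv x := by simp
  right_inv x := by simp
  map_add' x y := by ext <;> simp <;> abel

def F1 (x : A × A) : ℤ := phi (x.1 - x.2) * phi x.2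
def F2 (x : A × A) : ℤ := phi (x.2 - x.1) * phi x.1
def F3 (x : A × A) : ℤ := phi x.1 * phi (-x.2)
def F4 (x : A × A) : ℤ := phi x.2 * phi (-x.1)

theorem had1 : Had 36 F1 := by
  have := (had_phi.prod had_phi).comp e1
  norm_num at this
  exact this

theorem had2 : Had 36 F2 := had1.comp AddEquiv.prodComm

theorem had3 : Had 36 F3 := by
  have := (had_phi.prod had_phi).comp e3
  norm_num at this
  exact this

theorem had4 : Had 36 F4 := had3.comp AddEquiv.prodComm

theorem link12 (x : A × A) : ∑ y : A × A, F1 (x + y) * F2 y = 36 * F3 x := by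
  rcases x with ⟨a, b⟩
  have h1 : ∑ y : A × A, F1 ((a, b) + y) * F2 y
      = ∑ y : A × A, F1 ((a, b) + (y.2 - y.1, y.2)) * F2 (y.2 - y.1, y.2) := by
    let e : (A × A) ≃ (A × A) :=
      { toFun := fun y => (y.2 - y.1, y.2)
        invFun := fun y => (y.2 - y.1, y.2)
        left_inv := fun y => by simp
        right_inv := fun y => by simp }
    exact (Equiv.sum_comp e (fun y => F1 ((a, b) + y) * F2 y)).symm
  rw [h1, Fintype.sum_prod_type]
  have h2 : ∀ t : A, ∑ v : A, F1 ((a, b) + ((t, v).2 - (t, v).1, (t, v).2)) *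
      F2 ((t, v).2 - (t, v).1, (t, v).2)
      = phi (a - b - t) * phi t * (if t = -b then 36 else 0) := by
    intro t
    have h3 := phi_corr (b + t)
    have h4 : ∑ v : A, phi (b + v) * phi (v - t) = ∑ y : A, phi (b + t + y) * phi y := by
      rw [← Equiv.sum_comp (Equiv.addLeft t) (fun v => phi (b + v) * phi (v - t))]
      refine Finset.sum_congr rfl fun y _ => ?_
      simp [add_assoc]
    have h5 : (b + t = 0) ↔ (t = -b) := by
      constructor
      · intro h; exact eq_neg_of_add_eq_zero_right h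
      · intro h; rw [h]; simp
    rw [← h4] at h3
    simp only [h5] at h3
    rw [← h3, Finset.mul_sum]
    refine Finset.sum_congr rfl fun v _ => ?_
    simp only [F1, F2, Prod.fst_add, Prod.snd_add]
    have h6 : a + (v - t) - (b + v) = a - b - t := by abel
    have h7 : v - (v - t) = t := by abel
    rw [h6, h7]
    ring
  simp only [h2]
  simp only [mul_ite, mul_zero, Finset.sum_ite_eq', Finset.mem_univ, if_true, F3]
  have h8 : a - b - -b = a := by abel
  rw [h8]
  ring

theorem link21 (x : A × A) : ∑ y : A × A, F2 (x + y) * F1 y = 36 * F4 x := by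
  have h := link12 x.swap
  rw [← Equiv.sum_comp (Equiv.prodComm A A)] at h
  exact h

theorem card_AA : (Fintype.card (A × A) : ℤ) = 1296 := by
  rw [Fintype.card_prod, card_A]; norm_num

theorem ds_card {f : A × A → ℤ} (h : Had 36 f) : (neg f).card = 630 := by
  have := card_neg h.pm
  rw [h.sum, card_AA] at this
  omega

theorem ds_lam {f : A × A → ℤ} (h : Had 36 f) (g : Multiplicative (A × A)) (hg : g ≠ 1) :
    ((neg f ×ˢ neg f).filter
      (fun p : Multiplicative (A × A) × Multiplicative (A × A) => p.1 * p.2⁻¹ = g)).card = 306 := by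
  have := count h.pm h.pm g
  rw [h.sum, card_AA, h.corr, if_neg (by simpa using hg)] at this
  omega

theorem ds_link {f f' k : A × A → ℤ} (h : Had 36 f) (h' : Had 36 f') (hk : Had 36 k)
    (l : ∀ x, ∑ y : A × A, f (x + y) * f' y = 36 * k x) (g : Multiplicative (A × A)) :
    (((neg f ×ˢ neg f').filter
      (fun p : Multiplicative (A × A) × Multiplicative (A × A) => p.1 * p.2⁻¹ = g)).card : ℤ)
      = ((297 : ℤ) - 315) * (if g ∈ neg k then (1 : ℤ) else 0) + 315 := by
  have h1 := count h.pm h'.pm g
  rw [h.sum, h'.sum, card_AA, l] at h1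
  have h2 := ind hk.pm g
  linarith

theorem ne12 : neg F1 ≠ neg F2 := by
  intro h
  have h1 := ds_link had1 had2 had3 link12 1
  rw [← h] at h1
  have h2 := count had1.pm had1.pm 1
  rw [had1.sum, card_AA, had1.corr, h1, if_pos (toAdd_one)] at h2
  by_cases hh : (1 : Multiplicative (A × A)) ∈ neg F3
  · rw [if_pos hh] at h2; norm_num at h2
  · rw [if_neg hh] at h2; norm_num at h2

end Pool.Agent.H99Z.Link
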