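import Mathlib

set_option autoImplicit false

/-! Polyhedral norms: vertex form, functional form, sections of polytopes. -/

namespace Pool.Agent.H99Z.Poly

open Set Metric

variable {E : Type*} [NormedAddCommGroup E] [NormedSpace ℝ E]

/-- Every finite-dimensional section of the unit ball has finitely many extreme points. -/
def PolyE (E : Type*) [NormedAddCommGroup E] [NormedSpace ℝ E] : Prop :=
  ∀ F : Submodule ℝ E, FiniteDimensional ℝ F →
    (Set.extremePoints ℝ (Metric.closedBall (0 : E) 1 ∩ (F : Set E))).Finite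

/-- On every finite-dimensional subspace the norm is attained by finitely many functionals. -/
def PolyH (E : Type*) [NormedAddCommGroup E] [NormedSpace ℝ E] : Prop :=
  ∀ F : Submodule ℝ E, FiniteDimensional ℝ F →
    ∃ Γ : Finset (StrongDual ℝ E), (∀ f ∈ Γ, ‖f‖ ≤ 1) ∧ ∀ z ∈ F, ∃ f ∈ Γ, f z = ‖z‖

lemma le_norm_of {f : StrongDual ℝ E} (hf : ‖f‖ ≤ 1) (z : E) : f z ≤ ‖z‖ := by
  have h1 := f.le_opNorm z
  have h2 : ‖f‖ * ‖z‖ ≤ 1 * ‖z‖ := by gcongr
  have h3 := le_abs_self (f z)
  rw [Real.norm_eq_abs] at h1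
  linarith

lemma abs_le_norm_of {f : StrongDual ℝ E} (hf : ‖f‖ ≤ 1) (z : E) : |f z| ≤ ‖z‖ := by
  have h1 := f.le_opNorm z
  have h2 : ‖f‖ * ‖z‖ ≤ 1 * ‖z‖ := by gcongr
  rw [Real.norm_eq_abs] at h1
  linarith

lemma exists_norming (z : E) : ∃ f : StrongDual ℝ E, ‖f‖ ≤ 1 ∧ f z = ‖z‖ := by
  obtain ⟨g, h1, h2⟩ := exists_dual_vector'' ℝ z
  exact ⟨g, h1, by simpa using h2⟩

lemma norm_le_one_of {f : StrongDual ℝ E} (h : ∀ z, f z ≤ ‖z‖) : ‖f‖ ≤ 1 := by
  refine f.opNorm_le_bound zero_le_one fun z => ?_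
  rw [Real.norm_eq_abs, one_mul, abs_le]
  refine ⟨?_, h z⟩
  have := h (-z)
  rw [map_neg, norm_neg] at this
  linarith

lemma isCompact_ball_inter (F : Submodule ℝ E) [FiniteDimensional ℝ F] :
    IsCompact (Metric.closedBall (0 : E) 1 ∩ (F : Set E)) := by
  have h1 : IsCompact (Metric.closedBall (0 : F) 1) := isCompact_closedBall _ _
  have h2 := h1.image continuous_subtype_val
  convert h2 using 1
  ext x
  simp only [mem_inter_iff, mem_closedBall, dist_zero_right, SetLike.mem_coe, mem_image]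
  constructor
  · rintro ⟨h, hx⟩
    exact ⟨⟨x, hx⟩, h, rfl⟩
  · rintro ⟨y, hy, rfl⟩
    exact ⟨hy, y.2⟩

lemma ball_inter_eq (F : Submodule ℝ E) [FiniteDimensional ℝ F]
    (h : (Set.extremePoints ℝ (Metric.closedBall (0 : E) 1 ∩ (F : Set E))).Finite) :
    ∃ V : Finset E, Metric.closedBall (0 : E) 1 ∩ (F : Set E) = convexHull ℝ (V : Set E) := by
  refine ⟨h.toFinset, ?_⟩
  have hc : Convex ℝ (Metric.closedBall (0 : E) 1 ∩ (F : Set E)) :=
    (convex_closedBall _ _).inter F.convex
  have h1 := closure_convexHull_extremePoints (isCompact_ball_inter F) hc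
  rw [Finite.coe_toFinset, ← (h.isCompact_convexHull ℝ).isClosed.closure_eq]
  exact h1.symm

/-- An extreme point cannot be moved in both directions. -/
lemma eq_zero_of_extreme {C : Set E} {x d : E} (hx : x ∈ Set.extremePoints ℝ C)
    (h1 : x + d ∈ C) (h2 : x - d ∈ C) : d = 0 := by
  have hseg : x ∈ openSegment ℝ (x + d) (x - d) := by
    refine ⟨1 / 2, 1 / 2, by norm_num, by norm_num, by norm_num, ?_⟩
    module
  have := (mem_extremePoints.1 hx).2 _ h1 _ h2 hseg
  have h3 := this.1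
  simpa using h3

lemma exists_small {ι : Type*} (s : Finset ι) (a b : ι → ℝ) (ha : ∀ i ∈ s, 0 < a i) :
    ∃ ε : ℝ, 0 < ε ∧ ∀ i ∈ s, ε * |b i| ≤ a i := by
  classical
  induction s using Finset.induction_on with
  | empty => exact ⟨1, one_pos, by simp⟩
  | insert j s hj ih =>
    obtain ⟨ε, hε, h⟩ := ih fun i hi => ha i (Finset.mem_insert_of_mem hi)
    have hj0 := ha j (Finset.mem_insert_self _ _)
    refine ⟨min ε (a j / (|b j| + 1)), lt_min hε (by positivity), fun i hi => ?_⟩
    rcases Finset.mem_insert.1 hi with rfl | hi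
    · have h1 : min ε (a i / (|b i| + 1)) * |b i| ≤ a i / (|b i| + 1) * |b i| := by
        gcongr; exact min_le_right _ _
      have h2 : a i / (|b i| + 1) * |b i| ≤ a i := by
        rw [div_mul_eq_mul_div, div_le_iff₀ (by positivity)]
        nlinarith [abs_nonneg (b i)]
      linarith
    · have h1 : min ε (a j / (|b j| + 1)) * |b i| ≤ ε * |b i| := by
        gcongr; exact min_le_left _ _
      linarith [h i hi]

/-- The section of a polytope by a subspace has finitely many extreme points. -/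
lemma finite_ext_conv_inter (V : Finset E) (F : Submodule ℝ E) :
    (Set.extremePoints ℝ (convexHull ℝ (V : Set E) ∩ (F : Set E))).Finite := by
  classical
  have hw : ∀ x ∈ convexHull ℝ (V : Set E), ∃ w : E → ℝ, (∀ y ∈ V, 0 ≤ w y) ∧
      ∑ y ∈ V, w y = 1 ∧ ∑ y ∈ V, w y • y = x := fun x hx => Finset.mem_convexHull'.1 hx
  choose! w hw0 hw1 hw2 using hw
  refine Set.Finite.of_finite_image (f := fun x => V.filter fun y => 0 < w x y)
    ((V.powerset.finite_toSet).subset ?_) ?_
  · rintro _ ⟨x, -, rfl⟩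
    exact Finset.mem_coe.2 (Finset.mem_powerset.2 (Finset.filter_subset _ _))
  · intro x hx x' hx' hxx'
    have hxC := extremePoints_subset hx
    have hxC' := extremePoints_subset hx'
    obtain ⟨ε, hε, hb⟩ := exists_small (V.filter fun y => 0 < w x y) (w x)
      (fun y => w x y - w x' y) (fun i hi => (Finset.mem_filter.1 hi).2)
    have hkey : ∀ y ∈ V, ε * |w x y - w x' y| ≤ w x y := by
      intro y hy
      by_cases h : 0 < w x y
      · exact hb y (Finset.mem_filter.2 ⟨hy, h⟩)
      · have h0 : w x y = 0 := le_antisymm (not_lt.1 h) (hw0 x hxC.1 y hy)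
        have h' : ¬ 0 < w x' y := by
          intro h'
          have : y ∈ V.filter fun y => 0 < w x' y := Finset.mem_filter.2 ⟨hy, h'⟩
          have h2 : y ∈ V.filter fun y => 0 < w x y := by
            have e : (V.filter fun y => 0 < w x y) = V.filter fun y => 0 < w x' y := hxx'
            rw [e]; exact this
          exact h (Finset.mem_filter.1 h2).2
        have h0' : w x' y = 0 := le_antisymm (not_lt.1 h') (hw0 x' hxC'.1 y hy)
        simp [h0, h0']
    have hmem : ∀ s : ℝ, |s| ≤ ε → x + s • (x - x') ∈ convexHull ℝ (V : Set E) ∩ (F : Set E) := by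
      intro s hs
      refine ⟨Finset.mem_convexHull'.2 ⟨fun y => w x y + s * (w x y - w x' y), ?_, ?_, ?_⟩, ?_⟩
      · intro y hy
        have h1 := hkey y hy
        have h2 : |s * (w x y - w x' y)| ≤ ε * |w x y - w x' y| := by
          rw [abs_mul]; gcongr
        have h3 := neg_abs_le (s * (w x y - w x' y))
        linarith
      · rw [Finset.sum_add_distrib, ← Finset.mul_sum, Finset.sum_sub_distrib, hw1 x hxC.1,
          hw1 x' hxC'.1]
        ring
      · simp only [add_smul, mul_smul, sub_smul]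
        rw [Finset.sum_add_distrib, ← Finset.smul_sum, Finset.sum_sub_distrib, hw2 x hxC.1,
          hw2 x' hxC'.1]
      · exact F.add_mem hxC.2 (F.smul_mem _ (F.sub_mem hxC.2 hxC'.2))
    have h1 := hmem ε (by rw [abs_of_pos hε])
    have h2 := hmem (-ε) (by rw [abs_neg, abs_of_pos hε])
    rw [neg_smul, ← sub_eq_add_neg] at h2
    have h3 := eq_zero_of_extreme hx h1 h2
    rcases smul_eq_zero.1 h3 with h | h
    · exact absurd h hε.ne'
    · exact sub_eq_zero.1 h

lemma polyE_of_polyH (h : PolyH E) : PolyE E := by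
  classical
  intro F hF
  obtain ⟨Γ, hΓ1, hΓ2⟩ := h F hF
  refine Set.Finite.of_finite_image (f := fun x => Γ.filter fun f => f x = 1)
    ((Γ.powerset.finite_toSet).subset ?_) ?_
  · rintro _ ⟨x, -, rfl⟩
    exact Finset.mem_coe.2 (Finset.mem_powerset.2 (Finset.filter_subset _ _))
  · intro x hx x' hx' hxx'
    have hxC := extremePoints_subset hx
    have hxC' := extremePoints_subset hx'
    have hx1 : ‖x‖ ≤ 1 := by simpa using hxC.1
    have hx1' : ‖x'‖ ≤ 1 := by simpa using hxC'.1
    obtain ⟨ε, hε, hb⟩ := exists_small (Γ.filter fun f => f x < 1) (fun f => 1 - f x)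
      (fun f => f x - f x') (fun i hi => sub_pos.2 (Finset.mem_filter.1 hi).2)
    have hkey : ∀ f ∈ Γ, ε * |f x - f x'| ≤ 1 - f x := by
      intro f hf
      by_cases h : f x < 1
      · exact hb f (Finset.mem_filter.2 ⟨hf, h⟩)
      · have h0 : f x = 1 := le_antisymm ((le_norm_of (hΓ1 f hf) x).trans hx1) (not_lt.1 h)
        have h2 : f ∈ Γ.filter fun f => f x' = 1 := by
          have e : (Γ.filter fun f => f x = 1) = Γ.filter fun f => f x' = 1 := hxx'
          rw [← e]; exact Finset.mem_filter.2 ⟨hf, h0⟩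
        have h0' := (Finset.mem_filter.1 h2).2
        simp [h0, h0']
    have hmem : ∀ s : ℝ, |s| ≤ ε →
        x + s • (x - x') ∈ Metric.closedBall (0 : E) 1 ∩ (F : Set E) := by
      intro s hs
      have hF : x + s • (x - x') ∈ F := F.add_mem hxC.2 (F.smul_mem _ (F.sub_mem hxC.2 hxC'.2))
      refine ⟨?_, hF⟩
      obtain ⟨f, hf, hfz⟩ := hΓ2 _ hF
      rw [mem_closedBall, dist_zero_right, ← hfz, map_add, map_smul, map_sub, smul_eq_mul]
      have h1 := hkey f hf
      have h2 : |s * (f x - f x')| ≤ ε * |f x - f x'| := by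
        rw [abs_mul]; gcongr
      have h3 := le_abs_self (s * (f x - f x'))
      linarith
    have h1 := hmem ε (by rw [abs_of_pos hε])
    have h2 := hmem (-ε) (by rw [abs_neg, abs_of_pos hε])
    rw [neg_smul, ← sub_eq_add_neg] at h2
    have h3 := eq_zero_of_extreme hx h1 h2
    rcases smul_eq_zero.1 h3 with h | h
    · exact absurd h hε.ne'
    · exact sub_eq_zero.1 h

lemma polyH_of_polyE (h : PolyE E) : PolyH E := by
  classical
  intro F hF
  obtain ⟨V, hV⟩ := ball_inter_eq F (h F hF)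
  have hch : ∀ A : Finset E, ∃ f : StrongDual ℝ E, ‖f‖ ≤ 1 ∧
      ((∃ g : StrongDual ℝ E, ‖g‖ ≤ 1 ∧ ∀ v ∈ A, g v = 1) → ∀ v ∈ A, f v = 1) := by
    intro A
    by_cases hA : ∃ g : StrongDual ℝ E, ‖g‖ ≤ 1 ∧ ∀ v ∈ A, g v = 1
    · obtain ⟨g, hg1, hg2⟩ := hA
      exact ⟨g, hg1, fun _ => hg2⟩
    · exact ⟨0, by simp, fun h => absurd h hA⟩
  choose fA hfA1 hfA2 using hch
  refine ⟨V.powerset.image fA, ?_, ?_⟩
  · intro f hf
    obtain ⟨A, -, rfl⟩ := Finset.mem_image.1 hf
    exact hfA1 A
  · intro z hz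
    by_cases hz0 : z = 0
    · exact ⟨fA ∅, Finset.mem_image.2 ⟨∅, by simp, rfl⟩, by simp [hz0]⟩
    have hn : 0 < ‖z‖ := norm_pos_iff.2 hz0
    set u : E := ‖z‖⁻¹ • z with hu
    have hu1 : ‖u‖ = 1 := by
      rw [hu, norm_smul, norm_inv, norm_norm, inv_mul_cancel₀ hn.ne']
    have huV : u ∈ convexHull ℝ (V : Set E) := by
      rw [← hV]
      exact ⟨by simp [hu1], F.smul_mem _ hz⟩
    obtain ⟨w, hw0, hw1, hw2⟩ := Finset.mem_convexHull'.1 huV
    have hV1 : ∀ v ∈ V, ‖v‖ ≤ 1 := by
      intro v hv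
      have : v ∈ Metric.closedBall (0 : E) 1 ∩ (F : Set E) := by
        rw [hV]; exact subset_convexHull ℝ _ hv
      simpa using this.1
    obtain ⟨g, hg1, hg2⟩ := exists_norming u
    set A := V.filter fun v => 0 < w v with hA
    have hgA : ∀ v ∈ A, g v = 1 := by
      intro v hv
      obtain ⟨hvV, hv0⟩ := Finset.mem_filter.1 hv
      have hsum : ∑ y ∈ V, w y * (1 - g y) = 0 := by
        simp only [mul_sub, mul_one]
        rw [Finset.sum_sub_distrib, hw1]
        have : g u = ∑ y ∈ V, w y * g y := by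
          rw [← hw2, map_sum]; simp
        rw [← this, hg2, hu1, sub_self]
      have hnn : ∀ y ∈ V, 0 ≤ w y * (1 - g y) := fun y hy =>
        mul_nonneg (hw0 y hy) (sub_nonneg.2 ((le_norm_of hg1 y).trans (hV1 y hy)))
      have := (Finset.sum_eq_zero_iff_of_nonneg hnn).1 hsum v hvV
      rcases mul_eq_zero.1 this with h | h
      · exact absurd h hv0.ne'
      · linarith
    have hfA := hfA2 A ⟨g, hg1, hgA⟩
    refine ⟨fA A, Finset.mem_image.2 ⟨A, by simp [hA], rfl⟩, ?_⟩
    have hfu : fA A u = 1 := by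
      rw [← hw2, map_sum, ← hw1]
      refine Finset.sum_congr rfl fun y hy => ?_
      rw [map_smul, smul_eq_mul]
      by_cases h0 : 0 < w y
      · rw [hfA y (Finset.mem_filter.2 ⟨hy, h0⟩), mul_one]
      · have : w y = 0 := le_antisymm (not_lt.1 h0) (hw0 y hy)
        simp [this]
    rw [hu, map_smul, smul_eq_mul, inv_mul_eq_one₀ hn.ne'] at hfu
    exact hfu.symm

end Pool.Agent.H99Z.Poly
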