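import Pool.Agent.H99Z.PolyA

set_option autoImplicit false

/-! Equivalent renormings and the spike construction. -/

namespace Pool.Agent.H99Z.Poly

open Set Metric

universe u

variable {E : Type u} [NormedAddCommGroup E] [NormedSpace ℝ E]

/-- An equivalent norm on `E`. -/
structure EqNorm (E : Type u) [NormedAddCommGroup E] [NormedSpace ℝ E] where
  p : Seminorm ℝ E
  c : ℝ
  C : ℝ
  lower : ∀ z, ‖z‖ ≤ c * p z
  upper : ∀ z, p z ≤ C * ‖z‖

/-- The space `E` with the new norm. -/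
def Ren (_q : EqNorm E) : Type u := E

instance (q : EqNorm E) : AddCommGroup (Ren q) := inferInstanceAs (AddCommGroup E)
instance (q : EqNorm E) : Module ℝ (Ren q) := inferInstanceAs (Module ℝ E)

noncomputable instance (q : EqNorm E) : NormedAddCommGroup (Ren q) :=
  AddGroupNorm.toNormedAddCommGroup
    { toFun := fun z => q.p (show E from z)
      map_zero' := map_zero q.p
      add_le' := fun x y => map_add_le_add q.p _ _
      neg' := fun x => map_neg_eq_map q.p _
      eq_zero_of_map_eq_zero' := fun x hx => by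
        have h := q.lower (show E from x)
        have hx' : q.p (show E from x) = 0 := hx
        rw [hx', mul_zero] at h
        exact norm_le_zero_iff.1 h }

noncomputable instance (q : EqNorm E) : NormedSpace ℝ (Ren q) where
  norm_smul_le a x := (map_smul_eq_mul q.p a (show E from x)).le

/-- The identity map to the renormed space. -/
noncomputable def toRen (q : EqNorm E) : E ≃L[ℝ] Ren q :=
  LinearEquiv.toContinuousLinearEquivOfBounds (show E ≃ₗ[ℝ] Ren q from LinearEquiv.refl ℝ E)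
    q.C q.c (fun x => q.upper x) (fun x => q.lower x)

lemma norm_toRen (q : EqNorm E) (z : E) : ‖toRen q z‖ = q.p z := rfl

lemma ball_ren (q : EqNorm E) :
    Metric.closedBall (0 : Ren q) 1 = toRen q '' {z : E | q.p z ≤ 1} := by
  ext x
  obtain ⟨z, rfl⟩ := (toRen q).surjective x
  rw [mem_closedBall, dist_zero_right, norm_toRen, (toRen q).injective.mem_set_image]
  rfl

lemma transfer (q : EqNorm E)
    (h1 : ∀ F : Submodule ℝ E, FiniteDimensional ℝ F →
      (Set.extremePoints ℝ ({z : E | q.p z ≤ 1} ∩ (F : Set E))).Finite)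
    (h2 : {z : E | q.p z ≤ 1} =
      closure (convexHull ℝ (Set.extremePoints ℝ {z : E | q.p z ≤ 1}))) :
    PolyE (Ren q) ∧ Metric.closedBall (0 : Ren q) 1 =
      closure (convexHull ℝ (Set.extremePoints ℝ (Metric.closedBall (0 : Ren q) 1))) := by
  constructor
  · intro F hF
    set F' : Submodule ℝ E := F.map ((toRen q).symm : Ren q →ₗ[ℝ] E) with hF'
    have hfin : FiniteDimensional ℝ F' := inferInstance
    have e : Metric.closedBall (0 : Ren q) 1 ∩ (F : Set (Ren q)) =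
        toRen q '' ({z : E | q.p z ≤ 1} ∩ (F' : Set E)) := by
      rw [Set.image_inter (toRen q).injective, ball_ren]
      congr 1
      ext x
      constructor
      · intro hx
        exact ⟨(toRen q).symm x, ⟨x, hx, rfl⟩, by simp⟩
      · rintro ⟨_, ⟨y, hy, rfl⟩, rfl⟩
        simpa using hy
    rw [e, ← image_extremePoints]
    exact (h1 F' hfin).image _
  · rw [ball_ren, ← image_extremePoints]
    have e1 : convexHull ℝ (toRen q '' Set.extremePoints ℝ {z : E | q.p z ≤ 1}) =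
        toRen q '' convexHull ℝ (Set.extremePoints ℝ {z : E | q.p z ≤ 1}) :=
      (LinearMap.image_convexHull ((toRen q : E ≃L[ℝ] Ren q) : E →ₗ[ℝ] Ren q) _).symm
    rw [e1, ← (toRen q).image_closure, ← h2]

/-- The convex hull of the unit ball and one more point. -/
def cone1 (x : E) : Set E := {z | ∃ t ∈ Icc (0 : ℝ) 1, ‖z - t • x‖ ≤ 1 - t}

lemma cone1_closed (x : E) : IsClosed (cone1 x) := by
  have h : IsClosed {p : E × Icc (0 : ℝ) 1 | ‖p.1 - (p.2 : ℝ) • x‖ ≤ 1 - (p.2 : ℝ)} :=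
    isClosed_le (by fun_prop) (by fun_prop)
  have h2 := isClosedMap_fst_of_compactSpace _ h
  convert h2 using 1
  ext z
  constructor
  · rintro ⟨t, ht, hz⟩
    exact ⟨(z, ⟨t, ht⟩), hz, rfl⟩
  · rintro ⟨p, hp, rfl⟩
    exact ⟨p.2, p.2.2, hp⟩

lemma cone1_convex (x : E) : Convex ℝ (cone1 x) := by
  rintro z ⟨t, ht, hz⟩ z' ⟨t', ht', hz'⟩ a b ha hb hab
  refine ⟨a * t + b * t', ⟨by nlinarith [ht.1, ht'.1], by nlinarith [ht.2, ht'.2]⟩, ?_⟩
  have e : a • z + b • z' - (a * t + b * t') • x = a • (z - t • x) + b • (z' - t' • x) := by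
    module
  rw [e]
  have h1 := norm_add_le (a • (z - t • x)) (b • (z' - t' • x))
  rw [norm_smul, norm_smul, Real.norm_of_nonneg ha, Real.norm_of_nonneg hb] at h1
  nlinarith [mul_le_mul_of_nonneg_left hz ha, mul_le_mul_of_nonneg_left hz' hb]

lemma apply_le_of_cone1 {x z : E} (hz : z ∈ cone1 x) {f : StrongDual ℝ E} (hf : ‖f‖ ≤ 1) :
    ∃ t ∈ Icc (0 : ℝ) 1, ‖z - t • x‖ ≤ 1 - t ∧ f z ≤ t * f x + (1 - t) := by
  obtain ⟨t, ht, h⟩ := hz
  refine ⟨t, ht, h, ?_⟩
  have h1 := le_norm_of hf (z - t • x)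
  rw [map_sub, map_smul, smul_eq_mul] at h1
  linarith

lemma mem_cone1_of {x z : E} (h : ∀ f : StrongDual ℝ E, ‖f‖ ≤ 1 → f x ≤ 1 → f z ≤ 1) :
    z ∈ cone1 x := by
  by_contra hz
  obtain ⟨g, u, hg, hu⟩ := geometric_hahn_banach_closed_point (cone1_convex x) (cone1_closed x) hz
  have hball : ∀ b : E, ‖b‖ ≤ 1 → g b < u := fun b hb =>
    hg b ⟨0, ⟨le_rfl, zero_le_one⟩, by simpa using hb⟩
  have hu0 : 0 < u := by simpa using hball 0 (by simp)
  have hx : g x < u := hg x ⟨1, ⟨zero_le_one, le_rfl⟩, by simp⟩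
  have hn : ‖u⁻¹ • g‖ ≤ 1 := by
    refine ContinuousLinearMap.opNorm_le_of_unit_norm zero_le_one fun b hb => ?_
    have h1 := hball b hb.le
    have h2 := hball (-b) (by simp [hb])
    rw [map_neg] at h2
    rw [ContinuousLinearMap.smul_apply, smul_eq_mul, Real.norm_eq_abs, abs_mul, abs_inv,
      abs_of_pos hu0, inv_mul_le_one₀ hu0, abs_le]
    constructor <;> linarith
  have h3 := h _ hn (by
    rw [ContinuousLinearMap.smul_apply, smul_eq_mul, inv_mul_le_one₀ hu0]; exact hx.le)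
  rw [ContinuousLinearMap.smul_apply, smul_eq_mul, inv_mul_le_one₀ hu0] at h3
  linarith

lemma cone1_subset {x : E} {C : Set E} (hC : Convex ℝ C) (hx : x ∈ C) {z : E} {t : ℝ}
    (ht : t ∈ Icc (0 : ℝ) 1) (hz : ‖z - t • x‖ ≤ 1 - t)
    (hb : ∀ s : ℝ, ‖s • (z - t • x)‖ ≤ 1 → s • (z - t • x) ∈ C) : z ∈ C := by
  rcases eq_or_lt_of_le ht.2 with h1 | h1
  · rw [h1, sub_self, norm_le_zero_iff, one_smul, sub_eq_zero] at hz
    rw [hz]; exact hx
  · have hpos : 0 < 1 - t := sub_pos.2 h1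
    have hmem := hb (1 - t)⁻¹ (by
      rw [norm_smul, norm_inv, Real.norm_of_nonneg hpos.le, inv_mul_le_one₀ hpos]; exact hz)
    have := hC hx hmem ht.1 hpos.le (by ring)
    rw [smul_smul, mul_inv_cancel₀ hpos.ne', one_smul] at this
    simpa using this

/-- Data for the spike construction. -/
structure Spikes (X : Set E) : Prop where
  one_lt : ∀ x ∈ X, 1 < ‖x‖
  le_two : ∀ x ∈ X, ‖x‖ ≤ 2
  neg_mem : ∀ x ∈ X, -x ∈ X
  disj : ∀ x ∈ X, ∀ x' ∈ X, ∀ f : StrongDual ℝ E, ‖f‖ ≤ 1 → 1 < f x → 1 < f x' → x = x'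
  norming : ∀ (g : StrongDual ℝ E) (η : ℝ), 0 < η → ∃ x ∈ X, ‖g‖ - η ≤ g x

/-- The dual ball of the new norm. -/
def dualK (X : Set E) : Set (StrongDual ℝ E) := {f | ‖f‖ ≤ 1 ∧ ∀ x ∈ X, f x ≤ 1}

lemma bdd_dualK (X : Set E) (z : E) :
    BddAbove (range fun f : dualK X => |(f : StrongDual ℝ E) z|) :=
  ⟨‖z‖, by rintro _ ⟨f, rfl⟩; exact abs_le_norm_of f.2.1 z⟩

instance (X : Set E) : Nonempty (dualK X) := ⟨⟨0, by simp, by simp⟩⟩

/-- The new norm. -/
noncomputable def hSemi (X : Set E) : Seminorm ℝ E :=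
  Seminorm.ofSMulLE (fun z => ⨆ f : dualK X, |(f : StrongDual ℝ E) z|) (by simp)
    (fun x y => ciSup_le fun f => by
      rw [map_add]
      exact (abs_add_le _ _).trans
        (add_le_add (le_ciSup (bdd_dualK X x) f) (le_ciSup (bdd_dualK X y) f)))
    (fun r x => ciSup_le fun f => by
      rw [map_smul, smul_eq_mul, abs_mul, Real.norm_eq_abs]
      exact mul_le_mul_of_nonneg_left (le_ciSup (bdd_dualK X x) f) (abs_nonneg r))

lemma hSemi_le_one_iff {X : Set E} (hX : Spikes X) (z : E) :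
    hSemi X z ≤ 1 ↔ ∀ f ∈ dualK X, f z ≤ 1 := by
  constructor
  · intro h f hf
    exact (le_abs_self _).trans ((le_ciSup (bdd_dualK X z) ⟨f, hf⟩).trans h)
  · intro h
    refine ciSup_le fun f => abs_le.2 ⟨?_, h f f.2⟩
    have hneg : -(f : StrongDual ℝ E) ∈ dualK X := by
      refine ⟨by simpa using f.2.1, fun x hx => ?_⟩
      have := f.2.2 _ (hX.neg_mem x hx)
      simpa using this
    have := h _ hneg
    simp only [ContinuousLinearMap.neg_apply] at this
    linarith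

/-- The new norm as an equivalent norm. -/
noncomputable def hNorm {X : Set E} (hX : Spikes X) : EqNorm E where
  p := hSemi X
  c := 2
  C := 1
  lower z := by
    obtain ⟨f, hf1, hf2⟩ := exists_norming z
    have hm : (1 / 2 : ℝ) • f ∈ dualK X := by
      refine ⟨?_, fun x hx => ?_⟩
      · rw [norm_smul]; norm_num; linarith
      · have := le_norm_of hf1 x
        have := hX.le_two x hx
        simp only [ContinuousLinearMap.smul_apply, smul_eq_mul]
        linarith
    have h1 : |((1 / 2 : ℝ) • f) z| ≤ hSemi X z := le_ciSup (bdd_dualK X z) ⟨_, hm⟩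
    have h2 := le_abs_self (((1 / 2 : ℝ) • f) z)
    simp only [ContinuousLinearMap.smul_apply, smul_eq_mul] at h1 h2
    linarith
  upper z := by
    rw [one_mul]
    exact ciSup_le fun f => abs_le_norm_of f.2.1 z

lemma mem_of_cone1 {X : Set E} (hX : Spikes X) {x z : E} (hx : x ∈ X) (hz : z ∈ cone1 x) :
    hSemi X z ≤ 1 := by
  rw [hSemi_le_one_iff hX]
  intro f hf
  obtain ⟨t, ht, -, h⟩ := apply_le_of_cone1 hz hf.1
  have := hf.2 x hx
  nlinarith [ht.1]

lemma mem_of_ball {X : Set E} (hX : Spikes X) {z : E} (hz : ‖z‖ ≤ 1) : hSemi X z ≤ 1 := by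
  rw [hSemi_le_one_iff hX]
  exact fun f hf => (le_norm_of hf.1 z).trans hz

lemma self_mem_cone1 (x : E) : x ∈ cone1 x := ⟨1, ⟨zero_le_one, le_rfl⟩, by simp⟩

/-- A point of the new ball outside the old one lies in the cone over a single spike. -/
lemma cone1_of_mem {X : Set E} (hX : Spikes X) {z : E} (hz : hSemi X z ≤ 1)
    {f₀ : StrongDual ℝ E} (hf₀ : ‖f₀‖ ≤ 1) (h1 : 1 < f₀ z) :
    ∃ x ∈ X, 1 < f₀ x ∧ z ∈ cone1 x := by
  rw [hSemi_le_one_iff hX] at hz
  have hex : ∀ f : StrongDual ℝ E, ‖f‖ ≤ 1 → 1 < f z → ∃ x ∈ X, 1 < f x := by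
    intro f hf hfz
    by_contra hcon
    push Not at hcon
    exact absurd (hz f ⟨hf, hcon⟩) (not_le.2 hfz)
  obtain ⟨x₀, hx₀, h₀⟩ := hex f₀ hf₀ h1
  refine ⟨x₀, hx₀, h₀, mem_cone1_of fun f₁ hf₁ hf₁x => ?_⟩
  by_contra hcon
  rw [not_le] at hcon
  -- the segment from `f₀` to `f₁`
  set F : ℝ → StrongDual ℝ E := fun s => (1 - s) • f₀ + s • f₁ with hF
  have hFa : ∀ s y, F s y = (1 - s) * f₀ y + s * f₁ y := fun s y => by simp [hF]
  have hFn : ∀ s, 0 ≤ s → s ≤ 1 → ‖F s‖ ≤ 1 := fun s h0 h1 => by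
    refine norm_le_one_of fun y => ?_
    rw [hFa]
    nlinarith [le_norm_of hf₀ y, le_norm_of hf₁ y]
  have hd : 0 < f₀ x₀ - f₁ x₀ := by linarith
  set s₀ : ℝ := (f₀ x₀ - 1) / (f₀ x₀ - f₁ x₀) with hs₀
  have hs0 : 0 < s₀ := div_pos (by linarith) hd
  have hs1 : s₀ ≤ 1 := by rw [hs₀, div_le_one hd]; linarith
  have hs2 : s₀ * (f₀ x₀ - f₁ x₀) = f₀ x₀ - 1 := div_mul_cancel₀ _ hd.ne'
  obtain ⟨x₁, hx₁, h₁⟩ := hex (F s₀) (hFn s₀ hs0.le hs1) (by rw [hFa]; nlinarith)
  have hcont : ContinuousAt (fun s => F s x₁) s₀ := by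
    simp only [hFa]; fun_prop
  have hev : ∀ᶠ s in nhds s₀, 1 < F s x₁ := hcont.eventually (lt_mem_nhds h₁)
  have hev2 : ∀ᶠ s in nhds s₀, 0 < s := lt_mem_nhds hs0
  have hev3 : ∀ᶠ s in nhdsWithin s₀ (Iio s₀), (1 < F s x₁ ∧ 0 < s) ∧ s < s₀ :=
    ((hev.and hev2).filter_mono nhdsWithin_le_nhds).and self_mem_nhdsWithin
  obtain ⟨s, ⟨ha, hb⟩, hc⟩ := hev3.exists
  have h5 : 1 < F s x₀ := by rw [hFa]; nlinarith
  have h6 := hX.disj x₀ hx₀ x₁ hx₁ (F s) (hFn s hb.le (hc.le.trans hs1)) h5 ha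
  rw [← h6, hFa] at h₁
  nlinarith

lemma mem_cases {X : Set E} (hX : Spikes X) {z : E} (hz : hSemi X z ≤ 1) :
    ‖z‖ ≤ 1 ∨ ∃ x ∈ X, z ∈ cone1 x := by
  by_cases h : ‖z‖ ≤ 1
  · exact Or.inl h
  · obtain ⟨f, hf1, hf2⟩ := exists_norming z
    obtain ⟨x, hx, -, h2⟩ := cone1_of_mem hX hz hf1 (by rw [hf2]; exact not_le.1 h)
    exact Or.inr ⟨x, hx, h2⟩

lemma convex_hball (X : Set E) : Convex ℝ {z : E | hSemi X z ≤ 1} := by
  intro x hx y hy a b ha hb hab
  have h1 := map_add_le_add (hSemi X) (a • x) (b • y)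
  rw [map_smul_eq_mul, map_smul_eq_mul, Real.norm_of_nonneg ha, Real.norm_of_nonneg hb] at h1
  have hx' : hSemi X x ≤ 1 := hx
  have hy' : hSemi X y ≤ 1 := hy
  show hSemi X (a • x + b • y) ≤ 1
  nlinarith

lemma spike_extreme {X : Set E} (hX : Spikes X) {x : E} (hx : x ∈ X) :
    x ∈ Set.extremePoints ℝ {z : E | hSemi X z ≤ 1} := by
  obtain ⟨f, hf1, hf2⟩ := exists_norming x
  have h1 := hX.one_lt x hx
  have key : ∀ z, hSemi X z ≤ 1 → f z ≤ ‖x‖ ∧ (f z = ‖x‖ → z = x) := by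
    intro z hz
    rcases mem_cases hX hz with h | ⟨x', hx', h⟩
    · have := le_norm_of hf1 z
      exact ⟨by linarith, fun h' => by linarith⟩
    · obtain ⟨t, ht, h2, h3⟩ := apply_le_of_cone1 h hf1
      by_cases hxx : x = x'
      · subst hxx
        rw [hf2] at h3
        refine ⟨by nlinarith [ht.2], fun h' => ?_⟩
        have ht1 : t = 1 := by nlinarith [ht.2]
        rw [ht1, sub_self, norm_le_zero_iff, one_smul, sub_eq_zero] at h2
        exact h2
      · have h4 : f x' ≤ 1 := by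
          by_contra hcon
          exact hxx (hX.disj x hx x' hx' f hf1 (by rw [hf2]; exact h1) (not_le.1 hcon))
        have h5 : f z ≤ 1 := by nlinarith [ht.1]
        exact ⟨by linarith, fun h' => by linarith⟩
  rw [mem_extremePoints]
  refine ⟨mem_of_cone1 hX hx (self_mem_cone1 x), ?_⟩
  rintro y hy z hz ⟨a, b, ha, hb, hab, hyz⟩
  have h2 : a * f y + b * f z = ‖x‖ := by
    rw [← hf2, ← hyz]; simp
  have h3 := key y hy
  have h4 := key z hz
  have hb' : b = 1 - a := by linarith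
  subst hb'
  exact ⟨h3.2 (by nlinarith [h3.1, h4.1]), h4.2 (by nlinarith [h3.1, h4.1])⟩

lemma hball_eq {X : Set E} (hX : Spikes X) : {z : E | hSemi X z ≤ 1} =
    closure (convexHull ℝ (Set.extremePoints ℝ {z : E | hSemi X z ≤ 1})) := by
  set C := closure (convexHull ℝ (Set.extremePoints ℝ {z : E | hSemi X z ≤ 1})) with hC
  have hCc : Convex ℝ C := (convex_convexHull ℝ _).closure
  have hXC : ∀ x ∈ X, x ∈ C := fun x hx =>
    subset_closure (subset_convexHull ℝ _ (spike_extreme hX hx))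
  have hB : ∀ b : E, ‖b‖ ≤ 1 → b ∈ C := by
    intro b hb
    by_contra hcon
    obtain ⟨g, u, hg, hu⟩ := geometric_hahn_banach_closed_point hCc isClosed_closure hcon
    obtain ⟨x, hx, h⟩ := hX.norming g (g b - u) (by linarith)
    have h1 := hg x (hXC x hx)
    have h2 := g.le_opNorm b
    have h3 : ‖g‖ * ‖b‖ ≤ ‖g‖ * 1 := by gcongr
    have h4 := le_abs_self (g b)
    rw [Real.norm_eq_abs] at h2
    linarith
  apply Subset.antisymm
  · intro z hz
    rcases mem_cases hX hz with h | ⟨x, hx, t, ht, h⟩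
    · exact hB z h
    · exact cone1_subset hCc (hXC x hx) ht h fun s hs => hB _ hs
  · refine closure_minimal (convexHull_min extremePoints_subset (convex_hball X)) ?_
    have e : {z : E | hSemi X z ≤ 1} = ⋂ f ∈ dualK X, {z | f z ≤ 1} := by
      ext z
      simp [hSemi_le_one_iff hX]
    rw [e]
    exact isClosed_biInter fun f _ => isClosed_le f.continuous continuous_const

lemma hball_poly (hE : PolyH E) {X : Set E} (hX : Spikes X) (F : Submodule ℝ E)
    (hF : FiniteDimensional ℝ F) :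
    (Set.extremePoints ℝ ({z : E | hSemi X z ≤ 1} ∩ (F : Set E))).Finite := by
  classical
  obtain ⟨Γ, hΓ1, hΓ2⟩ := hE F hF
  have hT : {x ∈ X | ∃ f ∈ Γ, 1 < f x}.Finite := by
    have e : {x ∈ X | ∃ f ∈ Γ, 1 < f x} = ⋃ f ∈ Γ, {x ∈ X | 1 < f x} := by
      ext x
      simp only [mem_setOf_eq, mem_iUnion, exists_prop]
      tauto
    rw [e]
    refine Γ.finite_toSet.biUnion fun f hf => Set.Subsingleton.finite ?_
    intro x hx x' hx'
    exact hX.disj x hx.1 x' hx'.1 f (hΓ1 f hf) hx.2 hx'.2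
  set T := hT.toFinset with hTdef
  have hTX : ∀ x, x ∈ T ↔ x ∈ X ∧ ∃ f ∈ Γ, 1 < f x := fun x => by
    rw [hTdef, Finite.mem_toFinset]; rfl
  set F' : Submodule ℝ E := F ⊔ Submodule.span ℝ (T : Set E) with hF'
  haveI : FiniteDimensional ℝ (Submodule.span ℝ (T : Set E)) :=
    FiniteDimensional.span_finset ℝ T
  haveI hfin : FiniteDimensional ℝ F' := Submodule.finiteDimensional_sup _ _
  obtain ⟨V, hV⟩ := ball_inter_eq F' (polyE_of_polyH hE F' hfin)
  have e : {z : E | hSemi X z ≤ 1} ∩ (F : Set E) =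
      convexHull ℝ ((V ∪ T : Finset E) : Set E) ∩ (F : Set E) := by
    have hVC : ∀ b ∈ F', ‖b‖ ≤ 1 → b ∈ convexHull ℝ ((V ∪ T : Finset E) : Set E) := by
      intro b hb hb1
      have : b ∈ convexHull ℝ (V : Set E) := by
        rw [← hV]; exact ⟨by simpa using hb1, hb⟩
      exact convexHull_mono (by simp) this
    apply Subset.antisymm
    · rintro z ⟨hz, hzF⟩
      refine ⟨?_, hzF⟩
      have hzF' : z ∈ F' := Submodule.mem_sup_left hzF
      by_cases h : ‖z‖ ≤ 1
      · exact hVC z hzF' h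
      · obtain ⟨f, hf, hfz⟩ := hΓ2 z hzF
        obtain ⟨x, hx, hfx, t, ht, h2⟩ :=
          cone1_of_mem hX hz (hΓ1 f hf) (by rw [hfz]; exact not_le.1 h)
        have hxT : x ∈ T := (hTX x).2 ⟨hx, f, hf, hfx⟩
        have hxF' : x ∈ F' := Submodule.mem_sup_right (Submodule.subset_span hxT)
        refine cone1_subset (convex_convexHull ℝ _)
          (subset_convexHull ℝ _ (by simp [hxT])) ht h2 fun s hs => hVC _ ?_ hs
        exact F'.smul_mem _ (F'.sub_mem hzF' (F'.smul_mem _ hxF'))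
    · refine inter_subset_inter_left _ (convexHull_min ?_ (convex_hball X))
      intro y hy
      rcases Finset.mem_union.1 (Finset.mem_coe.1 hy) with h | h
      · have : y ∈ Metric.closedBall (0 : E) 1 ∩ (F' : Set E) := by
          rw [hV]; exact subset_convexHull ℝ _ h
        exact mem_of_ball hX (by simpa using this.1)
      · exact mem_of_cone1 hX ((hTX y).1 h).1 (self_mem_cone1 y)
  rw [e]
  exact finite_ext_conv_inter _ _

/-- The conclusion of the problem for a space `E`. -/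
def Good (E : Type u) [NormedAddCommGroup E] [NormedSpace ℝ E] : Prop :=
  ∃ (X : Type u) (_ : NormedAddCommGroup X) (_ : NormedSpace ℝ X),
    ∃ _T : E ≃L[ℝ] X, PolyE X ∧
      Metric.closedBall (0 : X) 1 =
        closure (convexHull ℝ (Set.extremePoints ℝ (Metric.closedBall (0 : X) 1)))

theorem good_of_spikes (hE : PolyH E) {X : Set E} (hX : Spikes X) : Good E :=
  ⟨Ren (hNorm hX), inferInstance, inferInstance, toRen _,
    transfer (hNorm hX) (hball_poly hE hX) (hball_eq hX)⟩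

lemma Good.of_equiv {G : Type u} [NormedAddCommGroup G] [NormedSpace ℝ G] (T : E ≃L[ℝ] G)
    (h : Good G) : Good E := by
  obtain ⟨X, i1, i2, S, h⟩ := h
  exact ⟨X, i1, i2, T.trans S, h⟩

end Pool.Agent.H99Z.Poly
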