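import Pool.Agent.H99Z.PolyA

set_option autoImplicit false

/-! True faces of a polyhedral Banach space. -/

namespace Pool.Agent.H99Z.Poly

open Set Metric Filter Topology

variable {E : Type*} [NormedAddCommGroup E] [NormedSpace ℝ E]

/-- The norm is affine on an initial piece of every ray. -/
def PL (E : Type*) [NormedAddCommGroup E] [NormedSpace ℝ E] : Prop :=
  ∀ v h : E, ∃ t₀ : ℝ, 0 < t₀ ∧ ∀ t : ℝ, 0 < t → t ≤ t₀ →
    ‖v‖ + ‖v + (2 * t) • h‖ = 2 * ‖v + t • h‖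

lemma norms_add {f : StrongDual ℝ E} (hf : ‖f‖ ≤ 1) {v w : E} (hv : f v = ‖v‖) (hw : f w = ‖w‖)
    {a b : ℝ} (ha : 0 ≤ a) (hb : 0 ≤ b) : f (a • v + b • w) = ‖a • v + b • w‖ := by
  refine le_antisymm (le_norm_of hf _) ?_
  have h := norm_add_le (a • v) (b • w)
  rw [norm_smul, norm_smul, Real.norm_of_nonneg ha, Real.norm_of_nonneg hb] at h
  rw [map_add, map_smul, map_smul, hv, hw, smul_eq_mul, smul_eq_mul]
  exact h

lemma tseq_pos (m : ℕ) : (0 : ℝ) < 1 / ((m : ℝ) + 1) := by positivity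

lemma exists_tseq_le {ε : ℝ} (hε : 0 < ε) : ∃ m : ℕ, ∀ k ≥ m, 1 / ((k : ℝ) + 1) ≤ ε := by
  have := (tendsto_one_div_add_atTop_nhds_zero_nat (𝕜 := ℝ)).eventually (ge_mem_nhds hε)
  exact eventually_atTop.1 this

lemma pl_of_polyH (hE : PolyH E) : PL E := by
  intro v h
  have hfin : FiniteDimensional ℝ (Submodule.span ℝ ({v, h} : Set E)) :=
    FiniteDimensional.span_of_finite ℝ (Set.toFinite _)
  obtain ⟨Γ, hΓ1, hΓ2⟩ := hE _ hfin
  have hm : ∀ s : ℝ, v + s • h ∈ Submodule.span ℝ ({v, h} : Set E) := fun s =>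
    Submodule.add_mem _ (Submodule.subset_span (by simp))
      (Submodule.smul_mem _ _ (Submodule.subset_span (by simp)))
  have h1 : ∃ᶠ m : ℕ in atTop, ∃ f ∈ Γ, f (v + (1 / ((m : ℝ) + 1)) • h) =
      ‖v + (1 / ((m : ℝ) + 1)) • h‖ := Frequently.of_forall fun m => hΓ2 _ (hm _)
  have h2 : ∃ f ∈ Γ, ∃ᶠ m : ℕ in atTop, f (v + (1 / ((m : ℝ) + 1)) • h) =
      ‖v + (1 / ((m : ℝ) + 1)) • h‖ := by
    by_contra hcon
    push Not at hcon
    have := (Filter.eventually_all_finset Γ).2 hcon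
    exact (h1.and_eventually this).exists.elim fun m ⟨⟨f, hf, h3⟩, h4⟩ => h4 f hf h3
  obtain ⟨f, hf, h3⟩ := h2
  have hcl : IsClosed {s : ℝ | f (v + s • h) = ‖v + s • h‖} :=
    isClosed_eq (by fun_prop) (by fun_prop)
  have h0 := hcl.mem_of_frequently_of_tendsto h3 (tendsto_one_div_add_atTop_nhds_zero_nat (𝕜 := ℝ))
  have hv : f v = ‖v‖ := by simpa using h0
  obtain ⟨m, hm0⟩ := h3.exists
  set s₀ : ℝ := 1 / ((m : ℝ) + 1) with hs₀
  have hs : 0 < s₀ := tseq_pos m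
  have key : ∀ s, 0 ≤ s → s ≤ s₀ → f (v + s • h) = ‖v + s • h‖ := by
    intro s h0 h1
    have e : v + s • h = (1 - s / s₀) • v + (s / s₀) • (v + s₀ • h) := by
      rw [smul_add, smul_smul, div_mul_cancel₀ _ hs.ne']; module
    rw [e]
    exact norms_add (hΓ1 f hf) hv hm0 (by rw [sub_nonneg, div_le_one hs]; exact h1)
      (by positivity)
  refine ⟨s₀ / 2, by positivity, fun t ht0 ht1 => ?_⟩
  rw [← hv, ← key (2 * t) (by linarith) (by linarith), ← key t ht0.le (by linarith)]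
  simp only [map_add, map_smul, smul_eq_mul]
  ring

lemma PL.submodule (hE : PL E) (W : Submodule ℝ E) : PL W := by
  intro v h
  obtain ⟨t₀, ht₀, H⟩ := hE v h
  exact ⟨t₀, ht₀, fun t h1 h2 => H t h1 h2⟩

/-- The norm coincides with `f` near `v`. -/
def LocLin (f : StrongDual ℝ E) (v : E) : Prop :=
  ‖f‖ ≤ 1 ∧ ∃ δ : ℝ, 0 < δ ∧ ∀ w, ‖w - v‖ < δ → f w = ‖w‖

/-- `f` defines a face of the ball with non-empty interior. -/
def TrueFace (f : StrongDual ℝ E) : Prop := ∃ v, LocLin f v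

lemma LocLin.self {f : StrongDual ℝ E} {v : E} (h : LocLin f v) : f v = ‖v‖ := by
  obtain ⟨-, δ, hδ, H⟩ := h
  exact H v (by simpa using hδ)

lemma LocLin.unique {f g : StrongDual ℝ E} {v : E} (h : LocLin f v) (hg : ‖g‖ ≤ 1)
    (hgv : g v = ‖v‖) : g = f := by
  have hv := h.self
  obtain ⟨-, δ, hδ, H⟩ := h
  have key : ∀ w, g w ≤ f w := by
    intro w
    set τ : ℝ := δ / (‖w‖ + 1) with hτ
    have hτ0 : 0 < τ := by positivity
    have h1 : ‖v + τ • w - v‖ < δ := by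
      rw [add_sub_cancel_left, norm_smul, Real.norm_of_nonneg hτ0.le, hτ, div_mul_eq_mul_div,
        div_lt_iff₀ (by positivity)]
      nlinarith [norm_nonneg w]
    have h2 := H _ h1
    have h3 := le_norm_of hg (v + τ • w)
    rw [← h2, map_add, map_add, map_smul, map_smul, hv, hgv, smul_eq_mul, smul_eq_mul] at h3
    exact le_of_mul_le_mul_left (by linarith) hτ0
  ext w
  have h1 := key w
  have h2 := key (-w)
  rw [map_neg, map_neg] at h2
  linarith

lemma isOpen_locLin (f : StrongDual ℝ E) : IsOpen {v | LocLin f v} := by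
  rw [Metric.isOpen_iff]
  rintro v ⟨hf, δ, hδ, H⟩
  refine ⟨δ / 2, by positivity, fun v' hv' => ⟨hf, δ / 2, by positivity, fun w hw => H w ?_⟩⟩
  rw [mem_ball, dist_eq_norm] at hv'
  have := norm_sub_le_norm_sub_add_norm_sub w v' v
  linarith

lemma LocLin.approx {f : StrongDual ℝ E} {v y : E} (h : LocLin f v) (hy : f y = ‖y‖) {ε : ℝ}
    (hε : 0 < ε) : ∃ y', ‖y' - y‖ < ε ∧ LocLin f y' := by
  obtain ⟨hf, δ, hδ, H⟩ := h
  set s : ℝ := ε / (‖v‖ + 1) with hs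
  have hs0 : 0 < s := by positivity
  refine ⟨y + s • v, ?_, hf, s * δ, by positivity, fun w hw => ?_⟩
  · rw [add_sub_cancel_left, norm_smul, Real.norm_of_nonneg hs0.le, hs, div_mul_eq_mul_div,
      div_lt_iff₀ (by positivity)]
    nlinarith [norm_nonneg v]
  · have h1 : ‖(v + s⁻¹ • (w - (y + s • v))) - v‖ < δ := by
      rw [add_sub_cancel_left, norm_smul, norm_inv, Real.norm_of_nonneg hs0.le,
        inv_mul_lt_iff₀ hs0]
      exact hw
    have h2 := norms_add hf hy (H _ h1) zero_le_one hs0.le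
    have e : (1 : ℝ) • y + s • (v + s⁻¹ • (w - (y + s • v))) = w := by
      rw [smul_add, smul_smul, mul_inv_cancel₀ hs0.ne']; module
    rwa [e] at h2

lemma countable_trueFace [TopologicalSpace.SeparableSpace E] :
    {f : StrongDual ℝ E | TrueFace f}.Countable := by
  refine Set.PairwiseDisjoint.countable_of_isOpen (s := fun f => {v | LocLin f v}) ?_
    (fun f _ => isOpen_locLin f) (fun f hf => hf)
  intro f _ g _ hfg
  refine Set.disjoint_left.2 fun v hv hv' => hfg ?_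
  exact LocLin.unique hv' hv.1 hv.self

/-- The norm is affine along `h` near `v`. -/
def TwoSided (v h : E) : Prop := ∃ t : ℝ, 0 < t ∧ ‖v - t • h‖ + ‖v + t • h‖ = 2 * ‖v‖

lemma step_twoSided [CompleteSpace E] (hE : PL E) {V : Set E} (hV : IsOpen V) (hne : V.Nonempty)
    (h : E) : ∃ V' : Set E, IsOpen V' ∧ V'.Nonempty ∧ V' ⊆ V ∧ ∀ v ∈ V', TwoSided v h := by
  obtain ⟨v₀, hv₀⟩ := hne
  obtain ⟨ε, hε, hball⟩ := Metric.isOpen_iff.1 hV v₀ hv₀
  set D : ℕ → Set E := fun m => ⋂ k ≥ m, {v | ‖v‖ + ‖v + (2 * (1 / ((k : ℝ) + 1))) • h‖ =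
    2 * ‖v + (1 / ((k : ℝ) + 1)) • h‖} with hD
  have hc : ∀ m, IsClosed (D m) := fun m =>
    isClosed_biInter fun k _ => isClosed_eq (by fun_prop) (by fun_prop)
  have hU : ⋃ m, D m = univ := by
    refine eq_univ_of_forall fun v => ?_
    obtain ⟨t₀, ht₀, H⟩ := hE v h
    obtain ⟨m, hm⟩ := exists_tseq_le ht₀
    exact mem_iUnion.2 ⟨m, mem_iInter₂.2 fun k hk => H _ (tseq_pos k) (hm k hk)⟩
  obtain ⟨u, hu1, hu2⟩ := (dense_iUnion_interior_of_closed hc hU).inter_open_nonempty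
    (ball v₀ (ε / 2)) isOpen_ball (nonempty_ball.2 (by positivity))
  obtain ⟨m, hm⟩ := mem_iUnion.1 hu2
  obtain ⟨m', hm'⟩ := exists_tseq_le (show 0 < ε / 2 / (‖h‖ + 1) by positivity)
  set k := max m m' with hk
  set t : ℝ := 1 / ((k : ℝ) + 1) with ht
  have ht0 : 0 < t := tseq_pos k
  have hth : ‖t • h‖ < ε / 2 := by
    have h1 : t ≤ ε / 2 / (‖h‖ + 1) := hm' k (le_max_right _ _)
    rw [le_div_iff₀ (by positivity)] at h1
    rw [norm_smul, Real.norm_of_nonneg ht0.le]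
    nlinarith
  refine ⟨(fun v => v - t • h) ⁻¹' (ball v₀ (ε / 2) ∩ interior (D m)),
    (isOpen_ball.inter isOpen_interior).preimage (by fun_prop),
    ⟨u + t • h, by simpa using ⟨hu1, hm⟩⟩, fun v hv => hball ?_, fun v hv => ⟨t, ht0, ?_⟩⟩
  · have h1 := hv.1
    rw [mem_ball, dist_eq_norm] at h1 ⊢
    have e : v - v₀ = (v - t • h - v₀) + t • h := by abel
    rw [e]
    linarith [norm_add_le (v - t • h - v₀) (t • h)]
  · have h1 := mem_iInter₂.1 (interior_subset hv.2) k (le_max_left _ _)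
    have h2 : ‖v - t • h‖ + ‖v - t • h + (2 * t) • h‖ = 2 * ‖v - t • h + t • h‖ := h1
    have e1 : v - t • h + (2 * t) • h = v + t • h := by module
    rwa [e1, sub_add_cancel] at h2

lemma TwoSided.agree {x h : E} (H : TwoSided x h) {f g : StrongDual ℝ E} (hf : ‖f‖ ≤ 1)
    (hg : ‖g‖ ≤ 1) (hfx : f x = ‖x‖) (hgx : g x = ‖x‖) : f h = g h := by
  obtain ⟨t, ht, H⟩ := H
  have h1 := le_norm_of hf (x - t • h)
  have h2 := le_norm_of hf (x + t • h)
  have h3 := le_norm_of hg (x - t • h)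
  have h4 := le_norm_of hg (x + t • h)
  simp only [map_sub, map_add, map_smul, smul_eq_mul, hfx, hgx] at h1 h2 h3 h4
  have : t * f h = t * g h := by linarith
  exact mul_left_cancel₀ ht.ne' this

/-- The directions in which all norming functionals of `x` agree. -/
def lin (x : E) : Submodule ℝ E where
  carrier := {w | ∀ f g : StrongDual ℝ E, ‖f‖ ≤ 1 → ‖g‖ ≤ 1 → f x = ‖x‖ → g x = ‖x‖ → f w = g w}
  add_mem' := fun {a b} ha hb f g h1 h2 h3 h4 => by
    rw [map_add, map_add, ha f g h1 h2 h3 h4, hb f g h1 h2 h3 h4]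
  zero_mem' := fun f g _ _ _ _ => by simp
  smul_mem' := fun c a ha f g h1 h2 h3 h4 => by
    rw [map_smul, map_smul, ha f g h1 h2 h3 h4]

lemma isClosed_lin (x : E) : IsClosed (lin x : Set E) := by
  have e : (lin x : Set E) = ⋂ f : StrongDual ℝ E, ⋂ g : StrongDual ℝ E, ⋂ (_ : ‖f‖ ≤ 1),
      ⋂ (_ : ‖g‖ ≤ 1), ⋂ (_ : f x = ‖x‖), ⋂ (_ : g x = ‖x‖), {w | f w = g w} := by
    ext w
    simp only [mem_iInter]
    rfl
  rw [e]
  exact isClosed_iInter fun f => isClosed_iInter fun g => isClosed_iInter fun _ =>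
    isClosed_iInter fun _ => isClosed_iInter fun _ => isClosed_iInter fun _ =>
      isClosed_eq f.continuous g.continuous

lemma lin_locLin [CompleteSpace E] (hE : PL E) (x : E) {f : StrongDual ℝ E} (hf : ‖f‖ ≤ 1)
    (hfx : f x = ‖x‖) : ∃ ρ : ℝ, 0 < ρ ∧ ∀ w ∈ lin x, ‖w‖ < ρ → f (x + w) = ‖x + w‖ := by
  have : CompleteSpace (lin x) := (isClosed_lin x).completeSpace_coe
  have one : ∀ w ∈ lin x, ∃ m : ℕ, ∀ k ≥ m,
      f (x + (1 / ((k : ℝ) + 1)) • w) = ‖x + (1 / ((k : ℝ) + 1)) • w‖ := by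
    intro w hw
    obtain ⟨t₀, ht₀, H⟩ := hE x w
    obtain ⟨m, hm⟩ := exists_tseq_le ht₀
    refine ⟨m, fun k hk => ?_⟩
    set t : ℝ := 1 / ((k : ℝ) + 1)
    have h1 := H t (tseq_pos k) (hm k hk)
    obtain ⟨g, hg, hgx⟩ := exists_norming (x + t • w)
    have h2 := le_norm_of hg x
    have h3 := le_norm_of hg (x + (2 * t) • w)
    rw [← hgx] at h1 ⊢
    simp only [map_add, map_smul, smul_eq_mul] at h1 h3 ⊢
    have h4 : g x = ‖x‖ := by linarith
    rw [hw f g hf hg hfx h4, hfx, h4]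
  set A : ℕ → Set (lin x) := fun k => {w | f (x + (1 / ((k : ℝ) + 1)) • (w : E)) =
      ‖x + (1 / ((k : ℝ) + 1)) • (w : E)‖} ∩ {w | f (x + (1 / ((k : ℝ) + 1)) • (-(w : E))) =
      ‖x + (1 / ((k : ℝ) + 1)) • (-(w : E))‖} with hA
  have hc : ∀ k, IsClosed (A k) := fun k =>
    (isClosed_eq (by fun_prop) (by fun_prop)).inter (isClosed_eq (by fun_prop) (by fun_prop))
  have hU : ⋃ k, A k = univ := by
    refine eq_univ_of_forall fun w => ?_
    obtain ⟨m, hm⟩ := one w w.2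
    obtain ⟨m', hm'⟩ := one (-w) ((lin x).neg_mem w.2)
    exact mem_iUnion.2 ⟨max m m', hm _ (le_max_left _ _), hm' _ (le_max_right _ _)⟩
  obtain ⟨k, w₀, hw₀⟩ := nonempty_interior_of_iUnion_of_closed hc hU
  obtain ⟨ρ, hρ, hball⟩ := Metric.isOpen_iff.1 isOpen_interior w₀ hw₀
  set t : ℝ := 1 / ((k : ℝ) + 1) with ht
  have ht0 : 0 < t := tseq_pos k
  refine ⟨t * ρ, by positivity, fun w hw hwρ => ?_⟩
  set w' : lin x := ⟨t⁻¹ • w, (lin x).smul_mem _ hw⟩ with hw'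
  have hn : ‖w'‖ < ρ := by
    show ‖t⁻¹ • w‖ < ρ
    rw [norm_smul, norm_inv, Real.norm_of_nonneg ht0.le, inv_mul_lt_iff₀ ht0]
    exact hwρ
  have h1 := (interior_subset (hball (show w₀ + w' ∈ ball w₀ ρ by
    rw [mem_ball, dist_eq_norm, add_sub_cancel_left]; exact hn))).1
  have h2 := (interior_subset (hball (show w₀ - w' ∈ ball w₀ ρ by
    rw [mem_ball, dist_eq_norm, sub_sub_cancel_left, norm_neg]; exact hn))).2
  have h3 := norms_add hf h1 h2 (show (0 : ℝ) ≤ 1 / 2 by norm_num)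
    (show (0 : ℝ) ≤ 1 / 2 by norm_num)
  have e : (1 / 2 : ℝ) • (x + t • ((w₀ + w' : lin x) : E)) +
      (1 / 2 : ℝ) • (x + t • (-((w₀ - w' : lin x) : E))) = x + w := by
    have e2 : w = t • (w' : E) := by
      rw [hw']
      show w = t • t⁻¹ • w
      rw [smul_smul, mul_inv_cancel₀ ht0.ne', one_smul]
    rw [e2, Submodule.coe_add, Submodule.coe_sub]
    module
  rwa [e] at h3

theorem dense_locLin [CompleteSpace E] (hE : PL E) {V : Set E} (hV : IsOpen V)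
    (hne : V.Nonempty) : ∃ v ∈ V, ∃ f : StrongDual ℝ E, LocLin f v := by
  by_contra hcon
  push Not at hcon
  have wit : ∀ (x : E) (r : ℝ), 0 < r → ball x r ⊆ V →
      ∃ a ∈ ball x r, ∃ b ∈ ball x r, ‖a + b‖ ≠ ‖a‖ + ‖b‖ := by
    intro x r hr hsub
    by_contra h
    push Not at h
    obtain ⟨f, hf, hfx⟩ := exists_norming x
    refine hcon x (hsub (mem_ball_self hr)) f ⟨hf, r, hr, fun w hw => ?_⟩
    have h1 := h w (by rwa [mem_ball, dist_eq_norm]) ((2 : ℝ) • x - w) (by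
      rw [mem_ball, dist_eq_norm, show (2 : ℝ) • x - w - x = -(w - x) by module, norm_neg]
      exact hw)
    rw [add_sub_cancel, norm_smul, Real.norm_of_nonneg zero_le_two] at h1
    have h2 := le_norm_of hf w
    have h3 := le_norm_of hf ((2 : ℝ) • x - w)
    rw [map_sub, map_smul, smul_eq_mul, hfx] at h3
    linarith
  have step : ∀ s : {p : E × ℝ // 0 < p.2 ∧ ball p.1 p.2 ⊆ V},
      ∃ s' : {p : E × ℝ // 0 < p.2 ∧ ball p.1 p.2 ⊆ V}, ∃ a ∈ ball s.1.1 s.1.2,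
        ∃ b ∈ ball s.1.1 s.1.2, ‖a + b‖ ≠ ‖a‖ + ‖b‖ ∧ s'.1.2 ≤ s.1.2 / 2 ∧
          closedBall s'.1.1 s'.1.2 ⊆ ball s.1.1 s.1.2 ∧
          ∀ v ∈ closedBall s'.1.1 s'.1.2, TwoSided v a ∧ TwoSided v b := by
    rintro ⟨⟨x, r⟩, hr, hsub⟩
    obtain ⟨a, ha, b, hb, hab⟩ := wit x r hr hsub
    obtain ⟨V₁, h1, h2, h3, h4⟩ := step_twoSided hE isOpen_ball (nonempty_ball.2 hr) a
    obtain ⟨V₂, h5, ⟨y, hy⟩, h7, h8⟩ := step_twoSided hE h1 h2 b
    obtain ⟨ε, hε, hε'⟩ := Metric.nhds_basis_closedBall.mem_iff.1 (h5.mem_nhds hy)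
    have hsub2 : closedBall y (min ε (r / 2)) ⊆ V₂ :=
      (closedBall_subset_closedBall (min_le_left _ _)).trans hε'
    refine ⟨⟨(y, min ε (r / 2)), lt_min hε (by positivity), ?_⟩, a, ha, b, hb, hab,
      min_le_right _ _, hsub2.trans (h7.trans h3), fun v hv => ⟨h4 v (h7 (hsub2 hv)),
        h8 v (hsub2 hv)⟩⟩
    exact ball_subset_closedBall.trans (hsub2.trans (h7.trans (h3.trans hsub)))
  choose nxt a ha b hb hab hr hsub hts using step
  obtain ⟨v₀, hv₀⟩ := hne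
  obtain ⟨r₀, hr₀, hball⟩ := Metric.isOpen_iff.1 hV v₀ hv₀
  set s : ℕ → {p : E × ℝ // 0 < p.2 ∧ ball p.1 p.2 ⊆ V} :=
    fun n => nxt^[n] ⟨(v₀, r₀), hr₀, hball⟩ with hs
  have hsucc : ∀ n, s (n + 1) = nxt (s n) := fun n => Function.iterate_succ_apply' _ _ _
  have hrad : ∀ n, (s n).1.2 ≤ r₀ * (1 / 2) ^ n := by
    intro n
    induction n with
    | zero => simp [hs]
    | succ n ih =>
      rw [hsucc, pow_succ]
      linarith [hr (s n)]
  have hanti : Antitone fun n => closedBall (s n).1.1 (s n).1.2 := by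
    refine antitone_nat_of_succ_le fun n => ?_
    rw [hsucc]
    exact (hsub (s n)).trans ball_subset_closedBall
  have hlim : Tendsto (fun n : ℕ => 2 * (r₀ * (1 / 2 : ℝ) ^ n)) atTop (𝓝 0) := by
    have := (tendsto_pow_atTop_nhds_zero_of_lt_one (show (0 : ℝ) ≤ 1 / 2 by norm_num)
      (by norm_num)).const_mul (2 * r₀)
    simpa [mul_assoc] using this
  obtain ⟨x, hx⟩ := Metric.nonempty_iInter_of_nonempty_biInter
    (s := fun n => closedBall (s n).1.1 (s n).1.2) (fun n => isClosed_closedBall)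
    (fun n => isBounded_closedBall)
    (fun N => ⟨(s N).1.1, mem_iInter₂.2 fun n hn => hanti hn (mem_closedBall_self (s N).2.1.le)⟩)
    (squeeze_zero (fun n => diam_nonneg)
      (fun n => (diam_closedBall (s n).2.1.le).trans (by linarith [hrad n])) hlim)
  have hx' : ∀ n, x ∈ closedBall (s n).1.1 (s n).1.2 := mem_iInter.1 hx
  obtain ⟨f, hf, hfx⟩ := exists_norming x
  obtain ⟨ρ, hρ, H⟩ := lin_locLin hE x hf hfx
  obtain ⟨n, hn⟩ := (hlim.eventually (gt_mem_nhds hρ)).exists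
  have hxl : x ∈ lin x := fun f g _ _ h3 h4 => by rw [h3, h4]
  have key : ∀ y ∈ ball (s n).1.1 (s n).1.2, TwoSided x y → f y = ‖y‖ := by
    intro y hy hty
    have h1 : y ∈ lin x := fun f g h1 h2 h3 h4 => hty.agree h1 h2 h3 h4
    have h2 : ‖y - x‖ < ρ := by
      have h3 := hx' n
      rw [mem_closedBall, dist_eq_norm] at h3
      rw [mem_ball, dist_eq_norm] at hy
      have h4 := norm_sub_le_norm_sub_add_norm_sub y (s n).1.1 x
      rw [norm_sub_rev (s n).1.1 x] at h4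
      linarith [hrad n]
    have := H _ ((lin x).sub_mem h1 hxl) h2
    rwa [add_sub_cancel] at this
  have hts' := hts (s n) x (by rw [← hsucc]; exact hx' (n + 1))
  have h1 := key _ (ha (s n)) hts'.1
  have h2 := key _ (hb (s n)) hts'.2
  refine hab (s n) (le_antisymm (norm_add_le _ _) ?_)
  rw [← h1, ← h2, ← map_add]
  exact le_norm_of hf _

/-- Every vector is normed by a true face. -/
theorem exists_trueFace [CompleteSpace E] (hE : PL E) (x : E) :
    ∃ f : StrongDual ℝ E, TrueFace f ∧ f x = ‖x‖ := by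
  set A : ℕ → Set E := fun k => {h | ‖x‖ + ‖x + (2 * (1 / ((k : ℝ) + 1))) • h‖ =
    2 * ‖x + (1 / ((k : ℝ) + 1)) • h‖} with hA
  have hc : ∀ k, IsClosed (A k) := fun k => isClosed_eq (by fun_prop) (by fun_prop)
  have hU : ⋃ k, A k = univ := by
    refine eq_univ_of_forall fun h => ?_
    obtain ⟨t₀, ht₀, H⟩ := hE x h
    obtain ⟨m, hm⟩ := exists_tseq_le ht₀
    exact mem_iUnion.2 ⟨m, H _ (tseq_pos m) (hm m le_rfl)⟩
  obtain ⟨k, h₀, hh₀⟩ := nonempty_interior_of_iUnion_of_closed hc hU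
  set t : ℝ := 1 / ((k : ℝ) + 1) with ht
  have ht0 : 0 < t := tseq_pos k
  obtain ⟨v, hv, f, hf⟩ := dense_locLin hE
    (V := (fun v => t⁻¹ • (v - x)) ⁻¹' interior (A k)) (isOpen_interior.preimage (by fun_prop))
    ⟨x + t • h₀, by
      rw [mem_preimage, add_sub_cancel_left, smul_smul, inv_mul_cancel₀ ht0.ne', one_smul]
      exact hh₀⟩
  refine ⟨f, ⟨v, hf⟩, ?_⟩
  have h0 : t⁻¹ • (v - x) ∈ A k := interior_subset (mem_preimage.1 hv)
  have h1 : ‖x‖ + ‖x + (2 * t) • t⁻¹ • (v - x)‖ = 2 * ‖x + t • t⁻¹ • (v - x)‖ := h0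
  rw [smul_smul, smul_smul, mul_assoc, mul_inv_cancel₀ ht0.ne', one_smul, add_sub_cancel,
    mul_one] at h1
  have h2 := le_norm_of hf.1 x
  have h3 := le_norm_of hf.1 (x + (2 : ℝ) • (v - x))
  rw [map_add, map_smul, map_sub, smul_eq_mul, hf.self] at h3
  linarith

end Pool.Agent.H99Z.Poly
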