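import Pool.Agent.H99Z.PolyC

set_option autoImplicit false

/-! A Simons type argument: the faces meeting a hyperplane section span the dual. -/

namespace Pool.Agent.H99Z.Poly

open Set Metric Filter Topology

variable {E : Type*} [NormedAddCommGroup E] [NormedSpace ℝ E]

lemma summable_half [CompleteSpace E] (z : ℕ → E) (hb : ∀ n, ‖z n‖ ≤ 1) :
    Summable fun j => (1 / 2 : ℝ) ^ (j + 1) • z j := by
  refine Summable.of_norm_bounded summable_geometric_two fun j => ?_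
  rw [norm_smul, Real.norm_of_nonneg (by positivity), pow_succ]
  have h1 : (0 : ℝ) < (1 / 2) ^ j := by positivity
  nlinarith [hb j, norm_nonneg (z j)]

lemma partial_mem {C : Set E} (hc : Convex ℝ C) (N : ℕ) : ∀ (z : ℕ → E), (∀ n, z n ∈ C) →
    ∑ j ∈ Finset.range N, (1 / 2 : ℝ) ^ (j + 1) • z j + (1 / 2 : ℝ) ^ N • z N ∈ C := by
  induction N with
  | zero => intro z hz; simpa using hz 0
  | succ N ih =>
    intro z hz
    have h1 := hc (hz 0) (ih (fun n => z (n + 1)) fun n => hz _)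
      (show (0 : ℝ) ≤ 1 / 2 by norm_num) (show (0 : ℝ) ≤ 1 / 2 by norm_num) (by norm_num)
    convert h1 using 1
    rw [Finset.sum_range_succ', smul_add, Finset.smul_sum]
    simp only [smul_smul, ← pow_succ', zero_add, pow_one]
    abel

lemma tsum_half_mem [CompleteSpace E] {C : Set E} (hc : Convex ℝ C) (hcl : IsClosed C)
    (z : ℕ → E) (hz : ∀ n, z n ∈ C) (hb : ∀ n, ‖z n‖ ≤ 1) :
    ∑' j, (1 / 2 : ℝ) ^ (j + 1) • z j ∈ C := by
  have h1 := (summable_half z hb).hasSum.tendsto_sum_nat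
  have h2 : Tendsto (fun N => (1 / 2 : ℝ) ^ N • z N) atTop (𝓝 0) := by
    refine squeeze_zero_norm (fun N => ?_)
      (tendsto_pow_atTop_nhds_zero_of_lt_one (show (0 : ℝ) ≤ 1 / 2 by norm_num) (by norm_num))
    rw [norm_smul, Real.norm_of_nonneg (by positivity)]
    have h1 : (0 : ℝ) < (1 / 2) ^ N := by positivity
    nlinarith [hb N]
  have h3 := h1.add h2
  rw [add_zero] at h3
  exact hcl.mem_of_tendsto h3 (Eventually.of_forall fun N => partial_mem hc N z hz)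

theorem simons [CompleteSpace E] (C : ℕ → Set E) (hanti : Antitone C) (hne : ∀ k, (C k).Nonempty)
    (hcl : ∀ k, IsClosed (C k)) (hcv : ∀ k, Convex ℝ (C k)) (hbd : ∀ k, ∀ z ∈ C k, ‖z‖ ≤ 1)
    (σ : E → ℝ) (hlow : ∀ z, 0 ≤ σ z) (hσ : ∀ a : ℝ, 0 < a → ∀ z, σ (a • z) ≤ a * σ z)
    {ε : ℝ} (hε : 0 < ε) :
    ∃ v ∈ C 0, ∀ t : StrongDual ℝ E, (∀ z, t z ≤ σ z) → t v = σ v →
      ∀ m, ∃ w ∈ C m, σ v - ε ≤ t w := by
  have pick : ∀ (k : ℕ) (V : E), ∃ z ∈ C k, ∀ z' ∈ C k,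
      σ (V + z) ≤ σ (V + z') + ε * (1 / 2) ^ (k + 1) := by
    intro k V
    obtain ⟨_, ⟨z, hz, rfl⟩, h⟩ := Real.lt_sInf_add_pos ((hne k).image fun z => σ (V + z))
      (show 0 < ε * (1 / 2) ^ (k + 1) by positivity)
    refine ⟨z, hz, fun z' hz' => ?_⟩
    have : sInf ((fun z => σ (V + z)) '' C k) ≤ σ (V + z') :=
      csInf_le ⟨0, by rintro _ ⟨y, -, rfl⟩; exact hlow _⟩ ⟨z', hz', rfl⟩
    linarith
  choose p hp1 hp2 using pick
  set V : ℕ → E := fun n => Nat.rec 0 (fun k V => (2 : ℝ) • V + p k V) n with hV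
  have hV0 : V 0 = 0 := rfl
  have hVs : ∀ k, V (k + 1) = (2 : ℝ) • V k + p k (V k) := fun k => rfl
  set z : ℕ → E := fun k => p k (V k) with hz
  have hzb : ∀ k, ‖z k‖ ≤ 1 := fun k => hbd k _ (hp1 k _)
  set w : ℕ → E := fun m => ∑' j, (1 / 2 : ℝ) ^ (j + 1) • z (m + j) with hw
  have hwC : ∀ m, w m ∈ C m := fun m =>
    tsum_half_mem (hcv m) (hcl m) (fun j => z (m + j))
      (fun j => hanti (Nat.le_add_right m j) (hp1 _ _)) fun j => hzb _
  have hws : ∀ m, w m = (1 / 2 : ℝ) • z m + (1 / 2 : ℝ) • w (m + 1) := by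
    intro m
    have h1 := (summable_half (fun j => z (m + j)) fun j => hzb _).tsum_eq_zero_add
    have h2 := (summable_half (fun j => z (m + 1 + j)) fun j => hzb _).tsum_const_smul (1 / 2 : ℝ)
    simp only [hw]
    rw [h1, ← h2]
    simp only [zero_add, pow_one, add_zero, smul_smul, ← pow_succ']
    congr 2
    funext j
    rw [show m + (j + 1) = m + 1 + j by ring]
  have hid : ∀ m, V m + w m = (2 : ℝ) ^ m • w 0 := by
    intro m
    induction m with
    | zero => simp [hV0]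
    | succ m ih =>
      rw [pow_succ', mul_smul, ← ih, hVs, hws m]
      simp only [hz]
      module
  refine ⟨w 0, hwC 0, fun t ht htv m => ⟨w m, hwC m, ?_⟩⟩
  have hle : ∀ m, t (V m) ≤ (2 ^ m - 1) * σ (w 0) + ε * (1 - (1 / 2) ^ m) := by
    intro m
    induction m with
    | zero => simp [hV0]
    | succ m ih =>
      have h1 := ht (V m + z m)
      have h2 := hp2 m (V m) (w m) (hwC m)
      rw [hid m] at h2
      have h3 := hσ (2 ^ m) (by positivity) (w 0)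
      have h4 : t (V (m + 1)) = t (V m) + t (V m + z m) := by
        rw [hVs, ← map_add]; congr 1; simp only [hz]; module
      rw [h4, pow_succ, pow_succ] at *
      have h5 : σ (V m + z m) = σ (V m + p m (V m)) := rfl
      nlinarith
  have h1 : t (V m) + t (w m) = 2 ^ m * σ (w 0) := by
    rw [← map_add, hid, map_smul, htv, smul_eq_mul]
  have h2 : (0 : ℝ) < ε * (1 / 2) ^ m := by positivity
  nlinarith [hle m]

lemma exists_wit {S : Submodule ℝ (StrongDual ℝ E)} {φ : StrongDual ℝ E}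
    (hφ : ∀ ζ ∈ S, 1 / 2 ≤ ‖φ - ζ‖) (A : Finset (StrongDual ℝ E)) (hA : ∀ ζ ∈ A, ζ ∈ S) :
    ∃ z : E, ‖z‖ ≤ 1 ∧ 1 / 3 ≤ φ z ∧ ∀ ζ ∈ A, ζ z = 0 := by
  set p : Submodule ℝ E := ⨅ i : A, LinearMap.ker ((i : StrongDual ℝ E) : E →ₗ[ℝ] ℝ) with hp
  obtain ⟨g, hg1, hg2⟩ := exists_extension_norm_eq p (φ.comp p.subtypeL)
  have hk : p ≤ LinearMap.ker ((φ - g : StrongDual ℝ E) : E →ₗ[ℝ] ℝ) := by
    intro x hx
    have := hg1 ⟨x, hx⟩
    simp only [ContinuousLinearMap.comp_apply, Submodule.subtypeL_apply] at this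
    simp [this]
  obtain ⟨c, hc⟩ := (Submodule.mem_span_range_iff_exists_fun ℝ).1
    (mem_span_of_iInf_ker_le_ker hk)
  have hmem : φ - g ∈ S := by
    have e : φ - g = ∑ i : A, c i • (i : StrongDual ℝ E) := by
      ext x
      have := LinearMap.congr_fun hc x
      simp only [LinearMap.coe_sum, Finset.sum_apply, LinearMap.smul_apply,
        ContinuousLinearMap.coe_coe] at this
      rw [← this]
      simp
    rw [e]
    exact S.sum_mem fun i _ => S.smul_mem _ (hA i i.2)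
  have h1 := hφ _ hmem
  rw [sub_sub_cancel, hg2] at h1
  obtain ⟨x, hx1, hx2⟩ := (φ.comp p.subtypeL).exists_lt_apply_of_lt_opNorm
    (show 1 / 3 < _ by linarith)
  have hx3 : ∀ ζ ∈ A, ζ (x : E) = 0 := fun ζ hζ => (Submodule.mem_iInf _).1 x.2 ⟨ζ, hζ⟩
  simp only [ContinuousLinearMap.comp_apply, Submodule.subtypeL_apply, Real.norm_eq_abs] at hx2
  rcases le_total 0 (φ x) with h | h
  · rw [abs_of_nonneg h] at hx2
    exact ⟨x, hx1.le, hx2.le, hx3⟩
  · rw [abs_of_nonpos h] at hx2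
    exact ⟨-x, by simpa using hx1.le, by simpa using hx2.le, fun ζ hζ => by simp [hx3 ζ hζ]⟩

lemma closing_off (y₀ : E) (wit : Set E → E) : ∃ D : Set E, D.Countable ∧ y₀ ∈ D ∧
    (Submodule.span ℝ D : Set E) ⊆ closure D ∧ ∀ A : Set E, A.Finite → A ⊆ D → wit A ∈ D := by
  have hsep : ∀ D : Set E, ∃ c : Set E, D.Countable →
      c.Countable ∧ (Submodule.span ℝ D : Set E) ⊆ closure c := by
    intro D
    by_cases h : D.Countable
    · obtain ⟨c, hc1, hc2⟩ := h.isSeparable.span (R := ℝ)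
      exact ⟨c, fun _ => ⟨hc1, hc2⟩⟩
    · exact ⟨∅, fun h' => absurd h' h⟩
  choose t ht using hsep
  set D : ℕ → Set E := fun n => Nat.rec {y₀}
    (fun _ D => D ∪ t D ∪ wit '' {A | A.Finite ∧ A ⊆ D}) n with hD
  have hDs : ∀ n, D (n + 1) = D n ∪ t (D n) ∪ wit '' {A | A.Finite ∧ A ⊆ D n} := fun n => rfl
  have hc : ∀ n, (D n).Countable := by
    intro n
    induction n with
    | zero => exact countable_singleton y₀
    | succ n ih =>
      rw [hDs]
      exact (ih.union (ht _ ih).1).union ((countable_ofPred_finite_subset ih).image _)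
  have hmono : Monotone D := monotone_nat_of_le_succ fun n => by
    rw [hDs]; exact subset_union_left.trans subset_union_left
  have hfin : ∀ A : Finset E, (A : Set E) ⊆ ⋃ n, D n → ∃ n, (A : Set E) ⊆ D n := fun A hA =>
    Directed.exists_mem_subset_of_finset_subset_biUnion hmono.directed_le hA
  refine ⟨⋃ n, D n, countable_iUnion hc, mem_iUnion.2 ⟨0, rfl⟩, fun x hx => ?_, fun A hA hAD => ?_⟩
  · obtain ⟨T, hT, hxT⟩ := Submodule.mem_span_finite_of_mem_span hx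
    obtain ⟨n, hn⟩ := hfin T hT
    refine closure_mono ?_ ((ht _ (hc n)).2 (Submodule.span_mono hn hxT))
    refine Subset.trans ?_ (subset_iUnion D (n + 1))
    rw [hDs]
    exact subset_union_right.trans subset_union_left
  · obtain ⟨n, hn⟩ := hfin hA.toFinset (by simpa using hAD)
    refine mem_iUnion.2 ⟨n + 1, ?_⟩
    rw [hDs]
    exact Or.inr ⟨A, ⟨hA, by simpa using hn⟩, rfl⟩

lemma exists_hit {y₀ v : E} {r : ℝ} (hr : ‖y₀‖ < r) (hv : v ≠ 0) :
    ∃ s : ℝ, 0 < s ∧ ‖y₀ + s • v‖ = r := by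
  have hn : 0 < ‖v‖ := norm_pos_iff.2 hv
  have hr0 : 0 < r := (norm_nonneg _).trans_lt hr
  set S : ℝ := 2 * r / ‖v‖ with hS
  have hS0 : 0 ≤ S := by positivity
  have h1 : r ≤ ‖y₀ + S • v‖ := by
    have h2 : ‖S • v‖ = 2 * r := by
      rw [norm_smul, Real.norm_of_nonneg hS0, hS, div_mul_cancel₀ _ hn.ne']
    have h3 := norm_sub_le (y₀ + S • v) y₀
    rw [add_sub_cancel_left] at h3
    linarith
  obtain ⟨s, hs, hs2⟩ := intermediate_value_Icc hS0 (f := fun s : ℝ => ‖y₀ + s • v‖)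
    (by fun_prop) (show r ∈ _ from ⟨by simpa using hr.le, h1⟩)
  refine ⟨s, lt_of_le_of_ne hs.1 ?_, hs2⟩
  rintro rfl
  simp only [zero_smul, add_zero] at hs2
  linarith

theorem dense_of_faces [CompleteSpace E] (hE : PL E) (y₀ : E) (r : ℝ) (hr : ‖y₀‖ < r)
    (γ : StrongDual ℝ E) (Z : Submodule ℝ (StrongDual ℝ E)) (c : ℝ)
    (hc : 6 * r * c < r - ‖y₀‖)
    (hZ : ∀ f : StrongDual ℝ E, TrueFace f → (∃ h, γ h = 0 ∧ ‖y₀ + h‖ = r ∧ f (y₀ + h) = r) →
      ∃ ζ ∈ Z, ‖f - ζ‖ ≤ c) :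
    (Z ⊔ Submodule.span ℝ {γ}).topologicalClosure = ⊤ := by
  classical
  by_contra hcon
  set S := (Z ⊔ Submodule.span ℝ {γ}).topologicalClosure with hS
  have hr0 : 0 < r := (norm_nonneg _).trans_lt hr
  have hd : 0 < r - ‖y₀‖ := sub_pos.2 hr
  obtain ⟨φ, hφ1, hφ2⟩ : ∃ φ : StrongDual ℝ E, ‖φ‖ ≤ 1 ∧ ∀ ζ ∈ S, 1 / 2 ≤ ‖φ - ζ‖ := by
    obtain ⟨x₀, hx₀, h⟩ := riesz_lemma (Submodule.isClosed_topologicalClosure _)
      (show ∃ x, x ∉ S by
        by_contra h'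
        push Not at h'
        exact hcon (Submodule.eq_top_iff'.2 h')) (show (1 / 2 : ℝ) < 1 by norm_num)
    have h0 : 0 < ‖x₀‖ := norm_pos_iff.2 fun h => hx₀ (h ▸ S.zero_mem)
    refine ⟨‖x₀‖⁻¹ • x₀, by rw [norm_smul, norm_inv, norm_norm, inv_mul_cancel₀ h0.ne'],
      fun ζ hζ => ?_⟩
    have h1 := h (‖x₀‖ • ζ) (S.smul_mem _ hζ)
    have e : ‖x₀‖⁻¹ • x₀ - ζ = ‖x₀‖⁻¹ • (x₀ - ‖x₀‖ • ζ) := by
      rw [smul_sub, smul_smul, inv_mul_cancel₀ h0.ne', one_smul]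
    rw [e, norm_smul, norm_inv, norm_norm, le_inv_mul_iff₀ h0]
    linarith
  have hZS : ∀ ζ ∈ Z, ζ ∈ S := fun ζ hζ =>
    Submodule.le_topologicalClosure _ (Submodule.mem_sup_left hζ)
  have hγS : γ ∈ S :=
    Submodule.le_topologicalClosure _ (Submodule.mem_sup_right (Submodule.subset_span rfl))
  choose Fc hFc1 hFc2 using exists_trueFace hE
  have hFc0 : ∀ d, ‖Fc d‖ ≤ 1 := fun d => (hFc1 d).elim fun v hv => hv.1
  have hζ : ∀ d : E, ∃ ζ ∈ Z, (∃ h, γ h = 0 ∧ ‖y₀ + h‖ = r ∧ Fc d (y₀ + h) = r) →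
      ‖Fc d - ζ‖ ≤ c := by
    intro d
    by_cases h : ∃ h, γ h = 0 ∧ ‖y₀ + h‖ = r ∧ Fc d (y₀ + h) = r
    · obtain ⟨ζ, h1, h2⟩ := hZ _ (hFc1 d) h
      exact ⟨ζ, h1, fun _ => h2⟩
    · exact ⟨0, Z.zero_mem, fun h' => absurd h' h⟩
  choose ζ hζ1 hζ2 using hζ
  have hwit : ∀ A : Set E, ∃ z : E, A.Finite →
      ‖z‖ ≤ 1 ∧ γ z = 0 ∧ 1 / 3 ≤ φ z ∧ ∀ d ∈ A, ζ d z = 0 := by
    intro A
    by_cases hA : A.Finite
    · obtain ⟨z, h1, h2, h3⟩ := exists_wit hφ2 (insert γ (hA.toFinset.image ζ)) (by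
        intro ξ hξ
        rcases Finset.mem_insert.1 hξ with rfl | hξ
        · exact hγS
        · obtain ⟨d, -, rfl⟩ := Finset.mem_image.1 hξ
          exact hZS _ (hζ1 d))
      exact ⟨z, fun _ => ⟨h1, h3 _ (Finset.mem_insert_self _ _), h2, fun d hd => h3 _
        (Finset.mem_insert_of_mem (Finset.mem_image_of_mem ζ (by simpa using hd)))⟩⟩
    · exact ⟨0, fun h => absurd h hA⟩
  choose wit hwit using hwit
  obtain ⟨D, hD1, hD2, hD3, hD4⟩ := closing_off y₀ wit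
  obtain ⟨d, hd'⟩ := hD1.exists_eq_range ⟨y₀, hD2⟩
  set W := (Submodule.span ℝ D).topologicalClosure with hW
  have hWc : IsClosed (W : Set E) := Submodule.isClosed_topologicalClosure _
  have hDW : ∀ x ∈ D, x ∈ W := fun x hx =>
    Submodule.le_topologicalClosure _ (Submodule.subset_span hx)
  have hWD : (W : Set E) ⊆ closure D := by
    rw [hW, Submodule.topologicalClosure_coe]
    exact closure_minimal hD3 isClosed_closure
  set C : ℕ → Set E := fun k => {z | z ∈ W ∧ ‖z‖ ≤ 1 ∧ γ z = 0 ∧ 1 / 3 ≤ φ z ∧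
    ∀ i < k, ζ (d i) z = 0} with hC
  have hbdd : ∀ z : E, BddAbove (range fun g : {g : StrongDual ℝ E // ‖g‖ ≤ 1} =>
      g.1 z / (r - g.1 y₀)) := by
    intro z
    refine ⟨‖z‖ / (r - ‖y₀‖), ?_⟩
    rintro _ ⟨g, rfl⟩
    have h1 := le_norm_of g.2 y₀
    have h2 := le_norm_of g.2 z
    calc g.1 z / (r - g.1 y₀) ≤ ‖z‖ / (r - g.1 y₀) := by gcongr; linarith
      _ ≤ ‖z‖ / (r - ‖y₀‖) := by gcongr
  have : Nonempty {g : StrongDual ℝ E // ‖g‖ ≤ 1} := ⟨⟨0, by simp⟩⟩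
  set σ : E → ℝ := fun z => ⨆ g : {g : StrongDual ℝ E // ‖g‖ ≤ 1}, g.1 z / (r - g.1 y₀) with hσ
  have hσle : ∀ (g : StrongDual ℝ E), ‖g‖ ≤ 1 → ∀ z, g z / (r - g y₀) ≤ σ z := fun g hg z =>
    le_ciSup (hbdd z) ⟨g, hg⟩
  have hgap : 0 < 1 / (6 * r) - c / (r - ‖y₀‖) := by
    rw [sub_pos, div_lt_div_iff₀ hd (by positivity)]
    linarith
  obtain ⟨v, hv, H⟩ := simons C
    (fun k l hkl z hz => ⟨hz.1, hz.2.1, hz.2.2.1, hz.2.2.2.1,
      fun i hi => hz.2.2.2.2 i (hi.trans_le hkl)⟩)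
    (fun k => by
      have hfin : (d '' Iio k).Finite := (finite_Iio k).image d
      obtain ⟨h1, h2, h3, h4⟩ := hwit _ hfin
      exact ⟨wit (d '' Iio k), hDW _ (hD4 _ hfin (by rw [hd']; exact image_subset_range _ _)),
        h1, h2, h3, fun i hi => h4 _ ⟨i, hi, rfl⟩⟩)
    (fun k => by
      have e : C k = (W : Set E) ∩ ({z | ‖z‖ ≤ 1} ∩ ({z | γ z = 0} ∩ ({z | 1 / 3 ≤ φ z} ∩
          ⋂ i < k, {z | ζ (d i) z = 0}))) := by
        ext z
        simp only [hC, mem_inter_iff, mem_iInter]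
        rfl
      rw [e]
      exact hWc.inter ((isClosed_le continuous_norm continuous_const).inter
        ((isClosed_eq γ.continuous continuous_const).inter
          ((isClosed_le continuous_const φ.continuous).inter
            (isClosed_biInter fun i _ => isClosed_eq (ζ (d i)).continuous continuous_const)))))
    (fun k => by
      rintro x ⟨hx1, hx2, hx3, hx4, hx5⟩ y ⟨hy1, hy2, hy3, hy4, hy5⟩ a b ha hb hab
      refine ⟨W.add_mem (W.smul_mem _ hx1) (W.smul_mem _ hy1), ?_, by simp [hx3, hy3], ?_,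
        fun i hi => by simp [hx5 i hi, hy5 i hi]⟩
      · have h1 := norm_add_le (a • x) (b • y)
        rw [norm_smul, norm_smul, Real.norm_of_nonneg ha, Real.norm_of_nonneg hb] at h1
        nlinarith
      · rw [map_add, map_smul, map_smul, smul_eq_mul, smul_eq_mul]
        nlinarith)
    (fun k z hz => hz.2.1) σ (fun z => by simpa using hσle 0 (by simp) z)
    (fun a ha z => ciSup_le fun g => by
      rw [map_smul, smul_eq_mul, mul_div_assoc]
      exact mul_le_mul_of_nonneg_left (hσle g.1 g.2 z) ha.le)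
    (show 0 < (1 / (6 * r) - c / (r - ‖y₀‖)) / 2 by positivity)
  obtain ⟨hvW, -, hvγ, hvφ, -⟩ := hv
  have hv0 : v ≠ 0 := by
    rintro rfl
    simp only [map_zero] at hvφ
    linarith
  obtain ⟨s, hs, hsr⟩ := exists_hit hr hv0
  have hpW : y₀ + s • v ∈ W := W.add_mem (hDW _ hD2) (W.smul_mem _ hvW)
  have : CompleteSpace W := hWc.completeSpace_coe
  obtain ⟨f', ⟨v', hv'⟩, hf'⟩ := exists_trueFace (hE.submodule W) ⟨_, hpW⟩
  obtain ⟨δ, hδ, hball⟩ := Metric.isOpen_iff.1 (isOpen_locLin f') v' hv'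
  obtain ⟨x, hxD, hx⟩ := Metric.mem_closure_iff.1 (hWD v'.2) δ hδ
  have hloc : LocLin f' ⟨x, hDW x hxD⟩ := hball (by
    rw [mem_ball, Subtype.dist_eq, dist_comm]; exact hx)
  have huniq : (Fc x).comp W.subtypeL = f' := hloc.unique
    (norm_le_one_of fun z => le_norm_of (hFc0 x) (z : E)) (hFc2 x)
  have hFp : Fc x (y₀ + s • v) = r := by
    rw [← huniq] at hf'
    rw [← hsr]
    exact hf'
  have hnear := hζ2 x ⟨s • v, by simp [hvγ], hsr, hFp⟩
  have hFy := le_norm_of (hFc0 x) y₀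
  have hpos : 0 < r - Fc x y₀ := by linarith
  have hta : ∀ z, ((r - Fc x y₀)⁻¹ • Fc x) z = Fc x z / (r - Fc x y₀) := fun z => by
    rw [smul_apply, smul_eq_mul, div_eq_inv_mul]
  have htv : ((r - Fc x y₀)⁻¹ • Fc x) v = σ v := by
    rw [hta]
    refine le_antisymm (hσle _ (hFc0 x) v) (ciSup_le fun g => ?_)
    have h1 := le_norm_of g.2 (y₀ + s • v)
    have h2 := le_norm_of g.2 y₀
    rw [hsr] at h1
    rw [map_add, map_smul, smul_eq_mul] at h1 hFp
    have h3 : Fc x v / (r - Fc x y₀) = 1 / s := by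
      rw [div_eq_div_iff hpos.ne' hs.ne']; linarith
    rw [h3, div_le_div_iff₀ (by linarith) hs]
    linarith
  rw [hd'] at hxD
  obtain ⟨i, rfl⟩ := hxD
  obtain ⟨w, hw, hw2⟩ := H _ (fun z => by rw [hta]; exact hσle _ (hFc0 _) z) htv (i + 1)
  obtain ⟨-, hw1, -, -, hw5⟩ := hw
  have h1 : Fc (d i) w ≤ c := by
    have h2 := (Fc (d i) - ζ (d i)).le_opNorm w
    rw [sub_apply, hw5 i (Nat.lt_succ_self i), sub_zero, Real.norm_eq_abs] at h2
    have h3 : ‖Fc (d i) - ζ (d i)‖ * ‖w‖ ≤ c * 1 := by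
      gcongr
      exact (norm_nonneg _).trans hnear
    linarith [le_abs_self (Fc (d i) w)]
  have hc0 : 0 ≤ c := (norm_nonneg _).trans hnear
  have h2 : Fc (d i) w / (r - Fc (d i) y₀) ≤ c / (r - ‖y₀‖) := by
    calc Fc (d i) w / (r - Fc (d i) y₀) ≤ c / (r - Fc (d i) y₀) := by gcongr
      _ ≤ c / (r - ‖y₀‖) := by gcongr
  have h3 : 1 / (6 * r) ≤ σ v := by
    refine le_trans ?_ (hσle φ hφ1 v)
    have h4 := abs_le.1 (abs_le_norm_of hφ1 y₀)
    rw [div_le_div_iff₀ (by positivity) (by linarith)]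
    nlinarith
  rw [hta] at hw2
  linarith

theorem separable_dual [CompleteSpace E] [TopologicalSpace.SeparableSpace E] (hE : PL E) :
    TopologicalSpace.SeparableSpace (StrongDual ℝ E) := by
  have h := dense_of_faces hE 0 1 (by simp) 0 (Submodule.span ℝ {f | TrueFace f}) 0 (by simp)
    (fun f hf _ => ⟨f, Submodule.subset_span hf, by simp⟩)
  rw [← Submodule.span_union, ← Submodule.dense_iff_topologicalClosure_eq_top] at h
  exact h.isSeparable_iff.1
    ((countable_trueFace.union (countable_singleton _)).isSeparable.span (R := ℝ))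

end Pool.Agent.H99Z.Poly
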