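import Pool.Agent.H99Z.PolyD

set_option autoImplicit false

/-! An infinite-dimensional polyhedral Banach space contains a sequence of `c₀` type. -/

namespace Pool.Agent.H99Z.Poly

open Set Metric Filter Topology

variable {E : Type*} [NormedAddCommGroup E] [NormedSpace ℝ E]

lemma exists_ker (hinf : ¬ FiniteDimensional ℝ E) (b : ℕ → StrongDual ℝ E) (I : ℕ) {δ : ℝ}
    (hδ : 0 < δ) : ∃ h : E, ‖h‖ = δ ∧ ∀ i < I, b i h = 0 := by
  set L : E →ₗ[ℝ] (Fin I → ℝ) := LinearMap.pi fun i => (b i : E →ₗ[ℝ] ℝ) with hL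
  have : ¬ Function.Injective L := fun h => hinf (FiniteDimensional.of_injective L h)
  rw [← LinearMap.ker_eq_bot, Submodule.eq_bot_iff] at this
  push Not at this
  obtain ⟨x, hx, hx0⟩ := this
  have hn : 0 < ‖x‖ := norm_pos_iff.2 hx0
  refine ⟨(δ / ‖x‖) • x, ?_, fun i hi => ?_⟩
  · rw [norm_smul, Real.norm_of_nonneg (by positivity), div_mul_cancel₀ _ hn.ne']
  · have h1 : b i x = 0 := congrFun (LinearMap.mem_ker.1 hx) ⟨i, hi⟩
    simp [h1]

theorem c0_sep [CompleteSpace E] [TopologicalSpace.SeparableSpace E] (hE : PL E)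
    (hinf : ¬ FiniteDimensional ℝ E) : ∃ c : ℝ, 0 < c ∧ ∃ u : ℕ → E, (∀ k, c ≤ ‖u k‖) ∧
      ∀ (f : StrongDual ℝ E) (n : ℕ), ∑ k ∈ Finset.range n, |f (u k)| ≤ ‖f‖ := by
  obtain ⟨b, hb⟩ := (countable_trueFace (E := E)).exists_eq_range
    ((exists_trueFace hE 0).imp fun f hf => hf.1)
  have hb1 : ∀ i, ‖b i‖ ≤ 1 := fun i => by
    have : b i ∈ {f : StrongDual ℝ E | TrueFace f} := by rw [hb]; exact ⟨i, rfl⟩
    exact this.elim fun v hv => hv.1
  have hb2 : ∀ x, ∃ i, b i x = ‖x‖ := fun x => by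
    obtain ⟨f, hf, hfx⟩ := exists_trueFace hE x
    have : f ∈ range b := by rw [← hb]; exact hf
    obtain ⟨i, rfl⟩ := this
    exact ⟨i, hfx⟩
  set C : Set E := {x | ∀ i : ℕ, (1 + 1 / ((i : ℝ) + 1)) * b i x ≤ 1} with hC
  have hCcl : IsClosed C := by
    have e : C = ⋂ i : ℕ, {x | (1 + 1 / ((i : ℝ) + 1)) * b i x ≤ 1} := by
      ext x; simp only [hC, mem_iInter]; rfl
    rw [e]
    exact isClosed_iInter fun i => isClosed_le (by fun_prop) continuous_const
  have hCmid : ∀ x y : E, x + y ∈ C → x - y ∈ C → x ∈ C := by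
    intro x y h1 h2 i
    have h3 := h1 i
    have h4 := h2 i
    rw [map_add] at h3
    rw [map_sub] at h4
    linarith
  have hClt : ∀ x ∈ C, ‖x‖ < 1 := by
    intro x hx
    obtain ⟨i, hi⟩ := hb2 x
    have h1 := hx i
    rw [hi] at h1
    have h2 := tseq_pos i
    by_contra h
    nlinarith
  set adm : Set E → Set E := fun S => {h | ∀ s ∈ S, s + h ∈ C ∧ s - h ∈ C} with hadm
  have pick : ∀ S : Set E, ∃ h : E, S.Nonempty → S ⊆ C →
      h ∈ adm S ∧ ∀ h' ∈ adm S, ‖h'‖ ≤ 2 * ‖h‖ := by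
    intro S
    by_cases hS : S.Nonempty ∧ S ⊆ C
    · have h0 : (0 : E) ∈ adm S := fun s hs => by simpa using hS.2 hs
      have hbd : ∀ h ∈ adm S, ‖h‖ ≤ 1 := by
        intro h hh
        obtain ⟨s, hs⟩ := hS.1
        have h1 := hClt _ (hh s hs).1
        have h2 := hClt _ (hh s hs).2
        have h3 := norm_sub_le (s + h) (s - h)
        rw [show s + h - (s - h) = (2 : ℝ) • h by module, norm_smul,
          Real.norm_of_nonneg zero_le_two] at h3
        linarith
      have hbdd : BddAbove ((fun h => ‖h‖) '' adm S) := ⟨1, by rintro _ ⟨h, hh, rfl⟩; exact hbd h hh⟩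
      by_cases hz : ∀ h ∈ adm S, ‖h‖ ≤ 0
      · exact ⟨0, fun _ _ => ⟨h0, fun h' hh' => by simpa using hz h' hh'⟩⟩
      · push Not at hz
        obtain ⟨h₁, hh₁, hpos⟩ := hz
        have hs1 : ‖h₁‖ ≤ sSup ((fun h => ‖h‖) '' adm S) := le_csSup hbdd ⟨h₁, hh₁, rfl⟩
        obtain ⟨_, ⟨h, hh, rfl⟩, hlt⟩ := exists_lt_of_lt_csSup (s := (fun h => ‖h‖) '' adm S)
          ⟨_, h₁, hh₁, rfl⟩ (show sSup ((fun h => ‖h‖) '' adm S) / 2 < _ by linarith)
        refine ⟨h, fun _ _ => ⟨hh, fun h' hh' => ?_⟩⟩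
        have : ‖h'‖ ≤ sSup ((fun h => ‖h‖) '' adm S) := le_csSup hbdd ⟨h', hh', rfl⟩
        linarith
    · exact ⟨0, fun h1 h2 => absurd ⟨h1, h2⟩ hS⟩
  choose p hp using pick
  set S : ℕ → Set E := fun n => Nat.rec {0}
    (fun _ S => (fun s => s + p S) '' S ∪ (fun s => s - p S) '' S) n with hS
  set e : ℕ → E := fun n => p (S n) with he
  have hSs : ∀ n, S (n + 1) = (fun s => s + e n) '' S n ∪ (fun s => s - e n) '' S n := fun n => rfl
  have hS0 : S 0 = {0} := rfl
  have hprop : ∀ n, (S n).Finite ∧ (S n).Nonempty ∧ S n ⊆ C := by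
    intro n
    induction n with
    | zero =>
      refine ⟨finite_singleton _, singleton_nonempty _, ?_⟩
      rintro _ rfl i
      simp
    | succ n ih =>
      rw [hSs]
      refine ⟨(ih.1.image _).union (ih.1.image _), (ih.2.1.image _).inl, ?_⟩
      have := (hp (S n) ih.2.1 ih.2.2).1
      rintro _ (⟨s, hs, rfl⟩ | ⟨s, hs, rfl⟩)
      · exact (this s hs).1
      · exact (this s hs).2
  have hblock : ∀ m j, ∀ t ∈ S (m + j), ∃ s ∈ S m, ∃ v, t = s + v ∧
      ∀ s' ∈ S m, s' + v ∈ S (m + j) ∧ s' - v ∈ S (m + j) := by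
    intro m j
    induction j with
    | zero => exact fun t ht => ⟨t, ht, 0, by simp, fun s' hs' => by simpa using hs'⟩
    | succ j ih =>
      intro t ht
      rw [← add_assoc, hSs] at ht ⊢
      rcases ht with ⟨t', ht', rfl⟩ | ⟨t', ht', rfl⟩
      · obtain ⟨s, hs, v, rfl, hv⟩ := ih t' ht'
        exact ⟨s, hs, v + e (m + j), by simp only; abel, fun s' hs' =>
          ⟨Or.inl ⟨_, (hv s' hs').1, by simp only; abel⟩,
            Or.inr ⟨_, (hv s' hs').2, by simp only; abel⟩⟩⟩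
      · obtain ⟨s, hs, v, rfl, hv⟩ := ih t' ht'
        exact ⟨s, hs, v - e (m + j), by simp only; abel, fun s' hs' =>
          ⟨Or.inr ⟨_, (hv s' hs').1, by simp only; abel⟩,
            Or.inl ⟨_, (hv s' hs').2, by simp only; abel⟩⟩⟩
  have hlow : ∃ δ : ℝ, 0 < δ ∧ ∀ m, δ ≤ ‖e m‖ := by
    by_contra hcon
    push Not at hcon
    have htb : TotallyBounded (⋃ n, S n) := by
      rw [Metric.totallyBounded_iff]
      intro ε hε
      obtain ⟨m, hm⟩ := hcon (ε / 2) (by positivity)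
      refine ⟨⋃ n ∈ Iic m, S n, (finite_Iic m).biUnion fun n _ => (hprop n).1, ?_⟩
      intro t ht
      obtain ⟨n, hn⟩ := mem_iUnion.1 ht
      rcases le_total n m with h | h
      · exact mem_iUnion₂.2 ⟨t, mem_iUnion₂.2 ⟨n, h, hn⟩, mem_ball_self hε⟩
      · obtain ⟨j, rfl⟩ := Nat.exists_eq_add_of_le h
        obtain ⟨s, hs, v, rfl, hv⟩ := hblock m j t hn
        have h1 := (hp (S m) (hprop m).2.1 (hprop m).2.2).2 v fun s' hs' =>
          ⟨(hprop _).2.2 (hv s' hs').1, (hprop _).2.2 (hv s' hs').2⟩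
        refine mem_iUnion₂.2 ⟨s, mem_iUnion₂.2 ⟨m, mem_Iic.2 le_rfl, hs⟩, ?_⟩
        rw [mem_ball, dist_eq_norm, add_sub_cancel_left]
        have : ‖p (S m)‖ = ‖e m‖ := rfl
        linarith
    have hcpt : IsCompact (closure (⋃ n, S n)) :=
      htb.closure.isCompact_of_isClosed isClosed_closure
    have hsub : closure (⋃ n, S n) ⊆ C :=
      closure_minimal (iUnion_subset fun n => (hprop n).2.2) hCcl
    obtain ⟨x, hx, hmax⟩ := hcpt.exists_isMaxOn
      ⟨0, subset_closure (mem_iUnion.2 ⟨0, rfl⟩)⟩ continuous_norm.continuousOn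
    have hθ := hClt x (hsub hx)
    set δ : ℝ := (1 - ‖x‖) / 2 with hδ
    have hδ0 : 0 < δ := by rw [hδ]; linarith
    obtain ⟨I, hI⟩ := exists_tseq_le hδ0
    obtain ⟨h, hh1, hh2⟩ := exists_ker hinf b I hδ0
    obtain ⟨m, hm⟩ := hcon (δ / 2) (by positivity)
    have key : ∀ s ∈ S m, ∀ h' : E, ‖h'‖ = δ → (∀ i < I, b i h' = 0) → s + h' ∈ C := by
      intro s hs h' h1 h2 i
      rcases lt_or_ge i I with hi | hi
      · rw [map_add, h2 i hi, add_zero]
        exact (hprop m).2.2 hs i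
      · have h3 : ‖s‖ ≤ ‖x‖ := hmax (subset_closure (mem_iUnion.2 ⟨m, hs⟩))
        have h4 := le_norm_of (hb1 i) (s + h')
        have h5 := norm_add_le s h'
        have h6 := hI i hi
        have h7 := tseq_pos i
        have h8 : b i (s + h') ≤ 1 - δ := by linarith
        have h9 : (1 + 1 / ((i : ℝ) + 1)) * b i (s + h') ≤ (1 + 1 / ((i : ℝ) + 1)) * (1 - δ) := by
          gcongr
        nlinarith [norm_nonneg x]
    have h1 := (hp (S m) (hprop m).2.1 (hprop m).2.2).2 h fun s hs =>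
      ⟨key s hs h hh1 hh2, by
        rw [sub_eq_add_neg]
        exact key s hs (-h) (by rw [norm_neg, hh1]) fun i hi => by simp [hh2 i hi]⟩
    have : ‖p (S m)‖ = ‖e m‖ := rfl
    linarith
  obtain ⟨δ, hδ, hδe⟩ := hlow
  refine ⟨δ, hδ, e, hδe, fun f n => ?_⟩
  have key : ∀ n, ∃ s ∈ S n, f s = ∑ k ∈ Finset.range n, |f (e k)| := by
    intro n
    induction n with
    | zero => exact ⟨0, rfl, by simp⟩
    | succ n ih =>
      obtain ⟨s, hs, hfs⟩ := ih
      rw [Finset.sum_range_succ, hSs]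
      rcases le_total 0 (f (e n)) with h | h
      · exact ⟨s + e n, Or.inl ⟨s, hs, rfl⟩, by rw [map_add, hfs, abs_of_nonneg h]⟩
      · exact ⟨s - e n, Or.inr ⟨s, hs, rfl⟩, by rw [map_sub, hfs, abs_of_nonpos h]; ring⟩
  obtain ⟨s, hs, hfs⟩ := key n
  have h1 := f.le_opNorm s
  have h2 : ‖f‖ * ‖s‖ ≤ ‖f‖ * 1 := by gcongr; exact (hClt s ((hprop n).2.2 hs)).le
  rw [Real.norm_eq_abs] at h1
  linarith [le_abs_self (f s)]

theorem c0_seq [CompleteSpace E] (hE : PL E) (hinf : ¬ FiniteDimensional ℝ E) :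
    ∃ c : ℝ, 0 < c ∧ ∃ u : ℕ → E, (∀ k, c ≤ ‖u k‖) ∧
      ∀ (f : StrongDual ℝ E) (n : ℕ), ∑ k ∈ Finset.range n, |f (u k)| ≤ ‖f‖ := by
  set B := Module.Basis.ofVectorSpace ℝ E with hB
  have hI : Infinite (Module.Basis.ofVectorSpaceIndex ℝ E) := by
    by_contra h
    rw [not_infinite_iff_finite] at h
    exact hinf (Module.Finite.of_basis B)
  set v : ℕ → E := fun n => B (Infinite.natEmbedding _ n) with hv
  have hli : LinearIndependent ℝ v := B.linearIndependent.comp _ (Infinite.natEmbedding _).injective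
  set W := (Submodule.span ℝ (range v)).topologicalClosure with hW
  have hWc : IsClosed (W : Set E) := Submodule.isClosed_topologicalClosure _
  have : CompleteSpace W := hWc.completeSpace_coe
  have : TopologicalSpace.SeparableSpace W := by
    have h1 : TopologicalSpace.IsSeparable (W : Set E) := by
      rw [hW, Submodule.topologicalClosure_coe]
      exact ((countable_range v).isSeparable.span (R := ℝ)).closure
    exact h1.separableSpace
  have hvW : ∀ n, v n ∈ W := fun n =>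
    Submodule.le_topologicalClosure _ (Submodule.subset_span ⟨n, rfl⟩)
  have hinfW : ¬ FiniteDimensional ℝ W := by
    intro h
    have h1 : LinearIndependent ℝ fun n => (⟨v n, hvW n⟩ : W) :=
      LinearIndependent.of_comp W.subtype hli
    exact not_finite_iff_infinite.2 inferInstance h1.finite
  obtain ⟨c, hc, u, hu1, hu2⟩ := c0_sep (hE.submodule W) hinfW
  refine ⟨c, hc, fun k => u k, hu1, fun f n => (hu2 (f.comp W.subtypeL) n).trans ?_⟩
  refine ContinuousLinearMap.opNorm_le_bound _ (norm_nonneg _) fun x => ?_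
  exact f.le_opNorm (x : E)

lemma exists_ultra_limit (ψ : ℕ → StrongDual ℝ E) (hψ : ∀ k, ‖ψ k‖ ≤ 1) (U : Ultrafilter ℕ) :
    ∃ g : StrongDual ℝ E, ‖g‖ ≤ 1 ∧ ∀ z, Tendsto (fun k => ψ k z) U (𝓝 (g z)) := by
  obtain ⟨x, hx, hle⟩ := (WeakDual.isCompact_closedBall (0 : StrongDual ℝ E) 1).ultrafilter_le_nhds
    (U.map fun k => StrongDual.toWeakDual (ψ k)) (by
      rw [le_principal_iff, Ultrafilter.coe_map, mem_map]
      exact Eventually.of_forall fun k => by simpa using hψ k)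
  refine ⟨WeakDual.toStrongDual x, by simpa using hx, fun z => ?_⟩
  exact ((WeakDual.eval_continuous z).tendsto x).comp hle

lemma osc_step [CompleteSpace E] (hE : PL E) (ψ : ℕ → StrongDual ℝ E) (hψ : ∀ k, ‖ψ k‖ ≤ 1)
    {ε : ℝ} (hε : 0 < ε) (M : Set ℕ) (hM : M.Infinite) : ∃ M' ⊆ M, M'.Infinite ∧
      ∀ z : E, ‖z‖ ≤ 1 → ∀ r : ℝ,
        ¬ ({k ∈ M' | ψ k z ≤ r}.Infinite ∧ {k ∈ M' | r + ε ≤ ψ k z}.Infinite) := by
  classical
  by_contra hcon
  push Not at hcon
  have H : ∀ s : {M' : Set ℕ // M' ⊆ M ∧ M'.Infinite}, ∃ z : E, ‖z‖ ≤ 1 ∧ ∃ r : ℝ,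
      {k ∈ s.1 | ψ k z ≤ r}.Infinite ∧ {k ∈ s.1 | r + ε ≤ ψ k z}.Infinite :=
    fun s => hcon s.1 s.2.1 s.2.2
  choose z hz r hr1 hr2 using H
  set child : {M' : Set ℕ // M' ⊆ M ∧ M'.Infinite} → Bool → {M' : Set ℕ // M' ⊆ M ∧ M'.Infinite} :=
    fun s b => match b with
      | false => ⟨{k ∈ s.1 | ψ k (z s) ≤ r s}, fun k hk => s.2.1 hk.1, hr1 s⟩
      | true => ⟨{k ∈ s.1 | r s + ε ≤ ψ k (z s)}, fun k hk => s.2.1 hk.1, hr2 s⟩ with hchild
  have hsub : ∀ s b, (child s b).1 ⊆ s.1 := fun s b => by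
    cases b <;> exact fun k hk => hk.1
  set node : List Bool → {M' : Set ℕ // M' ⊆ M ∧ M'.Infinite} :=
    fun l => l.foldr (fun b s => child s b) ⟨M, Subset.rfl, hM⟩ with hnode
  set path : (ℕ → Bool) → ℕ → List Bool := fun β n => Nat.rec [] (fun n l => β n :: l) n with hpath
  have hstep : ∀ β n, node (path β (n + 1)) = child (node (path β n)) (β n) := fun β n => rfl
  have hanti : ∀ β, Antitone fun n => (node (path β n)).1 := fun β =>
    antitone_nat_of_succ_le fun n => by rw [hstep]; exact hsub _ _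
  have hU : ∀ β : ℕ → Bool, ∃ U : Ultrafilter ℕ, ∀ n, (node (path β n)).1 ∈ U := by
    intro β
    have hne : (⨅ n, 𝓟 (node (path β n)).1).NeBot := by
      refine iInf_neBot_of_directed ?_ fun n => principal_neBot_iff.2 (node _).2.2.nonempty
      intro a b
      exact ⟨max a b, principal_mono.2 (hanti β (le_max_left a b)),
        principal_mono.2 (hanti β (le_max_right a b))⟩
    obtain ⟨U, hU⟩ := Ultrafilter.exists_le (⨅ n, 𝓟 (node (path β n)).1)
    exact ⟨U, fun n => le_principal_iff.1 (hU.trans (iInf_le _ n))⟩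
  choose U hU using hU
  choose g hg1 hg2 using fun β => exists_ultra_limit ψ hψ (U β)
  set W := (Submodule.span ℝ (range fun l => z (node l))).topologicalClosure with hW
  have hWc : IsClosed (W : Set E) := Submodule.isClosed_topologicalClosure _
  have : CompleteSpace W := hWc.completeSpace_coe
  have : TopologicalSpace.SeparableSpace W := by
    have h1 : TopologicalSpace.IsSeparable (W : Set E) := by
      rw [hW, Submodule.topologicalClosure_coe]
      exact ((countable_range _).isSeparable.span (R := ℝ)).closure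
    exact h1.separableSpace
  have hsep := separable_dual (hE.submodule W)
  have hzW : ∀ l, z (node l) ∈ W := fun l =>
    Submodule.le_topologicalClosure _ (Submodule.subset_span ⟨l, rfl⟩)
  have hdist : ∀ β β' : ℕ → Bool, ∀ n, path β n = path β' n → β n = false → β' n = true →
      ε ≤ ‖(g β').comp W.subtypeL - (g β).comp W.subtypeL‖ := by
    intro β β' n hp h1 h2
    have h3 : g β (z (node (path β n))) ≤ r (node (path β n)) := by
      refine le_of_tendsto (hg2 β _) (mem_of_superset (hU β (n + 1)) ?_)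
      rw [hstep, h1]
      exact fun k hk => hk.2
    have h4 : r (node (path β n)) + ε ≤ g β' (z (node (path β n))) := by
      refine ge_of_tendsto (hg2 β' _) (mem_of_superset (hU β' (n + 1)) ?_)
      rw [hstep, h2, ← hp]
      exact fun k hk => hk.2
    have h5 := ((g β').comp W.subtypeL - (g β).comp W.subtypeL).le_opNorm ⟨_, hzW (path β n)⟩
    have h6 : ‖(⟨_, hzW (path β n)⟩ : W)‖ ≤ 1 := hz _
    have h7 : ((g β').comp W.subtypeL - (g β).comp W.subtypeL) ⟨_, hzW (path β n)⟩ =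
      g β' (z (node (path β n))) - g β (z (node (path β n))) := rfl
    rw [h7, Real.norm_eq_abs] at h5
    have h8 := le_abs_self (g β' (z (node (path β n))) - g β (z (node (path β n))))
    nlinarith [norm_nonneg ((g β').comp W.subtypeL - (g β).comp W.subtypeL)]
  have hcount : Countable (ℕ → Bool) := by
    refine Pairwise.countable_of_isOpen_disjoint
      (s := fun β => ball ((g β).comp W.subtypeL) (ε / 2)) ?_ (fun _ => isOpen_ball)
      (fun _ => nonempty_ball.2 (by positivity))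
    intro β β' hne
    have hex : ∃ n, β n ≠ β' n := Function.ne_iff.1 hne
    have hp : ∀ m ≤ Nat.find hex, path β m = path β' m := by
      intro m hm
      induction m with
      | zero => rfl
      | succ m ih =>
        have h1 : β m = β' m := by
          by_contra h
          exact Nat.find_min hex (Nat.lt_of_succ_le hm) h
        show β m :: path β m = β' m :: path β' m
        rw [h1, ih (Nat.le_of_succ_le hm)]
    have h0 := Nat.find_spec hex
    refine Metric.ball_disjoint_ball ?_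
    rw [add_halves]
    refine le_of_le_of_eq ?_ (dist_eq_norm ((g β).comp W.subtypeL) ((g β').comp W.subtypeL)).symm
    cases h1 : β (Nat.find hex) <;> cases h2 : β' (Nat.find hex)
    · exact absurd (h1.trans h2.symm) h0
    · exact le_of_le_of_eq (hdist β β' _ (hp _ le_rfl) h1 h2)
        (norm_sub_rev ((g β').comp W.subtypeL) ((g β).comp W.subtypeL))
    · exact hdist β' β _ (hp _ le_rfl).symm h2 h1
    · exact absurd (h1.trans h2.symm) h0
  obtain ⟨F, hF⟩ := exists_surjective_nat (ℕ → Bool)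
  obtain ⟨n, hn⟩ := hF fun n => !(F n n)
  have := congrFun hn n
  simp at this

theorem weak_star_subseq [CompleteSpace E] (hE : PL E) (ψ : ℕ → StrongDual ℝ E)
    (hψ : ∀ k, ‖ψ k‖ ≤ 1) : ∃ n : ℕ → ℕ, StrictMono n ∧ ∃ g : StrongDual ℝ E, ‖g‖ ≤ 1 ∧
      ∀ z, Tendsto (fun k => ψ (n k) z) atTop (𝓝 (g z)) := by
  have H : ∀ (j : ℕ) (s : {M : Set ℕ // M.Infinite}), ∃ s' : {M : Set ℕ // M.Infinite},
      s'.1 ⊆ s.1 ∧ ∀ z : E, ‖z‖ ≤ 1 → ∀ r : ℝ, ¬ ({k ∈ s'.1 | ψ k z ≤ r}.Infinite ∧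
        {k ∈ s'.1 | r + 1 / ((j : ℝ) + 1) ≤ ψ k z}.Infinite) := by
    intro j s
    obtain ⟨M', h1, h2, h3⟩ := osc_step hE ψ hψ (tseq_pos j) s.1 s.2
    exact ⟨⟨M', h2⟩, h1, h3⟩
  choose nxt h1 h2 using H
  set M : ℕ → {M : Set ℕ // M.Infinite} := fun j => Nat.rec ⟨univ, infinite_univ⟩ nxt j with hM
  have hMs : ∀ j, M (j + 1) = nxt j (M j) := fun j => rfl
  have hanti : Antitone fun j => (M j).1 := antitone_nat_of_succ_le fun j => h1 j (M j)
  obtain ⟨n, hn1, hn2⟩ := extraction_forall_of_frequently (P := fun j k => k ∈ (M (j + 1)).1)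
    fun j => Nat.frequently_atTop_iff_infinite.2 (M (j + 1)).2
  obtain ⟨U, hU⟩ := Ultrafilter.exists_le (atTop : Filter ℕ)
  obtain ⟨g, hg1, hg2⟩ := exists_ultra_limit (fun k => ψ (n k)) (fun k => hψ _) U
  have hinf : ∀ (J : ℕ) (P : ℕ → Prop), (∃ᶠ k in atTop, P (n k)) →
      {k ∈ (M (J + 1)).1 | P k}.Infinite := by
    intro J P hP
    have h3 := Nat.frequently_atTop_iff_infinite.1 (hP.and_eventually (eventually_ge_atTop J))
    refine (h3.image hn1.injective.injOn).mono ?_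
    rintro _ ⟨k, hk, rfl⟩
    exact ⟨hanti (Nat.succ_le_succ hk.2) (hn2 k), hk.1⟩
  have one : ∀ z : E, ‖z‖ ≤ 1 → Tendsto (fun k => ψ (n k) z) atTop (𝓝 (g z)) := by
    intro z hz
    rw [tendsto_order]
    constructor
    · intro a ha
      by_contra hcon
      rw [not_eventually] at hcon
      obtain ⟨J, hJ⟩ := exists_tseq_le (show 0 < (g z - a) / 2 by linarith)
      have h3 : ∃ᶠ k in atTop, a + 1 / ((J : ℝ) + 1) ≤ ψ (n k) z :=
        ((hg2 z).eventually (le_mem_nhds (by linarith [hJ J le_rfl]))).frequently.filter_mono hU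
      exact h2 J (M J) z hz a ⟨hinf J (fun k => ψ k z ≤ a) (hcon.mono fun k hk => not_lt.1 hk),
        hinf J (fun k => a + 1 / ((J : ℝ) + 1) ≤ ψ k z) h3⟩
    · intro a ha
      by_contra hcon
      rw [not_eventually] at hcon
      obtain ⟨J, hJ⟩ := exists_tseq_le (show 0 < (a - g z) / 2 by linarith)
      have h3 : ∃ᶠ k in atTop, ψ (n k) z ≤ a - 1 / ((J : ℝ) + 1) :=
        ((hg2 z).eventually (ge_mem_nhds (by linarith [hJ J le_rfl]))).frequently.filter_mono hU
      exact h2 J (M J) z hz (a - 1 / ((J : ℝ) + 1))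
        ⟨hinf J (fun k => ψ k z ≤ a - 1 / ((J : ℝ) + 1)) h3,
          hinf J (fun k => a - 1 / ((J : ℝ) + 1) + 1 / ((J : ℝ) + 1) ≤ ψ k z)
            (hcon.mono fun k hk => by linarith [not_lt.1 hk])⟩
  refine ⟨n, hn1, g, hg1, fun z => ?_⟩
  have h3 := (one ((‖z‖ + 1)⁻¹ • z) (by
    rw [norm_smul, norm_inv, Real.norm_of_nonneg (by positivity), inv_mul_le_one₀ (by positivity)]
    linarith)).const_mul (‖z‖ + 1)
  have h4 : ‖z‖ + 1 ≠ 0 := by positivity
  simpa [← mul_assoc, mul_inv_cancel₀ h4] using h3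

end Pool.Agent.H99Z.Poly
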