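import Pool.Agent.H99Z.PolyE

set_option autoImplicit false

/-! A complemented copy of `c₀` in an infinite-dimensional polyhedral Banach space. -/

namespace Pool.Agent.H99Z.Poly

open Set Metric Filter Topology

lemma rec_choice {J α : Type*} [Nonempty α] [LinearOrder J] [WellFoundedLT J] (A : J → α → Prop)
    (R : α → α → Prop)
    (h : ∀ (i : J) (F : Iio i → α), (∀ j : Iio i, A j (F j)) →
      (∀ j j' : Iio i, j < j' → R (F j) (F j')) → ∃ a, A i a ∧ ∀ j, R (F j) a) :
    ∃ F : J → α, (∀ i, A i (F i)) ∧ ∀ j i, j < i → R (F j) (F i) := by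
  classical
  have hG : ∀ (i : J) (F : Iio i → α), ∃ a, (∃ a, A i a ∧ ∀ j, R (F j) a) →
      A i a ∧ ∀ j, R (F j) a := by
    intro i F
    by_cases h' : ∃ a, A i a ∧ ∀ j, R (F j) a
    · obtain ⟨a, ha⟩ := h'
      exact ⟨a, fun _ => ha⟩
    · exact ⟨Classical.arbitrary α, fun h'' => absurd h'' h'⟩
  choose G hG using hG
  set F : J → α := (wellFounded_lt (α := J)).fix
    (fun i (f : ∀ j, j < i → α) => G i fun j => f j j.2) with hF
  have hFe : ∀ i, F i = G i fun j => F j := fun i => WellFounded.fix_eq _ _ _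
  have key : ∀ i, A i (F i) ∧ ∀ j, j < i → R (F j) (F i) := by
    intro i
    induction i using WellFoundedLT.induction with
    | ind i ih =>
      have := hG i (fun j => F j) (h i (fun j => F j) (fun j => (ih j j.2).1)
        fun j j' hjj' => (ih j' j'.2).2 j hjj')
      rw [← hFe i] at this
      exact ⟨this.1, fun j hj => this.2 ⟨j, hj⟩⟩
  exact ⟨F, fun i => (key i).1, fun j i hji => (key i).2 j hji⟩

variable {E : Type*} [NormedAddCommGroup E] [NormedSpace ℝ E]

theorem exists_biorth [CompleteSpace E] (hE : PL E) (hinf : ¬ FiniteDimensional ℝ E) :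
    ∃ (e : ℕ → E) (φ : ℕ → StrongDual ℝ E) (M K : ℝ),
      (∀ i j, φ i (e j) = if i = j then 1 else 0) ∧ (∀ i, ‖φ i‖ ≤ M) ∧
      (∀ z, Tendsto (fun k => φ k z) atTop (𝓝 0)) ∧
      ∀ (f : StrongDual ℝ E) (t : Finset ℕ), ∑ k ∈ t, |f (e k)| ≤ K * ‖f‖ := by
  classical
  obtain ⟨c, hc, u, hu1, hu2⟩ := c0_seq hE hinf
  have hu3 : ∀ (f : StrongDual ℝ E) (t : Finset ℕ), ∑ k ∈ t, |f (u k)| ≤ ‖f‖ := by
    intro f t
    obtain ⟨n, hn⟩ := t.exists_nat_subset_range
    exact (Finset.sum_le_sum_of_subset_of_nonneg hn fun _ _ _ => abs_nonneg _).trans (hu2 f n)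
  have hu4 : ∀ f : StrongDual ℝ E, Tendsto (fun k => f (u k)) atTop (𝓝 0) := fun f =>
    (Summable.of_abs (summable_of_sum_range_le (fun _ => abs_nonneg _) (hu2 f))).tendsto_atTop_zero
  choose ψ hψ1 hψ2 using fun k => exists_norming (u k)
  obtain ⟨n, hn, g, hg1, hg2⟩ := weak_star_subseq hE ψ hψ1
  set u' : ℕ → E := fun k => u (n k) with hu'
  set φ : ℕ → StrongDual ℝ E := fun k => ψ (n k) - g with hφ
  have hφ1 : ∀ k, ‖φ k‖ ≤ 2 := fun k => by
    have := norm_sub_le (ψ (n k)) g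
    linarith [hψ1 (n k)]
  have hφ2 : ∀ z, Tendsto (fun k => φ k z) atTop (𝓝 0) := fun z => by
    have := (hg2 z).sub_const (g z)
    simpa [hφ] using this
  have hu5 : ∀ f : StrongDual ℝ E, Tendsto (fun k => f (u' k)) atTop (𝓝 0) := fun f =>
    (hu4 f).comp hn.tendsto_atTop
  obtain ⟨F, hF1, hF2⟩ := rec_choice (J := ℕ) (α := ℕ × E × StrongDual ℝ E)
    (fun k a => ‖a.2.1 - u' a.1‖ ≤ (1 / 2) ^ k ∧ a.2.2 a.2.1 = 1 ∧
      ∃ d : ℝ, c / 2 ≤ d ∧ ‖d • a.2.2 - φ a.1‖ ≤ (1 / 2) ^ k)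
    (fun a b => a.1 < b.1 ∧ a.2.2 b.2.1 = 0 ∧ b.2.2 a.2.1 = 0) (by
      intro i F hA hR
      have : Fintype (Iio i) := inferInstance
      have hδ : ∀ j l : Iio i, (F j).2.2 (F l).2.1 = if j = l then 1 else 0 := by
        intro j l
        rcases lt_trichotomy j l with h | h | h
        · rw [if_neg h.ne]; exact (hR j l h).2.1
        · subst h; rw [if_pos rfl]; exact (hA j).2.1
        · rw [if_neg h.ne']; exact (hR l j h).2.2
      have ha : Tendsto (fun m => ∑ j : Iio i, (F j).2.2 (u' m) • (F j).2.1) atTop (𝓝 0) := by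
        have := tendsto_finset_sum (Finset.univ : Finset (Iio i))
          fun j _ => (hu5 (F j).2.2).smul_const (F j).2.1
        simpa using this
      have hb : Tendsto (fun m => ∑ j : Iio i, φ m (F j).2.1 • (F j).2.2) atTop (𝓝 0) := by
        have := tendsto_finset_sum (Finset.univ : Finset (Iio i))
          fun j _ => (hφ2 (F j).2.1).smul_const (F j).2.2
        simpa using this
      have hp : (0 : ℝ) < (1 / 2) ^ i := by positivity
      have e1 := ha.norm.eventually (ge_mem_nhds (show ‖(0 : E)‖ < (1 / 2) ^ i by simpa using hp))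
      have e2 := ha.norm.eventually (ge_mem_nhds (show ‖(0 : E)‖ < c / 8 by simpa using hc))
      have e3 := hb.norm.eventually
        (ge_mem_nhds (show ‖(0 : StrongDual ℝ E)‖ < (1 / 2) ^ i by simpa using hp))
      have e4 := (hu5 g).eventually (ge_mem_nhds (show (0 : ℝ) < c / 4 by positivity))
      have e5 : ∀ᶠ m in atTop, ∀ j : Iio i, (F j).1 < m :=
        eventually_all.2 fun j => eventually_gt_atTop _
      obtain ⟨m, ⟨⟨⟨h1, h2⟩, h3⟩, h4⟩, h5⟩ := ((((e1.and e2).and e3).and e4).and e5).exists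
      set a := ∑ j : Iio i, (F j).2.2 (u' m) • (F j).2.1 with ha'
      set b := ∑ j : Iio i, φ m (F j).2.1 • (F j).2.2 with hb'
      have h6 : ∀ j, (F j).2.2 (u' m - a) = 0 := by
        intro j
        rw [map_sub, ha', map_sum]
        simp [hδ]
      have h7 : ∀ j, (φ m - b) (F j).2.1 = 0 := by
        intro j
        rw [sub_apply, hb', sum_apply]
        simp [hδ]
      have h8 : b (u' m - a) = 0 := by
        rw [hb', sum_apply]
        simp only [smul_apply, h6, smul_zero, Finset.sum_const_zero]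
      have h9 : c / 2 ≤ (φ m - b) (u' m - a) := by
        rw [sub_apply, h8, sub_zero, map_sub]
        have h10 : φ m (u' m) = ‖u (n m)‖ - g (u' m) := by
          rw [← hψ2]; rfl
        have h11 := (φ m).le_opNorm a
        have h12 : ‖φ m‖ * ‖a‖ ≤ 2 * (c / 8) := by gcongr; exact hφ1 m
        rw [Real.norm_eq_abs] at h11
        linarith [hu1 (n m), le_abs_self (φ m a)]
      set d := (φ m - b) (u' m - a) with hd
      have hd0 : d ≠ 0 := by linarith
      refine ⟨(m, u' m - a, d⁻¹ • (φ m - b)), ⟨by simpa using h1, ?_, d, h9, ?_⟩,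
        fun j => ⟨h5 j, h6 j, ?_⟩⟩
      · show (d⁻¹ • (φ m - b)) (u' m - a) = 1
        rw [smul_apply, smul_eq_mul, ← hd, inv_mul_cancel₀ hd0]
      · show ‖d • d⁻¹ • (φ m - b) - φ m‖ ≤ _
        rw [smul_smul, mul_inv_cancel₀ hd0, one_smul]
        simpa using h3
      · show (d⁻¹ • (φ m - b)) (F j).2.1 = 0
        rw [smul_apply, h7, smul_zero])
  have hmono : StrictMono fun k => (F k).1 := fun j i h => (hF2 j i h).1
  choose d hd1 hd2 using fun k => (hF1 k).2.2
  have hd0 : ∀ k, 0 < d k := fun k => by linarith [hd1 k]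
  have hpow : ∀ k : ℕ, (1 / 2 : ℝ) ^ k ≤ 1 := fun k => pow_le_one₀ (by norm_num) (by norm_num)
  refine ⟨fun k => (F k).2.1, fun k => (F k).2.2, 6 / c, 3, ?_, ?_, ?_, ?_⟩
  · intro i j
    rcases lt_trichotomy i j with h | h | h
    · rw [if_neg h.ne]; exact (hF2 i j h).2.1
    · subst h; rw [if_pos rfl]; exact (hF1 i).2.1
    · rw [if_neg h.ne']; exact (hF2 j i h).2.2
  · intro k
    have h1 := norm_add_le (d k • (F k).2.2 - φ (F k).1) (φ (F k).1)
    rw [sub_add_cancel, norm_smul, Real.norm_of_nonneg (hd0 k).le] at h1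
    rw [le_div_iff₀ hc]
    nlinarith [hd2 k, hφ1 (F k).1, hpow k, hd1 k, norm_nonneg (F k).2.2]
  · intro z
    have h1 : Tendsto (fun k => 2 / c * (|φ (F k).1 z| + (1 / 2) ^ k * ‖z‖)) atTop (𝓝 0) := by
      have h2 := ((hφ2 z).comp hmono.tendsto_atTop).abs
      have h3 := (tendsto_pow_atTop_nhds_zero_of_lt_one (show (0 : ℝ) ≤ 1 / 2 by norm_num)
        (by norm_num)).mul_const ‖z‖
      simpa using (h2.add h3).const_mul (2 / c)
    refine squeeze_zero_norm (fun k => ?_) h1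
    have h2 := (d k • (F k).2.2 - φ (F k).1).le_opNorm z
    have h3 : ‖d k • (F k).2.2 - φ (F k).1‖ * ‖z‖ ≤ (1 / 2) ^ k * ‖z‖ := by gcongr; exact hd2 k
    rw [sub_apply, smul_apply, smul_eq_mul, Real.norm_eq_abs] at h2
    have h4 := abs_add_le (d k * (F k).2.2 z - φ (F k).1 z) (φ (F k).1 z)
    rw [sub_add_cancel, abs_mul, abs_of_pos (hd0 k)] at h4
    rw [Real.norm_eq_abs, div_mul_eq_mul_div, le_div_iff₀ hc]
    nlinarith [hd1 k, abs_nonneg ((F k).2.2 z)]
  · intro f t
    have h1 : ∀ k, |f (F k).2.1| ≤ |f (u (n (F k).1))| + ‖f‖ * (1 / 2) ^ k := by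
      intro k
      have h2 := f.le_opNorm ((F k).2.1 - u' (F k).1)
      have h3 : ‖f‖ * ‖(F k).2.1 - u' (F k).1‖ ≤ ‖f‖ * (1 / 2) ^ k := by gcongr; exact (hF1 k).1
      rw [map_sub, Real.norm_eq_abs] at h2
      have h4 := abs_add_le (f (F k).2.1 - f (u' (F k).1)) (f (u' (F k).1))
      rw [sub_add_cancel] at h4
      have : u' (F k).1 = u (n (F k).1) := rfl
      rw [this] at *
      linarith
    refine (Finset.sum_le_sum fun k _ => h1 k).trans ?_
    rw [Finset.sum_add_distrib, ← Finset.mul_sum]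
    have h2 : ∑ k ∈ t, |f (u (n (F k).1))| ≤ ‖f‖ := by
      have := hu3 f (t.image fun k => n (F k).1)
      rwa [Finset.sum_image (g := fun k => n (F k).1)
        fun a _ b _ h => (hn.comp hmono).injective h] at this
    have h3 : ∑ k ∈ t, (1 / 2 : ℝ) ^ k ≤ 2 := by
      have := summable_geometric_two.sum_le_tsum t fun _ _ => by positivity
      rwa [tsum_geometric_two] at this
    nlinarith [norm_nonneg f]

lemma norm_sum_le_of {e : ℕ → E} {K : ℝ}
    (h : ∀ (f : StrongDual ℝ E) (t : Finset ℕ), ∑ k ∈ t, |f (e k)| ≤ K * ‖f‖) (hK : 0 ≤ K)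
    (a : ℕ → ℝ) (t : Finset ℕ) {θ : ℝ} (hθ : 0 ≤ θ) (ha : ∀ k ∈ t, |a k| ≤ θ) :
    ‖∑ k ∈ t, a k • e k‖ ≤ K * θ := by
  obtain ⟨f, hf1, hf2⟩ := exists_norming (∑ k ∈ t, a k • e k)
  rw [← hf2, map_sum]
  have h1 : ∑ k ∈ t, f (a k • e k) ≤ ∑ k ∈ t, θ * |f (e k)| := by
    refine Finset.sum_le_sum fun k hk => ?_
    rw [map_smul, smul_eq_mul]
    refine (le_abs_self _).trans ?_
    rw [abs_mul]
    gcongr
    exact ha k hk
  rw [← Finset.mul_sum] at h1
  have h2 := h f t
  have h3 : K * ‖f‖ ≤ K * 1 := by gcongr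
  nlinarith

lemma summable_of_c0 [CompleteSpace E] {e : ℕ → E} {K : ℝ}
    (h : ∀ (f : StrongDual ℝ E) (t : Finset ℕ), ∑ k ∈ t, |f (e k)| ≤ K * ‖f‖) (hK : 0 ≤ K)
    (a : ℕ → ℝ) (ha : Tendsto a atTop (𝓝 0)) : Summable fun k => a k • e k := by
  rw [summable_iff_vanishing_norm]
  intro ε hε
  have h1 := ha.abs.eventually (ge_mem_nhds (show |(0 : ℝ)| < ε / (K + 1) by
    rw [abs_zero]; positivity))
  obtain ⟨N, hN⟩ := eventually_atTop.1 h1
  refine ⟨Finset.range N, fun t ht => ?_⟩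
  have h2 := norm_sum_le_of h hK a t (show 0 ≤ ε / (K + 1) by positivity) fun k hk =>
    hN k (by
      by_contra hlt
      exact Finset.disjoint_left.1 ht hk (Finset.mem_range.2 (not_le.1 hlt)))
  refine h2.trans_lt ?_
  rw [← mul_div_assoc, div_lt_iff₀ (by positivity)]
  nlinarith

theorem exists_split [CompleteSpace E] (hE : PL E) (hinf : ¬ FiniteDimensional ℝ E) :
    ∃ (e : ℕ → E) (φ : ℕ → StrongDual ℝ E) (P : E →L[ℝ] E) (M K : ℝ), 0 ≤ M ∧ 0 ≤ K ∧
      (∀ i j, φ i (e j) = if i = j then 1 else 0) ∧ (∀ i, ‖φ i‖ ≤ M) ∧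
      (∀ z, Tendsto (fun k => φ k z) atTop (𝓝 0)) ∧ (∀ j z, φ j (P z) = 0) ∧
      (∀ y, (∀ k, φ k y = 0) → P y = y) ∧ (∀ j, P (e j) = 0) ∧
      (∀ z θ, (∀ k, |φ k z| ≤ θ) → ‖z - P z‖ ≤ K * θ) ∧
      ¬ FiniteDimensional ℝ (⨅ k, LinearMap.ker (φ k : E →ₗ[ℝ] ℝ) : Submodule ℝ E) := by
  classical
  obtain ⟨e₀, φ₀, M, K₀, h1, h2, h3, h4⟩ := exists_biorth hE hinf
  set e : ℕ → E := fun k => e₀ (2 * k) with he
  set φ : ℕ → StrongDual ℝ E := fun k => φ₀ (2 * k) with hφ
  set K := max K₀ 0 with hKdef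
  have hK : 0 ≤ K := le_max_right _ _
  have hM : 0 ≤ M := (norm_nonneg _).trans (h2 0)
  have hinj : Function.Injective fun k : ℕ => 2 * k := fun a b h => by simpa using h
  have g1 : ∀ i j, φ i (e j) = if i = j then 1 else 0 := fun i j => by
    simp [hφ, he, h1]
  have g3 : ∀ z, Tendsto (fun k => φ k z) atTop (𝓝 0) := fun z =>
    (h3 z).comp (tendsto_atTop_mono (fun k => by simp only [id]; omega) tendsto_id)
  have g4 : ∀ (f : StrongDual ℝ E) (t : Finset ℕ), ∑ k ∈ t, |f (e k)| ≤ K * ‖f‖ := by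
    intro f t
    have := h4 f (t.image fun k => 2 * k)
    rw [Finset.sum_image fun a _ b _ h => hinj h] at this
    exact this.trans (by gcongr; exact le_max_left _ _)
  have hsum : ∀ z, Summable fun k => φ k z • e k := fun z => summable_of_c0 g4 hK _ (g3 z)
  have hbound : ∀ z θ, (∀ k, |φ k z| ≤ θ) → ‖∑' k, φ k z • e k‖ ≤ K * θ := by
    intro z θ hθ
    exact le_of_tendsto' (hsum z).hasSum.tendsto_sum_nat.norm fun N =>
      norm_sum_le_of g4 hK _ _ ((abs_nonneg _).trans (hθ 0)) fun k _ => hθ k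
  set S : E →ₗ[ℝ] E :=
    { toFun := fun z => ∑' k, φ k z • e k
      map_add' := fun x y => by
        rw [← (hsum x).tsum_add (hsum y)]
        simp only [map_add, add_smul]
      map_smul' := fun a x => by
        rw [RingHom.id_apply, ← (hsum x).tsum_const_smul a]
        simp only [map_smul, smul_eq_mul, mul_smul] } with hS
  set S' : E →L[ℝ] E := S.mkContinuous (K * M) fun z => by
    rw [mul_assoc]
    refine hbound z _ fun k => ?_
    have := (φ k).le_opNorm z
    rw [Real.norm_eq_abs] at this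
    exact this.trans (by gcongr; exact h2 _) with hS'
  have hS'a : ∀ z, S' z = ∑' k, φ k z • e k := fun z => rfl
  refine ⟨e, φ, ContinuousLinearMap.id ℝ E - S', M, K, hM, hK, g1, fun i => h2 _, g3, ?_, ?_, ?_,
    ?_, ?_⟩
  · intro j z
    rw [sub_apply, ContinuousLinearMap.id_apply, map_sub, hS'a, (φ j).map_tsum (hsum z),
      tsum_eq_single j]
    · simp [g1]
    · intro k hk
      simp [g1, hk.symm]
  · intro y hy
    simp [hS'a, hy]
  · intro j
    rw [sub_apply, ContinuousLinearMap.id_apply, hS'a, tsum_eq_single j]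
    · simp [g1]
    · intro k hk
      simp [g1, hk]
  · intro z θ hθ
    rw [sub_apply, ContinuousLinearMap.id_apply, sub_sub_cancel, hS'a]
    exact hbound z θ hθ
  · intro hfin
    have hmem : ∀ j, e₀ (2 * j + 1) ∈ (⨅ k, LinearMap.ker (φ k : E →ₗ[ℝ] ℝ) : Submodule ℝ E) := by
      intro j
      rw [Submodule.mem_iInf]
      intro k
      have : φ₀ (2 * k) (e₀ (2 * j + 1)) = 0 := by rw [h1, if_neg (by omega)]
      exact this
    have hli : LinearIndependent ℝ fun j => e₀ (2 * j + 1) := by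
      rw [linearIndependent_iff']
      intro s a hs i hi
      have := congrArg (φ₀ (2 * i + 1)) hs
      rw [map_sum, map_zero, Finset.sum_eq_single i] at this
      · simpa [h1] using this
      · intro b _ hb
        rw [map_smul, h1, if_neg (by omega), smul_zero]
      · intro h; exact absurd hi h
    have h5 : LinearIndependent ℝ fun j => (⟨e₀ (2 * j + 1), hmem j⟩ :
        (⨅ k, LinearMap.ker (φ k : E →ₗ[ℝ] ℝ) : Submodule ℝ E)) :=
      LinearIndependent.of_comp (Submodule.subtype _) hli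
    exact not_finite_iff_infinite.2 inferInstance h5.finite

end Pool.Agent.H99Z.Poly
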