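import Pool.Agent.H99Z.PolyF
import Pool.Agent.H99Z.PolyB

set_option autoImplicit false

/-! The model space `c₀ ⊕ Y` and the choice of the spikes. -/

namespace Pool.Agent.H99Z.Poly

open Set Metric Filter Topology Cardinal

universe u

/-- A space `G = c₀ ⊕ Y` with the norm `max ‖y‖ (‖y‖ / 2 + ‖a‖)`. -/
structure Model (G Y : Type u) [NormedAddCommGroup G] [NormedSpace ℝ G]
    [NormedAddCommGroup Y] [NormedSpace ℝ Y] where
  P : G →L[ℝ] Y
  ι : Y →L[ℝ] G
  φ : ℕ → StrongDual ℝ G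
  e : ℕ → G
  n1 : ∀ z, ‖P z‖ ≤ ‖z‖
  n2 : ∀ k z, ‖P z‖ / 2 + |φ k z| ≤ ‖z‖
  n3 : ∀ z θ, ‖P z‖ ≤ θ → (∀ k, ‖P z‖ / 2 + |φ k z| ≤ θ) → ‖z‖ ≤ θ
  Pι : ∀ y, P (ι y) = y
  φι : ∀ k y, φ k (ι y) = 0
  Pe : ∀ k, P (e k) = 0
  φe : ∀ i j, φ i (e j) = if i = j then 1 else 0
  lim : ∀ z, Tendsto (fun k => φ k z) atTop (𝓝 0)

variable {G Y : Type u} [NormedAddCommGroup G] [NormedSpace ℝ G]
  [NormedAddCommGroup Y] [NormedSpace ℝ Y]

lemma exists_bound_lt {ι : Type*} (s : Finset ι) (a : ι → ℝ) {b c : ℝ} (hc : c < b)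
    (ha : ∀ i ∈ s, a i < b) : ∃ θ, θ < b ∧ c ≤ θ ∧ ∀ i ∈ s, a i ≤ θ := by
  classical
  induction s using Finset.induction_on with
  | empty => exact ⟨c, hc, le_rfl, by simp⟩
  | insert j s hj ih =>
    obtain ⟨θ, h1, h2, h3⟩ := ih fun i hi => ha i (Finset.mem_insert_of_mem hi)
    refine ⟨max θ (a j), max_lt h1 (ha j (Finset.mem_insert_self _ _)), h2.trans (le_max_left _ _),
      fun i hi => ?_⟩
    rcases Finset.mem_insert.1 hi with rfl | hi
    · exact le_max_right _ _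
    · exact (h3 i hi).trans (le_max_left _ _)

lemma unif_small {φ : ℕ → StrongDual ℝ G} (h : ∀ z, Tendsto (fun k => φ k z) atTop (𝓝 0))
    (F : Submodule ℝ G) [FiniteDimensional ℝ F] {ε : ℝ} (hε : 0 < ε) :
    ∃ I, ∀ k ≥ I, ∀ z ∈ F, |φ k z| ≤ ε * ‖z‖ := by
  set b := Module.finBasis ℝ F with hb
  set c : Fin (Module.finrank ℝ F) → (F →L[ℝ] ℝ) := fun i => LinearMap.toContinuousLinearMap
    (b.coord i) with hc
  have h1 : Tendsto (fun k => ∑ i, ‖c i‖ * |φ k (b i)|) atTop (𝓝 0) := by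
    have := tendsto_finset_sum (Finset.univ : Finset (Fin (Module.finrank ℝ F)))
      fun i _ => (h (b i)).abs.const_mul ‖c i‖
    simpa using this
  obtain ⟨I, hI⟩ := eventually_atTop.1 (h1.eventually (ge_mem_nhds hε))
  refine ⟨I, fun k hk z hz => ?_⟩
  have h2 : z = ∑ i, c i ⟨z, hz⟩ • (b i : G) := by
    have := congrArg (fun x : F => (x : G)) (b.sum_repr ⟨z, hz⟩)
    simp only [AddSubmonoidClass.coe_finset_sum, SetLike.val_smul] at this
    exact this.symm
  have h3 : |φ k z| ≤ ∑ i, ‖c i‖ * |φ k (b i)| * ‖z‖ := by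
    conv_lhs => rw [h2, map_sum]
    refine (Finset.abs_sum_le_sum_abs _ _).trans (Finset.sum_le_sum fun i _ => ?_)
    rw [map_smul, smul_eq_mul, abs_mul]
    have h4 := (c i).le_opNorm ⟨z, hz⟩
    rw [Real.norm_eq_abs] at h4
    have h5 : ‖(⟨z, hz⟩ : F)‖ = ‖z‖ := rfl
    rw [h5] at h4
    nlinarith [abs_nonneg (φ k (b i))]
  rw [← Finset.sum_mul] at h3
  exact h3.trans (by gcongr; exact hI k hk)

namespace Model

variable (m : Model G Y)

lemma norm_ι (y : Y) : ‖m.ι y‖ = ‖y‖ := by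
  refine le_antisymm (m.n3 _ _ (by rw [m.Pι]) fun k => ?_) ?_
  · rw [m.Pι, m.φι, abs_zero]; linarith [norm_nonneg y]
  · simpa [m.Pι] using m.n1 (m.ι y)

lemma norm_e (k : ℕ) : ‖m.e k‖ ≤ 1 := by
  refine m.n3 _ _ (by simp [m.Pe]) fun j => ?_
  rw [m.Pe, m.φe]
  split_ifs <;> simp

lemma abs_φ_le (k : ℕ) (z : G) : |m.φ k z| ≤ ‖z‖ := by
  linarith [m.n2 k z, norm_nonneg (m.P z)]

/-- The face functional of level `n`. -/
noncomputable def face (n : ℕ) (f : StrongDual ℝ Y) : StrongDual ℝ G :=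
  m.φ n + (1 / 2 : ℝ) • f.comp m.P

lemma face_apply (n : ℕ) (f : StrongDual ℝ Y) (z : G) :
    m.face n f z = m.φ n z + f (m.P z) / 2 := by
  simp only [face, add_apply, smul_apply, ContinuousLinearMap.comp_apply, smul_eq_mul]
  ring

lemma norm_face (n : ℕ) {f : StrongDual ℝ Y} (hf : ‖f‖ ≤ 1) : ‖m.face n f‖ ≤ 1 := by
  refine norm_le_one_of fun z => ?_
  rw [face_apply]
  linarith [m.n2 n z, le_norm_of hf (m.P z), le_abs_self (m.φ n z)]

include m in
lemma polyH (hY : PolyH Y) : PolyH G := by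
  classical
  intro F hF
  obtain ⟨Γ, hΓ1, hΓ2⟩ := hY (F.map (m.P : G →ₗ[ℝ] Y)) inferInstance
  obtain ⟨I, hI⟩ := unif_small m.lim F (show (0 : ℝ) < 1 / 4 by norm_num)
  refine ⟨Γ.image (fun f => f.comp m.P) ∪ ((Γ ×ˢ Finset.range I).image (fun p => m.face p.2 p.1) ∪
    (Γ ×ˢ Finset.range I).image (fun p => -m.face p.2 (-p.1))), ?_, ?_⟩
  · intro g hg
    simp only [Finset.mem_union, Finset.mem_image, Finset.mem_product] at hg
    rcases hg with ⟨f, hf, rfl⟩ | ⟨p, hp, rfl⟩ | ⟨p, hp, rfl⟩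
    · exact norm_le_one_of fun z => (le_norm_of (hΓ1 f hf) (m.P z)).trans (m.n1 z)
    · exact m.norm_face _ (hΓ1 _ hp.1)
    · rw [norm_neg]; exact m.norm_face _ (by rw [norm_neg]; exact hΓ1 _ hp.1)
  · intro z hz
    obtain ⟨f, hf, hfz⟩ := hΓ2 (m.P z) ⟨z, hz, rfl⟩
    by_contra hcon
    push Not at hcon
    have h1 : ‖m.P z‖ < ‖z‖ := by
      refine lt_of_le_of_ne (m.n1 z) fun h => hcon (f.comp m.P) ?_ (by rw [← h, ← hfz]; rfl)
      exact Finset.mem_union_left _ (Finset.mem_image_of_mem _ hf)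
    have h2 : ∀ k ∈ Finset.range I, ‖m.P z‖ / 2 + |m.φ k z| < ‖z‖ := by
      intro k hk
      refine lt_of_le_of_ne (m.n2 k z) fun h => ?_
      rcases le_total 0 (m.φ k z) with h0 | h0
      · refine hcon (m.face k f) (Finset.mem_union_right _ (Finset.mem_union_left _
          (Finset.mem_image.2 ⟨(f, k), Finset.mem_product.2 ⟨hf, hk⟩, rfl⟩))) ?_
        rw [face_apply, hfz, ← h, abs_of_nonneg h0]; ring
      · refine hcon (-m.face k (-f)) (Finset.mem_union_right _ (Finset.mem_union_right _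
          (Finset.mem_image.2 ⟨(f, k), Finset.mem_product.2 ⟨hf, hk⟩, rfl⟩))) ?_
        rw [neg_apply, face_apply, neg_apply, hfz, ← h, abs_of_nonpos h0]; ring
    have h3 : max ‖m.P z‖ (‖m.P z‖ / 2 + 1 / 4 * ‖z‖) < ‖z‖ :=
      max_lt h1 (by linarith [norm_nonneg (m.P z)])
    obtain ⟨θ, h4, h5, h6⟩ := exists_bound_lt _ _ h3 h2
    have := m.n3 z θ ((le_max_left _ _).trans h5) fun k => by
      rcases lt_or_ge k I with hk | hk
      · exact h6 k (Finset.mem_range.2 hk)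
      · linarith [hI k hk z hz, (le_max_right _ _).trans h5]
    linarith

lemma norm_sum_e (a : ℕ → ℝ) (t : Finset ℕ) {θ : ℝ} (hθ : 0 ≤ θ) (ha : ∀ k ∈ t, |a k| ≤ θ) :
    ‖∑ k ∈ t, a k • m.e k‖ ≤ θ := by
  classical
  have h1 : m.P (∑ k ∈ t, a k • m.e k) = 0 := by simp [map_sum, m.Pe]
  refine m.n3 _ _ (by simpa [h1] using hθ) fun j => ?_
  rw [h1, map_sum]
  simp only [map_smul, m.φe, smul_eq_mul, mul_ite, mul_one, mul_zero, Finset.sum_ite_eq,
    norm_zero, zero_div, zero_add]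
  split_ifs with h
  · exact ha j h
  · simpa using hθ

lemma sum_abs_le (g : StrongDual ℝ G) (t : Finset ℕ) : ∑ k ∈ t, |g (m.e k)| ≤ ‖g‖ := by
  have h1 := m.norm_sum_e (fun k => SignType.sign (g (m.e k))) t zero_le_one fun k _ => by
    rcases lt_trichotomy (g (m.e k)) 0 with h | h | h <;> simp [h]
  have h2 := g.le_opNorm (∑ k ∈ t, (SignType.sign (g (m.e k)) : ℝ) • m.e k)
  have h3 : g (∑ k ∈ t, (SignType.sign (g (m.e k)) : ℝ) • m.e k) = ∑ k ∈ t, |g (m.e k)| := by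
    rw [map_sum]
    exact Finset.sum_congr rfl fun k _ => by rw [map_smul, smul_eq_mul, sign_mul_self]
  rw [h3, Real.norm_eq_abs] at h2
  have h4 : ‖g‖ * ‖∑ k ∈ t, (SignType.sign (g (m.e k)) : ℝ) • m.e k‖ ≤ ‖g‖ * 1 := by gcongr
  linarith [le_abs_self (∑ k ∈ t, |g (m.e k)|)]

lemma summable_abs (g : StrongDual ℝ G) : Summable fun k => |g (m.e k)| :=
  summable_of_sum_range_le (fun _ => abs_nonneg _) fun _ => m.sum_abs_le g _

lemma tendsto_e (g : StrongDual ℝ G) : Tendsto (fun k => |g (m.e k)|) atTop (𝓝 0) :=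
  (m.summable_abs g).tendsto_atTop_zero

lemma apply_eq (g : StrongDual ℝ G) (z : G) :
    Tendsto (fun N => g (m.ι (m.P z)) + ∑ k ∈ Finset.range N, m.φ k z * g (m.e k)) atTop
      (𝓝 (g z)) := by
  classical
  have h1 : Tendsto (fun N => m.ι (m.P z) + ∑ k ∈ Finset.range N, m.φ k z • m.e k) atTop (𝓝 z) := by
    rw [Metric.tendsto_atTop]
    intro ε hε
    obtain ⟨N, hN⟩ := eventually_atTop.1 ((m.lim z).abs.eventually
      (ge_mem_nhds (show |(0 : ℝ)| < ε / 2 by simpa using hε)))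
    refine ⟨N, fun n hn => ?_⟩
    rw [dist_eq_norm]
    have h2 : m.P (m.ι (m.P z) + ∑ k ∈ Finset.range n, m.φ k z • m.e k - z) = 0 := by
      simp [map_sum, m.Pe, m.Pι]
    refine lt_of_le_of_lt (m.n3 _ (ε / 2) (by rw [h2, norm_zero]; positivity) fun j => ?_)
      (by linarith)
    rw [h2, map_sub, map_add, map_sum, m.φι]
    simp only [map_smul, m.φe, smul_eq_mul, mul_ite, mul_one, mul_zero, Finset.sum_ite_eq,
      norm_zero, zero_div, zero_add, Finset.mem_range]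
    split_ifs with h
    · simp; positivity
    · simpa using hN j (by omega)
  have h2 := (g.continuous.tendsto z).comp h1
  refine h2.congr fun N => ?_
  simp [map_sum]

lemma dense_span {S : Set (StrongDual ℝ Y)} (hS : (Submodule.span ℝ S).topologicalClosure = ⊤) :
    Dense (Submodule.span ℝ ((fun f : StrongDual ℝ Y => f.comp m.P) '' S ∪ range m.φ) :
      Set (StrongDual ℝ G)) := by
  set T := (Submodule.span ℝ ((fun f : StrongDual ℝ Y => f.comp m.P) '' S ∪ range m.φ)) with hT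
  have h1 : ∀ γ : StrongDual ℝ Y, γ.comp m.P ∈ T.topologicalClosure := by
    intro γ
    have hγ : γ ∈ closure (Submodule.span ℝ S : Set (StrongDual ℝ Y)) := by
      rw [← Submodule.topologicalClosure_coe, hS]; trivial
    set L : StrongDual ℝ Y →L[ℝ] StrongDual ℝ G := (ContinuousLinearMap.compL ℝ G Y ℝ).flip m.P
      with hL
    have hLa : ∀ f, L f = f.comp m.P := fun f => rfl
    rw [← hLa]
    refine map_mem_closure L.continuous hγ fun f hf => ?_
    have : Submodule.span ℝ S ≤ T.comap (L : StrongDual ℝ Y →ₗ[ℝ] StrongDual ℝ G) :=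
      Submodule.span_le.2 fun f hf => Submodule.subset_span (Or.inl ⟨f, hf, rfl⟩)
    exact this hf
  rw [Submodule.dense_iff_topologicalClosure_eq_top, Submodule.eq_top_iff']
  intro g
  have h2 : ∀ N, (g.comp m.ι).comp m.P + ∑ k ∈ Finset.range N, g (m.e k) • m.φ k ∈
      T.topologicalClosure := fun N =>
    Submodule.add_mem _ (h1 _) (Submodule.sum_mem _ fun k _ => Submodule.smul_mem _ _
      (Submodule.le_topologicalClosure _ (Submodule.subset_span (Or.inr ⟨k, rfl⟩))))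
  refine (Submodule.isClosed_topologicalClosure T).mem_of_tendsto (b := atTop) ?_
    (Eventually.of_forall h2)
  rw [tendsto_iff_norm_sub_tendsto_zero]
  refine squeeze_zero (fun _ => norm_nonneg _) (fun N => ?_)
    (tendsto_sum_nat_add fun k => |g (m.e k)|)
  refine ContinuousLinearMap.opNorm_le_bound _ (tsum_nonneg fun _ => abs_nonneg _) fun z => ?_
  have h3 := ((m.apply_eq g z).comp (tendsto_add_atTop_nat N)).const_sub
    (g (m.ι (m.P z)) + ∑ k ∈ Finset.range N, m.φ k z * g (m.e k))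
  have h4 : ((g.comp m.ι).comp m.P + ∑ k ∈ Finset.range N, g (m.e k) • m.φ k - g) z =
      g (m.ι (m.P z)) + ∑ k ∈ Finset.range N, m.φ k z * g (m.e k) - g z := by
    simp [sum_apply, mul_comm]
  rw [h4]
  refine le_of_tendsto' h3.norm fun j => ?_
  simp only [Function.comp_apply]
  rw [add_comm j N, Finset.sum_range_add, ← add_assoc, sub_add_cancel_left, norm_neg]
  refine (norm_sum_le _ _).trans ?_
  have h5 : ∑ k ∈ Finset.range j, ‖m.φ (N + k) z * g (m.e (N + k))‖ ≤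
      ∑ k ∈ Finset.range j, |g (m.e (k + N))| * ‖z‖ := by
    refine Finset.sum_le_sum fun k _ => ?_
    rw [Real.norm_eq_abs, abs_mul, mul_comm, add_comm N k]
    gcongr
    exact m.abs_φ_le _ _
  refine h5.trans ?_
  rw [← Finset.sum_mul]
  gcongr
  exact ((summable_nat_add_iff N).2 (m.summable_abs g)).sum_le_tsum _ fun _ _ => abs_nonneg _

lemma candidate (n : ℕ) (g : StrongDual ℝ G) {η : ℝ} (hη : 0 < η) (hη1 : η ≤ 1 / 2) :
    ∃ (y₀ : Y) (r : ℝ), r - ‖y₀‖ = η / 2 ∧ r ≤ 1 ∧ ∀ f : StrongDual ℝ Y, TrueFace f →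
      (∃ h, (g.comp m.ι) h = 0 ∧ ‖y₀ + h‖ = r ∧ f (y₀ + h) = r) →
      ∃ u : G, ‖u‖ = 1 ∧ LocLin (m.face n f) u ∧
        ‖g‖ - 2 * η * ‖g‖ - η - 2 * |g (m.e n)| ≤ g u := by
  obtain ⟨z, hz1, hz2⟩ : ∃ z : G, ‖z‖ ≤ 1 ∧ ‖g‖ - η ≤ g z := by
    obtain ⟨x, hx1, hx2⟩ := g.exists_lt_apply_of_lt_opNorm (show ‖g‖ - η < ‖g‖ by linarith)
    rw [Real.norm_eq_abs] at hx2
    rcases le_total 0 (g x) with h | h
    · rw [abs_of_nonneg h] at hx2
      exact ⟨x, hx1.le, hx2.le⟩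
    · rw [abs_of_nonpos h] at hx2
      exact ⟨-x, by simpa using hx1.le, by simpa using hx2.le⟩
  set z₁ : G := (1 - η) • z with hz₁
  have hn1 : ‖z₁‖ ≤ 1 - η := by
    rw [hz₁, norm_smul, Real.norm_of_nonneg (by linarith)]
    nlinarith
  have hy1 : ‖m.P z₁‖ ≤ 1 - η := (m.n1 z₁).trans hn1
  have hy2 : ∀ k, ‖m.P z₁‖ / 2 + |m.φ k z₁| ≤ 1 - η := fun k => (m.n2 k z₁).trans hn1
  refine ⟨m.P z₁, ‖m.P z₁‖ + η / 2, by ring, by linarith, ?_⟩
  rintro f ⟨v, hv⟩ ⟨h, hh0, hh1, hh2⟩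
  obtain ⟨y'', hy3, hf, δ₁, hδ₁, hloc⟩ := hv.approx (hh2.trans hh1.symm)
    (show 0 < η / 8 by positivity)
  have hy4 : ‖y''‖ ≤ ‖m.P z₁‖ + η / 2 + η / 8 := by
    have := norm_add_le (y'' - (m.P z₁ + h)) (m.P z₁ + h)
    rw [sub_add_cancel] at this
    linarith
  set t : ℝ := 1 - ‖y''‖ / 2 with ht
  set u : G := z₁ - m.ι (m.P z₁) + m.ι y'' + (t - m.φ n z₁) • m.e n with hu
  have hPu : m.P u = y'' := by simp [hu, m.Pι, m.Pe]
  have hφn : m.φ n u = t := by simp [hu, m.φι, m.φe]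
  have hφk : ∀ k, k ≠ n → m.φ k u = m.φ k z₁ := fun k hk => by simp [hu, m.φι, m.φe, hk]
  have hLL : LocLin (m.face n f) u := by
    refine ⟨m.norm_face n hf, min δ₁ (η / 16), lt_min hδ₁ (by positivity), fun w hw => ?_⟩
    have hw1 : ‖w - u‖ < δ₁ := hw.trans_le (min_le_left _ _)
    have hw2 : ‖w - u‖ < η / 16 := hw.trans_le (min_le_right _ _)
    have h1 : ‖m.P w - y''‖ ≤ ‖w - u‖ := by rw [← hPu, ← map_sub]; exact m.n1 _
    have h2 := hloc (m.P w) (h1.trans_lt hw1)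
    have h3 : ∀ k, |m.φ k w - m.φ k u| ≤ ‖w - u‖ := fun k => by
      rw [← map_sub]; exact m.abs_φ_le _ _
    have h4 := abs_le.1 ((abs_norm_sub_norm_le (m.P w) y'').trans h1)
    have h5 := abs_le.1 (h3 n)
    rw [hφn] at h5
    refine le_antisymm (le_norm_of (m.norm_face n hf) w) ?_
    rw [face_apply, h2]
    refine m.n3 _ _ (by linarith) fun k => ?_
    by_cases hk : k = n
    · subst hk
      rw [abs_of_nonneg (by linarith)]
      linarith
    · have h6 := h3 k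
      rw [hφk k hk] at h6
      have h7 := abs_add_le (m.φ k w - m.φ k z₁) (m.φ k z₁)
      rw [sub_add_cancel] at h7
      linarith [hy2 k]
  refine ⟨u, ?_, hLL, ?_⟩
  · rw [← hLL.self, face_apply, hPu, hφn, hloc y'' (by simpa using hδ₁), ht]
    ring
  · have h1 : g u = (1 - η) * g z + g (m.ι (y'' - (m.P z₁ + h))) + (t - m.φ n z₁) * g (m.e n) := by
      have h2 : g (m.ι h) = 0 := hh0
      simp only [hu, map_add, map_sub, map_smul, smul_eq_mul, h2, hz₁]
      ring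
    have h2 := g.le_opNorm (m.ι (y'' - (m.P z₁ + h)))
    rw [m.norm_ι, Real.norm_eq_abs] at h2
    have h3 : ‖g‖ * ‖y'' - (m.P z₁ + h)‖ ≤ ‖g‖ * (η / 8) := by gcongr
    have h4 := neg_abs_le (g (m.ι (y'' - (m.P z₁ + h))))
    have h5 : |t - m.φ n z₁| ≤ 2 := by
      have := abs_le.1 ((m.abs_φ_le n z₁).trans hn1)
      rw [abs_le]
      constructor <;> linarith [norm_nonneg y'', norm_nonneg (m.P z₁)]
    have h6 : |(t - m.φ n z₁) * g (m.e n)| ≤ 2 * |g (m.e n)| := by rw [abs_mul]; gcongr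
    have h7 := neg_abs_le ((t - m.φ n z₁) * g (m.e n))
    have h8 : (1 - η) * (‖g‖ - η) ≤ (1 - η) * g z := by gcongr; linarith
    rw [h1]
    nlinarith [norm_nonneg g]

end Model

lemma LocLin.small_cap {F : StrongDual ℝ G} {u : G} (h : LocLin F u) (hu : ‖u‖ = 1) {ρ : ℝ}
    (hρ : 0 < ρ) : ∃ ε : ℝ, 0 < ε ∧ ε ≤ 1 ∧ ∀ f : StrongDual ℝ G, ‖f‖ ≤ 1 →
      1 < f ((1 + ε) • u) → ‖f - F‖ ≤ ρ := by
  have hFu := h.self
  obtain ⟨-, δ, hδ, H⟩ := h
  refine ⟨min 1 (δ / 2 * ρ), lt_min one_pos (by positivity), min_le_left _ _, fun f hf hfu => ?_⟩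
  set ε := min 1 (δ / 2 * ρ) with hε
  have hε0 : 0 < ε := lt_min one_pos (by positivity)
  have hε2 : ε ≤ δ / 2 * ρ := min_le_right _ _
  rw [map_smul, smul_eq_mul] at hfu
  have h1 : 1 - ε ≤ f u := by
    have := le_norm_of hf u
    nlinarith
  have key : ∀ w : G, ‖w‖ = 1 → (f - F) w ≤ ρ := by
    intro w hw
    have h2 := H (u + (δ / 2) • w) (by
      rw [add_sub_cancel_left, norm_smul, hw, Real.norm_of_nonneg (by positivity)]; linarith)
    have h3 := le_norm_of hf (u + (δ / 2) • w)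
    rw [← h2, map_add, map_add, map_smul, map_smul, hFu, hu, smul_eq_mul, smul_eq_mul] at h3
    rw [sub_apply]
    exact le_of_mul_le_mul_left (a := δ / 2) (by nlinarith) (by positivity)
  refine ContinuousLinearMap.opNorm_le_of_unit_norm hρ.le fun w hw => ?_
  have h4 := key (-w) (by simp [hw])
  rw [map_neg] at h4
  rw [Real.norm_eq_abs, abs_le]
  exact ⟨by linarith, key w hw⟩

lemma exists_spikes {I : Type*} (F : I → StrongDual ℝ G) (u : I → G) (ρ : I → ℝ)
    (hρ : ∀ i, 0 < ρ i) (hu : ∀ i, ‖u i‖ = 1) (hL : ∀ i, LocLin (F i) (u i))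
    (h1 : ∀ i j, i ≠ j → ρ i + ρ j < ‖F i - F j‖) (h2 : ∀ i j, ρ i + ρ j < ‖F i + F j‖)
    (h3 : ∀ (g : StrongDual ℝ G) (η : ℝ), 0 < η → ∃ i, ‖g‖ - η ≤ g (u i)) :
    ∃ X : Set G, Spikes X := by
  choose ε hε0 hε1 hε2 using fun i => (hL i).small_cap (hu i) (hρ i)
  set x : I → G := fun i => (1 + ε i) • u i with hx
  have hxn : ∀ i, ‖x i‖ = 1 + ε i := fun i => by
    rw [hx, norm_smul, hu, mul_one, Real.norm_of_nonneg (by linarith [hε0 i])]
  have hA : ∀ i j (f : StrongDual ℝ G), ‖f‖ ≤ 1 → 1 < f (x i) → 1 < f (x j) → i = j := by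
    intro i j f hf hi hj
    by_contra hne
    have h4 := hε2 i f hf hi
    have h5 := hε2 j f hf hj
    have h6 := norm_sub_le (f - F j) (f - F i)
    rw [sub_sub_sub_cancel_left] at h6
    linarith [h1 i j hne]
  have hB : ∀ i j (f : StrongDual ℝ G), ‖f‖ ≤ 1 → 1 < f (x i) → 1 < f (-x j) → False := by
    intro i j f hf hi hj
    have h4 := hε2 i f hf hi
    have h5 := hε2 j (-f) (by simpa using hf) (by rw [map_neg] at hj; exact hj)
    have h6 := norm_add_le (f - F i) (-f - F j)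
    rw [show f - F i + (-f - F j) = -(F i + F j) by abel, norm_neg] at h6
    linarith [h2 i j]
  refine ⟨range x ∪ range fun i => -x i, ?_, ?_, ?_, ?_, ?_⟩
  · rintro _ (⟨i, rfl⟩ | ⟨i, rfl⟩) <;> simp [hxn, hε0]
  · rintro _ (⟨i, rfl⟩ | ⟨i, rfl⟩)
    · rw [hxn]; linarith [hε1 i]
    · rw [norm_neg, hxn]; linarith [hε1 i]
  · rintro _ (⟨i, rfl⟩ | ⟨i, rfl⟩)
    · exact Or.inr ⟨i, rfl⟩
    · exact Or.inl ⟨i, by simp⟩
  · rintro _ (⟨i, rfl⟩ | ⟨i, rfl⟩) _ (⟨j, rfl⟩ | ⟨j, rfl⟩) f hf hi hj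
    · rw [hA i j f hf hi hj]
    · exact (hB i j f hf hi hj).elim
    · exact (hB j i f hf hj hi).elim
    · rw [hA i j (-f) (by simpa using hf) (by simpa using hi) (by simpa using hj)]
  · intro g η hη
    obtain ⟨i, hi⟩ := h3 g η hη
    rcases le_total 0 (g (u i)) with h | h
    · refine ⟨x i, Or.inl ⟨i, rfl⟩, hi.trans ?_⟩
      rw [hx, map_smul, smul_eq_mul]
      nlinarith [hε0 i]
    · refine ⟨-x i, Or.inr ⟨i, rfl⟩, hi.trans ?_⟩
      rw [hx, map_neg, map_smul, smul_eq_mul]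
      nlinarith [hε0 i]

lemma exists_dense_seq {V : Type u} [NormedAddCommGroup V] [NormedSpace ℝ V] {T : Set V}
    (hT : Dense (Submodule.span ℝ T : Set V)) {κ : Cardinal.{u}} (hκ : ℵ₀ ≤ κ) (h : #T ≤ κ) :
    ∃ d : κ.ord.ToType → V, DenseRange d := by
  set s : List (ℚ × T) → V := fun l => (l.map fun p => (p.1 : ℝ) • (p.2 : V)).sum with hs
  have hd : DenseRange s := by
    refine Dense.of_closure (hT.mono fun x hx => ?_)
    induction hx using Submodule.span_induction with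
    | mem x hx => exact subset_closure ⟨[(1, ⟨x, hx⟩)], by simp [hs]⟩
    | zero => exact subset_closure ⟨[], by simp [hs]⟩
    | add x y _ _ hx hy =>
      refine map_mem_closure₂ continuous_add hx hy ?_
      rintro _ ⟨l, rfl⟩ _ ⟨l', rfl⟩
      exact ⟨l ++ l', by simp [hs]⟩
    | smul a x _ hx =>
      refine map_mem_closure₂ (f := fun (a : ℝ) (x : V) => a • x) continuous_smul
        (Rat.denseRange_cast (𝕜 := ℝ) a) hx ?_
      rintro _ ⟨q, rfl⟩ _ ⟨l, rfl⟩
      refine ⟨l.map fun p => (q * p.1, p.2), ?_⟩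
      simp only [hs, List.map_map, List.smul_sum]
      congr 1
      refine List.map_congr_left fun p _ => ?_
      simp [mul_smul]
  have hcard : #(List (ℚ × T)) ≤ #κ.ord.ToType := by
    rw [mk_ord_toType]
    refine (mk_list_le_max _).trans (max_le ?_ ?_)
    · exact hκ
    · rw [mk_prod, mk_denumerable, lift_aleph0, lift_uzero]
      exact (mul_le_max_of_aleph0_le_left le_rfl).trans (max_le hκ h)
  obtain ⟨j⟩ := (Cardinal.le_def _ _).1 hcard
  exact ⟨s ∘ Function.invFun j, by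
    rw [DenseRange, (Function.invFun_surjective j.injective).range_comp]; exact hd⟩

theorem Model.good (m : Model G Y) [CompleteSpace Y] (hY : PolyH Y)
    (hinf : ¬ FiniteDimensional ℝ Y) : Good G := by
  classical
  have hPL := pl_of_polyH hY
  set 𝒮 : Set Cardinal.{u} := {c | ∃ S : Set (StrongDual ℝ Y),
    (Submodule.span ℝ S).topologicalClosure = ⊤ ∧ #S = c} with h𝒮
  have hne : 𝒮.Nonempty := ⟨_, univ, by
    rw [Submodule.span_univ]; exact eq_top_iff.2 (Submodule.le_topologicalClosure _), rfl⟩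
  set κ := sInf 𝒮 with hκ
  obtain ⟨S₀, hS₀, hS₀c⟩ : κ ∈ 𝒮 := csInf_mem hne
  have hmin : ∀ S : Set (StrongDual ℝ Y), (Submodule.span ℝ S).topologicalClosure = ⊤ →
      κ ≤ #S := fun S hS => csInf_le' ⟨S, hS, rfl⟩
  have hκ0 : ℵ₀ ≤ κ := by
    by_contra hcon
    rw [not_le, ← hS₀c, lt_aleph0_iff_set_finite] at hcon
    have h1 : FiniteDimensional ℝ (Submodule.span ℝ S₀) := FiniteDimensional.span_of_finite ℝ hcon
    have h2 := (Submodule.span ℝ S₀).closed_of_finiteDimensional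
    rw [h2.submodule_topologicalClosure_eq] at hS₀
    rw [hS₀] at h1
    have h3 : FiniteDimensional ℝ (StrongDual ℝ Y) := Submodule.topEquiv.finiteDimensional
    have h4 : FiniteDimensional ℝ (StrongDual ℝ (StrongDual ℝ Y)) := inferInstance
    exact hinf (FiniteDimensional.of_injective
      (NormedSpace.inclusionInDoubleDualLi ℝ (E := Y)).toLinearMap
      (NormedSpace.inclusionInDoubleDualLi ℝ (E := Y)).injective)
  obtain ⟨d, hd⟩ := exists_dense_seq (m.dense_span hS₀) hκ0 (by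
    refine (mk_union_le _ _).trans (add_le_of_le hκ0 (mk_image_le.trans hS₀c.le) ?_)
    exact (countable_range m.φ).le_aleph0.trans hκ0)
  set η : ℕ → ℝ := fun n => 1 / ((n : ℝ) + 1) / 2 with hη
  have hη0 : ∀ n, 0 < η n := fun n => half_pos (tseq_pos n)
  have hη1 : ∀ n, η n ≤ 1 / 2 := fun n => by
    have : 1 / ((n : ℝ) + 1) ≤ 1 := by
      rw [div_le_one (by positivity)]; linarith [Nat.cast_nonneg (α := ℝ) n]
    simp only [hη]; linarith
  have level : ∀ n : ℕ, ∃ f : κ.ord.ToType → StrongDual ℝ Y,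
      (∀ i, ∃ u : G, ‖u‖ = 1 ∧ LocLin (m.face n (f i)) u ∧
        ‖d i‖ - 2 * η n * ‖d i‖ - η n - 2 * |d i (m.e n)| ≤ d i u) ∧
      ∀ j i, j < i → η n / 13 ≤ ‖f j - f i‖ := by
    intro n
    refine rec_choice (fun i f => ∃ u : G, ‖u‖ = 1 ∧ LocLin (m.face n f) u ∧
        ‖d i‖ - 2 * η n * ‖d i‖ - η n - 2 * |d i (m.e n)| ≤ d i u)
      (fun f f' => η n / 13 ≤ ‖f - f'‖) ?_
    intro i F _ _
    obtain ⟨y₀, r, hr1, hr2, H⟩ := m.candidate n (d i) (hη0 n) (hη1 n)
    by_contra hcon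
    push Not at hcon
    have h1 := dense_of_faces hPL y₀ r (by linarith [hη0 n]) ((d i).comp m.ι)
      (Submodule.span ℝ (range F)) (η n / 13) (by nlinarith [hη0 n]) (fun f hf hh => by
        obtain ⟨j, hj⟩ := hcon f (H f hf hh)
        exact ⟨F j, Submodule.subset_span ⟨j, rfl⟩, by rw [norm_sub_rev]; exact hj.le⟩)
    rw [← Submodule.span_union] at h1
    have h2 := hmin _ h1
    have h3 : #(range F ∪ {(d i).comp m.ι} : Set (StrongDual ℝ Y)) < κ := by
      refine (mk_union_le _ _).trans_lt (add_lt_of_lt hκ0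
        (mk_range_le.trans_lt (mk_Iio_toType_ord_lt i)) ?_)
      rw [mk_singleton]
      exact one_lt_aleph0.trans_le hκ0
    exact absurd h2 (not_le.2 h3)
  choose f hf1 hf2 using level
  choose u hu1 hu2 hu3 using hf1
  have hev : ∀ (F : StrongDual ℝ G) (n : ℕ), |F (m.e n)| ≤ ‖F‖ := fun F n => by
    have h1 := F.le_opNorm (m.e n)
    have h2 : ‖F‖ * ‖m.e n‖ ≤ ‖F‖ * 1 := by gcongr; exact m.norm_e n
    rw [Real.norm_eq_abs] at h1
    linarith
  have hfe : ∀ n k (f : StrongDual ℝ Y), m.face n f (m.e k) = if n = k then 1 else 0 := by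
    intro n k f
    rw [m.face_apply, m.Pe, m.φe]; simp
  have hsep : ∀ n (f f' : StrongDual ℝ Y), ‖f - f'‖ ≤ 2 * ‖m.face n f - m.face n f'‖ := by
    intro n f f'
    refine ContinuousLinearMap.opNorm_le_bound _ (by positivity) fun y => ?_
    have h1 := (m.face n f - m.face n f').le_opNorm (m.ι y)
    rw [sub_apply, m.face_apply, m.face_apply, m.Pι, m.norm_ι,
      show m.φ n (m.ι y) + f y / 2 - (m.φ n (m.ι y) + f' y / 2) = (f y - f' y) / 2 by ring,
      norm_div, Real.norm_of_nonneg zero_le_two] at h1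
    rw [sub_apply]
    linarith
  obtain ⟨X, hX⟩ := exists_spikes (I := ℕ × κ.ord.ToType) (fun p => m.face p.1 (f p.1 p.2))
    (fun p => u p.1 p.2) (fun p => η p.1 / 65) (fun p => by linarith [hη0 p.1])
    (fun p => hu1 _ _) (fun p => hu2 _ _) (by
      rintro ⟨n, i⟩ ⟨k, j⟩ hne
      by_cases hnk : n = k
      · subst hnk
        have hij : i ≠ j := fun h => hne (by rw [h])
        have h1 := hsep n (f n i) (f n j)
        have h2 : η n / 13 ≤ ‖f n i - f n j‖ := by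
          rcases lt_or_gt_of_ne hij with h | h
          · exact hf2 n i j h
          · rw [norm_sub_rev]; exact hf2 n j i h
        simp only
        linarith [hη0 n]
      · have h1 := hev (m.face n (f n i) - m.face k (f k j)) n
        rw [sub_apply, hfe, hfe, if_pos rfl, if_neg (Ne.symm hnk), sub_zero, abs_one] at h1
        simp only
        linarith [hη1 n, hη1 k]) (by
      rintro ⟨n, i⟩ ⟨k, j⟩
      have h1 := hev (m.face n (f n i) + m.face k (f k j)) n
      rw [add_apply, hfe, hfe, if_pos rfl] at h1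
      have h2 : (1 : ℝ) ≤ |1 + if k = n then 1 else 0| := by
        split_ifs <;> norm_num
      simp only
      linarith [hη1 n, hη1 k]) (by
      intro g ε hε
      obtain ⟨i, hi⟩ := Metric.denseRange_iff.1 hd g (ε / 4) (by positivity)
      rw [dist_eq_norm] at hi
      have h1 : Tendsto (fun n => 2 * η n * ‖d i‖ + η n + 2 * |d i (m.e n)|) atTop (𝓝 0) := by
        have h2 : Tendsto η atTop (𝓝 0) := by
          have := (tendsto_one_div_add_atTop_nhds_zero_nat (𝕜 := ℝ)).div_const 2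
          rw [zero_div] at this
          exact this
        simpa using (((h2.const_mul 2).mul_const ‖d i‖).add h2).add
          ((m.tendsto_e (d i)).const_mul 2)
      obtain ⟨n, hn⟩ := (h1.eventually (ge_mem_nhds (half_pos hε))).exists
      refine ⟨(n, i), ?_⟩
      have h2 := hu3 n i
      have h3 := (g - d i).le_opNorm (u n i)
      rw [hu1, mul_one, sub_apply, Real.norm_eq_abs] at h3
      have h4 := norm_add_le (g - d i) (d i)
      rw [sub_add_cancel] at h4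
      simp only
      linarith [neg_abs_le (g (u n i) - d i (u n i))])
  exact good_of_spikes (m.polyH hY) hX

end Pool.Agent.H99Z.Poly
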