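import Pool.Agent.H99Z.PolyG

set_option autoImplicit false

/-! Every polyhedral Banach space has a polyhedral renorming whose ball is generated by its
extreme points. -/

namespace Pool.Agent.H99Z.Poly

open Set Metric Filter Topology

universe u

variable {E : Type u} [NormedAddCommGroup E] [NormedSpace ℝ E]

lemma PolyH.submodule (hE : PolyH E) (W : Submodule ℝ E) : PolyH W := by
  classical
  intro F hF
  obtain ⟨Γ, h1, h2⟩ := hE (F.map W.subtype) inferInstance
  refine ⟨Γ.image fun f => f.comp W.subtypeL, ?_, fun z hz => ?_⟩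
  · intro g hg
    obtain ⟨f, hf, rfl⟩ := Finset.mem_image.1 hg
    exact norm_le_one_of fun z => le_norm_of (h1 f hf) (z : E)
  · obtain ⟨f, hf, hfz⟩ := h2 z ⟨z, hz, rfl⟩
    exact ⟨_, Finset.mem_image_of_mem _ hf, hfz⟩

theorem good_of_infinite [CompleteSpace E] (hE : PolyH E) (hinf : ¬ FiniteDimensional ℝ E) :
    Good E := by
  obtain ⟨e, φ, P, M, K, hM, hK, h1, h2, h3, h4, h5, h6, h7, h8⟩ :=
    exists_split (pl_of_polyH hE) hinf
  set Y : Submodule ℝ E := ⨅ k, LinearMap.ker (φ k : E →ₗ[ℝ] ℝ) with hY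
  have hYm : ∀ y, y ∈ Y ↔ ∀ k, φ k y = 0 := fun y => by
    rw [hY, Submodule.mem_iInf]; rfl
  have hYc : IsClosed (Y : Set E) := by
    have : (Y : Set E) = ⋂ k, {y | φ k y = 0} := by
      ext y; simp only [SetLike.mem_coe, hYm, mem_iInter]; rfl
    rw [this]
    exact isClosed_iInter fun k => isClosed_eq (φ k).continuous continuous_const
  have : CompleteSpace Y := hYc.completeSpace_coe
  have hφ : ∀ k z, |φ k z| ≤ M * ‖z‖ := fun k z => by
    have := (φ k).le_opNorm z
    rw [Real.norm_eq_abs] at this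
    exact this.trans (by gcongr; exact h2 _)
  have hbdd : ∀ z, BddAbove (range fun k => |φ k z|) := fun z =>
    ⟨M * ‖z‖, by rintro _ ⟨k, rfl⟩; exact hφ k z⟩
  set s : E → ℝ := fun z => ⨆ k, |φ k z| with hs
  have hs1 : ∀ k z, |φ k z| ≤ s z := fun k z => le_ciSup (hbdd z) k
  have hs2 : ∀ z θ, (∀ k, |φ k z| ≤ θ) → s z ≤ θ := fun z θ h => ciSup_le h
  have hs0 : ∀ z, 0 ≤ s z := fun z => (abs_nonneg _).trans (hs1 0 z)
  set p : Seminorm ℝ E := Seminorm.ofSMulLE (fun z => max ‖P z‖ (‖P z‖ / 2 + s z))
    (by simp [hs]) (fun x y => by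
      have h9 := norm_add_le (P x) (P y)
      have h10 : s (x + y) ≤ s x + s y := hs2 _ _ fun k => by
        rw [map_add]; exact (abs_add_le _ _).trans (add_le_add (hs1 k x) (hs1 k y))
      rw [map_add]
      refine max_le ?_ ?_
      · linarith [le_max_left ‖P x‖ (‖P x‖ / 2 + s x), le_max_left ‖P y‖ (‖P y‖ / 2 + s y)]
      · linarith [le_max_right ‖P x‖ (‖P x‖ / 2 + s x), le_max_right ‖P y‖ (‖P y‖ / 2 + s y)])
    (fun a x => by
      have h10 : s (a • x) ≤ ‖a‖ * s x := hs2 _ _ fun k => by
        rw [map_smul, smul_eq_mul, abs_mul, Real.norm_eq_abs]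
        exact mul_le_mul_of_nonneg_left (hs1 k x) (abs_nonneg a)
      rw [map_smul, norm_smul]
      have h11 := mul_le_mul_of_nonneg_left (le_max_left ‖P x‖ (‖P x‖ / 2 + s x)) (norm_nonneg a)
      have h12 := mul_le_mul_of_nonneg_left (le_max_right ‖P x‖ (‖P x‖ / 2 + s x)) (norm_nonneg a)
      exact max_le h11 (by linarith)) with hp
  have hpa : ∀ z, p z = max ‖P z‖ (‖P z‖ / 2 + s z) := fun z => rfl
  set q : EqNorm E :=
    { p := p
      c := 1 + K
      C := ‖P‖ + M
      lower := fun z => by
        have h9 := h7 z (s z) fun k => hs1 k z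
        have h10 := norm_add_le (z - P z) (P z)
        rw [sub_add_cancel] at h10
        have h11 : ‖P z‖ ≤ p z := le_max_left _ _
        have h12 : ‖P z‖ / 2 + s z ≤ p z := le_max_right _ _
        have h13 : K * s z ≤ K * p z := by gcongr; linarith [norm_nonneg (P z)]
        linarith
      upper := fun z => by
        have h9 := P.le_opNorm z
        have h10 := hs2 z _ fun k => hφ k z
        have h11 : 0 ≤ M * ‖z‖ := by positivity
        rw [hpa]
        exact max_le (by linarith) (by linarith [norm_nonneg (P z)]) } with hq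
  set T := toRen q with hT
  have hTn : ∀ z : Ren q, ‖z‖ = max ‖P (T.symm z)‖ (‖P (T.symm z)‖ / 2 + s (T.symm z)) :=
    fun z => rfl
  set m : Model (Ren q) Y :=
    { P := (P.codRestrict Y fun z => (hYm _).2 fun k => h4 k z).comp (T.symm : Ren q →L[ℝ] E)
      ι := (T : E →L[ℝ] Ren q).comp Y.subtypeL
      φ := fun k => (φ k).comp (T.symm : Ren q →L[ℝ] E)
      e := fun k => T (e k)
      n1 := fun z => by rw [hTn]; exact le_max_left _ _
      n2 := fun k z => by
        rw [hTn]
        exact le_trans (add_le_add_right (hs1 k (T.symm z)) _) (le_max_right _ _)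
      n3 := fun z θ ha hb => by
        rw [hTn]
        refine max_le ha ?_
        have := hs2 (T.symm z) (θ - ‖P (T.symm z)‖ / 2) fun k => by
          have h9 : ‖P (T.symm z)‖ / 2 + |φ k (T.symm z)| ≤ θ := hb k
          linarith
        linarith
      Pι := fun y => Subtype.ext (h5 y ((hYm _).1 y.2))
      φι := fun k y => (hYm _).1 y.2 k
      Pe := fun k => Subtype.ext (h6 k)
      φe := fun i j => h1 i j
      lim := fun z => h3 (T.symm z) } with hm
  exact Good.of_equiv T (m.good (hE.submodule Y) h8)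

theorem good_of_polyE [CompleteSpace E] (hE : PolyE E) : Good E := by
  by_cases h : FiniteDimensional ℝ E
  · have : ProperSpace E := FiniteDimensional.proper ℝ E
    exact ⟨E, inferInstance, inferInstance, ContinuousLinearEquiv.refl ℝ E, hE,
      (closure_convexHull_extremePoints (isCompact_closedBall _ _) (convex_closedBall _ _)).symm⟩
  · exact good_of_infinite (polyH_of_polyE hE) h

end Pool.Agent.H99Z.Poly
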