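import Pool.Agent.H99Z.SDDDefs

set_option autoImplicit false

namespace Pool.Agent.H99Z.SDD

open MvPolynomial Filter Projectivization

variable {L : Type} [Field L] {ι : Type} [Fintype ι]

theorem aeval_smul_hom {K : Type} [Field K] [Algebra K L] {F : MvPolynomial ι K} {e : ℕ}
    (h : F.IsHomogeneous e) (c : L) (v : ι → L) : aeval (c • v) F = c ^ e * aeval v F := by
  rw [aeval_def, aeval_def, eval₂_eq', eval₂_eq', Finset.mul_sum]
  refine Finset.sum_congr rfl fun d hd => ?_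
  have h1 : ∑ i, d i = e := by
    have h2 := h (mem_support_iff.1 hd)
    rw [← h2, Finsupp.weight_apply, Finsupp.sum_fintype _ _ (by simp)]
    simp
  simp only [Pi.smul_apply, smul_eq_mul, mul_pow, Finset.prod_mul_distrib,
    Finset.prod_pow_eq_pow_sum, h1]
  ring

theorem rep_mk (v : ι → L) (hv : v ≠ 0) : ∃ c : L, c ≠ 0 ∧ (mk L v hv).rep = c • v := by
  obtain ⟨a, ha⟩ := exists_smul_eq_mk_rep L v hv
  exact ⟨a, a.ne_zero, ha.symm⟩

theorem aeval_mk {K : Type} [Field K] [Algebra K L] {F : MvPolynomial ι K} {e : ℕ}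
    (h : F.IsHomogeneous e) (v : ι → L) (hv : v ≠ 0) :
    aeval (mk L v hv).rep F = 0 ↔ aeval v F = 0 := by
  obtain ⟨c, hc, h1⟩ := rep_mk v hv
  rw [h1, aeval_smul_hom h]
  simp [hc]

theorem onHyp_mk (a v : ι → L) (hv : v ≠ 0) : OnHyp a (mk L v hv) ↔ ∑ i, a i * v i = 0 := by
  obtain ⟨c, hc, h1⟩ := rep_mk v hv
  unfold OnHyp
  rw [h1]
  have : ∑ i, a i * (c • v) i = c * ∑ i, a i * v i := by
    rw [Finset.mul_sum]
    refine Finset.sum_congr rfl fun i _ => ?_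
    simp only [Pi.smul_apply, smul_eq_mul]; ring
  rw [this]
  simp [hc]

theorem mk_smul (v : ι → L) (hv : v ≠ 0) (c : L) (hc : c ≠ 0) (h : c • v ≠ 0) :
    mk L (c • v) h = mk L v hv := by
  rw [mk_eq_mk_iff']
  exact ⟨c, rfl⟩

/-- the image of a polynomial parametrisation is irreducible -/
theorem irred_param [Infinite L] {σ : Type} (G : ι → MvPolynomial σ L)
    (V : Set (Projectivization L (ι → L)))
    (hV : ∀ x, x ∈ V ↔ ∃ (v : σ → L) (h : (fun i => eval v (G i)) ≠ 0), x = mk L _ h)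
    (A B : Set (Projectivization L (ι → L))) (hA : IsClosedOver L A) (hB : IsClosedOver L B)
    (h : V ⊆ A ∪ B) : V ⊆ A ∨ V ⊆ B := by
  by_contra hc
  rw [not_or] at hc
  obtain ⟨SA, hSA, rfl⟩ := hA
  obtain ⟨SB, hSB, rfl⟩ := hB
  obtain ⟨x, hx, hxA⟩ := Set.not_subset.1 hc.1
  obtain ⟨y, hy, hyB⟩ := Set.not_subset.1 hc.2
  simp only [Set.mem_setOf_eq, not_forall] at hxA hyB
  obtain ⟨P, hP, hxP⟩ := hxA
  obtain ⟨Q, hQ, hyQ⟩ := hyB
  obtain ⟨eP, hPe⟩ := hSA P hP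
  obtain ⟨eQ, hQe⟩ := hSB Q hQ
  obtain ⟨v, hv, rfl⟩ := (hV x).1 hx
  obtain ⟨w, hw, rfl⟩ := (hV y).1 hy
  rw [aeval_mk hPe] at hxP
  rw [aeval_mk hQe] at hyQ
  have key : ∀ (u : σ → L) (R : MvPolynomial ι L),
      eval u (aeval G R) = aeval (fun i => eval u (G i)) R := by
    intro u R
    rw [← coe_aeval_eq_eval]
    exact (comp_aeval_apply G (aeval u) R)
  obtain ⟨i, hi⟩ := Function.ne_iff.1 hv
  have h1 : aeval G P ≠ 0 := fun h0 => hxP (by rw [← key, h0, map_zero])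
  have h2 : aeval G Q ≠ 0 := fun h0 => hyQ (by rw [← key, h0, map_zero])
  have h3 : G i ≠ 0 := fun h0 => hi (by simp [h0])
  have h4 : G i * aeval G P * aeval G Q ≠ 0 := mul_ne_zero (mul_ne_zero h3 h1) h2
  have h5 : ∃ u : σ → L, eval u (G i * aeval G P * aeval G Q) ≠ 0 := by
    by_contra h6
    push Not at h6
    exact h4 (MvPolynomial.funext (fun u => by rw [h6 u, map_zero]))
  obtain ⟨u, hu⟩ := h5
  rw [map_mul, map_mul, key, key] at hu
  have hu0 : (fun i => eval u (G i)) ≠ 0 := by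
    intro h0
    exact (left_ne_zero_of_mul (left_ne_zero_of_mul hu)) (congrFun h0 i)
  rcases h ((hV _).2 ⟨u, hu0, rfl⟩) with h7 | h7
  · exact (right_ne_zero_of_mul (left_ne_zero_of_mul hu)) ((aeval_mk hPe _ _).1 (h7 P hP))
  · exact (right_ne_zero_of_mul hu) ((aeval_mk hQe _ _).1 (h7 Q hQ))

theorem tendsto_root (a C : ℝ) (ha : 0 < a) (hC : 0 < C) (I : ℕ → ℕ)
    (h1 : ∀ n, a ^ n ≤ I n) (h2 : ∀ n, (I n : ℝ) ≤ C * a ^ n) :
    Tendsto (fun n : ℕ => (I n : ℝ) ^ (1 / (n : ℝ))) atTop (nhds a) := by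
  have h3 : Tendsto (fun n : ℕ => C ^ (1 / (n : ℝ)) * a) atTop (nhds (C ^ (0 : ℝ) * a)) := by
    refine Tendsto.mul_const _ ?_
    exact (Real.continuousAt_const_rpow hC.ne').tendsto.comp tendsto_one_div_atTop_nhds_zero_nat
  rw [Real.rpow_zero, one_mul] at h3
  have h4 : ∀ n : ℕ, n ≠ 0 → (a ^ n) ^ (1 / (n : ℝ)) = a := by
    intro n hn
    rw [one_div, Real.pow_rpow_inv_natCast ha.le hn]
  refine tendsto_of_tendsto_of_tendsto_of_le_of_le' tendsto_const_nhds h3 ?_ ?_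
  · filter_upwards [eventually_ne_atTop 0] with n hn
    rw [← h4 n hn]
    rw [h4 n hn]
    calc a = (a ^ n) ^ (1 / (n : ℝ)) := (h4 n hn).symm
      _ ≤ _ := Real.rpow_le_rpow (by positivity) (h1 n) (by positivity)
  · filter_upwards [eventually_ne_atTop 0] with n hn
    calc (I n : ℝ) ^ (1 / (n : ℝ)) ≤ (C * a ^ n) ^ (1 / (n : ℝ)) :=
          Real.rpow_le_rpow (by positivity) (h2 n) (by positivity)
      _ = C ^ (1 / (n : ℝ)) * a := by
          rw [Real.mul_rpow hC.le (by positivity), h4 n hn]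

theorem hasDynDeg_of (V : Set (Projectivization L (ι → L)))
    (g : Projectivization L (ι → L) → Projectivization L (ι → L)) (k : ℕ) (hd : HasDim V (k + 1))
    (a C : ℕ) (ha : 0 < a) (hC : 0 < C)
    (h1 : ∀ n, ∃ (a₀ : ι → L) (b : Fin k → ι → L), (cut V (g^[n]) a₀ b).Finite ∧
      a ^ n ≤ (cut V (g^[n]) a₀ b).ncard)
    (h2 : ∀ n (a₀ : ι → L) (b : Fin k → ι → L), (cut V (g^[n]) a₀ b).Finite →
      (cut V (g^[n]) a₀ b).ncard ≤ C * a ^ n) : HasDynDeg V g a := by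
  let T : ℕ → Set ℕ := fun n => {c : ℕ | ∃ (a₀ : ι → L) (b : Fin k → ι → L),
    (cut V (g^[n]) a₀ b).Finite ∧ (cut V (g^[n]) a₀ b).ncard = c}
  have hb : ∀ n, ∀ c ∈ T n, c ≤ C * a ^ n := by
    rintro n c ⟨a₀, b, hf, rfl⟩
    exact h2 n a₀ b hf
  have hbdd : ∀ n, BddAbove (T n) := fun n => ⟨_, hb n⟩
  have hne : ∀ n, (T n).Nonempty := fun n => by
    obtain ⟨a₀, b, hf, -⟩ := h1 n
    exact ⟨_, a₀, b, hf, rfl⟩
  refine ⟨k, hd, fun n => sSup (T n), fun n => ⟨Nat.sSup_mem (hne n) (hbdd n),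
    fun c hc => le_csSup (hbdd n) hc⟩, ?_⟩
  refine tendsto_root a C (by exact_mod_cast ha) (by exact_mod_cast hC) _ (fun n => ?_) (fun n => ?_)
  · obtain ⟨a₀, b, hf, hle⟩ := h1 n
    have : (cut V (g^[n]) a₀ b).ncard ≤ sSup (T n) := le_csSup (hbdd n) ⟨a₀, b, hf, rfl⟩
    exact_mod_cast hle.trans this
  · exact_mod_cast hb n _ (Nat.sSup_mem (hne n) (hbdd n))

/-- the Segre map on vectors -/
def tens (z : Fin 2 → L) (w : Fin 3 → L) : Fin 2 × Fin 3 → L := fun p => z p.1 * w p.2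

theorem tens_ne {z : Fin 2 → L} {w : Fin 3 → L} (hz : z ≠ 0) (hw : w ≠ 0) : tens z w ≠ 0 := by
  obtain ⟨i, hi⟩ := Function.ne_iff.1 hz
  obtain ⟨j, hj⟩ := Function.ne_iff.1 hw
  exact Function.ne_iff.2 ⟨(i, j), mul_ne_zero hi hj⟩

theorem ne_of_tens {z : Fin 2 → L} {w : Fin 3 → L} (h : tens z w ≠ 0) : z ≠ 0 ∧ w ≠ 0 := by
  constructor
  · rintro rfl; apply h; funext p; simp [tens]
  · rintro rfl; apply h; funext p; simp [tens]

open Classical in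
/-- the Segre map -/
noncomputable def seg (z : Fin 2 → L) (w : Fin 3 → L) : Projectivization L (Fin 2 × Fin 3 → L) :=
  if h : tens z w ≠ 0 then mk L (tens z w) h else mk L (fun _ => 1) (fun h => one_ne_zero (congrFun h (0, 0)))

theorem seg_eq {z : Fin 2 → L} {w : Fin 3 → L} (hz : z ≠ 0) (hw : w ≠ 0) :
    seg z w = mk L (tens z w) (tens_ne hz hw) := by
  unfold seg
  rw [dif_pos (tens_ne hz hw)]

theorem seg_smul {z : Fin 2 → L} {w : Fin 3 → L} (hz : z ≠ 0) (hw : w ≠ 0) {c d : L} (hc : c ≠ 0)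
    (hd : d ≠ 0) : seg (c • z) (d • w) = seg z w := by
  rw [seg_eq hz hw, seg_eq (smul_ne_zero hc hz) (smul_ne_zero hd hw), mk_eq_mk_iff']
  refine ⟨c * d, ?_⟩
  funext p
  simp only [tens, Pi.smul_apply, smul_eq_mul]
  ring

theorem seg_inj {z z' : Fin 2 → L} {w w' : Fin 3 → L} (hz : z ≠ 0) (hw : w ≠ 0) (hz' : z' ≠ 0)
    (hw' : w' ≠ 0) (h : seg z' w' = seg z w) :
    ∃ c d : L, c ≠ 0 ∧ d ≠ 0 ∧ z' = c • z ∧ w' = d • w := by
  rw [seg_eq hz hw, seg_eq hz' hw', mk_eq_mk_iff'] at h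
  obtain ⟨a, ha⟩ := h
  obtain ⟨i, hi⟩ := Function.ne_iff.1 hz'
  obtain ⟨j, hj⟩ := Function.ne_iff.1 hw'
  have h1 : ∀ p q, a * (z p * w q) = z' p * w' q := fun p q => congrFun ha (p, q)
  simp only [Pi.zero_apply] at hi hj
  have h2 : a * (z i * w j) ≠ 0 := by rw [h1]; exact mul_ne_zero hi hj
  have ha0 : a ≠ 0 := left_ne_zero_of_mul h2
  have hzi : z i ≠ 0 := left_ne_zero_of_mul (right_ne_zero_of_mul h2)
  have hwj : w j ≠ 0 := right_ne_zero_of_mul (right_ne_zero_of_mul h2)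
  refine ⟨a * w j / w' j, a * z i / z' i, by positivity, by positivity, ?_, ?_⟩
  · funext p
    simp only [Pi.smul_apply, smul_eq_mul]
    field_simp
    rw [← h1 p j]; ring
  · funext q
    simp only [Pi.smul_apply, smul_eq_mul]
    field_simp
    rw [mul_comm, ← h1 i q]; ring

theorem onHyp_seg (a : Fin 2 × Fin 3 → L) {z : Fin 2 → L} {w : Fin 3 → L} (hz : z ≠ 0)
    (hw : w ≠ 0) : OnHyp a (seg z w) ↔
      ∑ j, (a (0, j) * z 0 + a (1, j) * z 1) * w j = 0 := by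
  rw [seg_eq hz hw, onHyp_mk, Fintype.sum_prod_type, Fin.sum_univ_two, ← Finset.sum_add_distrib]
  have : ∀ j, a (0, j) * tens z w (0, j) + a (1, j) * tens z w (1, j)
      = (a (0, j) * z 0 + a (1, j) * z 1) * w j := by
    intro j; simp only [tens]; ring
  simp only [this]

/-- the Segre variety -/
def XX (L : Type) [Field L] : Set (Projectivization L (Fin 2 × Fin 3 → L)) :=
  {x | ∃ z w, z ≠ 0 ∧ w ≠ 0 ∧ x = seg z w}

open Classical in
/-- the endomorphism -/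
noncomputable def ff (x : Projectivization L (Fin 2 × Fin 3 → L)) :
    Projectivization L (Fin 2 × Fin 3 → L) :=
  if h : ∃ p : (Fin 2 → L) × (Fin 3 → L), p.1 ≠ 0 ∧ p.2 ≠ 0 ∧ x = seg p.1 p.2 then
    seg (h.choose.1 ^ 3) (h.choose.2 ^ 2) else x

theorem pw_ne {n : ℕ} {z : Fin n → L} (hz : z ≠ 0) (e : ℕ) : z ^ e ≠ 0 := by
  obtain ⟨i, hi⟩ := Function.ne_iff.1 hz
  exact Function.ne_iff.2 ⟨i, pow_ne_zero e hi⟩

theorem ff_seg {z : Fin 2 → L} {w : Fin 3 → L} (hz : z ≠ 0) (hw : w ≠ 0) :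
    ff (seg z w) = seg (z ^ 3) (w ^ 2) := by
  have h : ∃ p : (Fin 2 → L) × (Fin 3 → L), p.1 ≠ 0 ∧ p.2 ≠ 0 ∧ seg z w = seg p.1 p.2 :=
    ⟨(z, w), hz, hw, rfl⟩
  unfold ff
  rw [dif_pos h]
  obtain ⟨h1, h2, h3⟩ := h.choose_spec
  obtain ⟨c, d, hc, hd, h4, h5⟩ := seg_inj hz hw h1 h2 h3.symm
  rw [h4, h5, smul_pow, smul_pow]
  exact seg_smul (pw_ne hz 3) (pw_ne hw 2) (pow_ne_zero 3 hc) (pow_ne_zero 2 hd)

theorem ff_iter (n : ℕ) {z : Fin 2 → L} {w : Fin 3 → L} (hz : z ≠ 0) (hw : w ≠ 0) :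
    ff^[n] (seg z w) = seg (z ^ 3 ^ n) (w ^ 2 ^ n) := by
  induction n with
  | zero => simp
  | succ n ih =>
    rw [Function.iterate_succ_apply', ih, ff_seg (pw_ne hz _) (pw_ne hw _), ← pow_mul, ← pow_mul,
      pow_succ 3, pow_succ 2]

end Pool.Agent.H99Z.SDD
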