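import Pool.Agent.H99Z.SDDA

set_option autoImplicit false

namespace Pool.Agent.H99Z.SDD

open Projectivization Polynomial

variable {L : Type} [Field L]

def dot (u w : Fin 3 → L) : L := ∑ j, u j * w j

def cr (u v : Fin 3 → L) : Fin 3 → L :=
  ![u 1 * v 2 - u 2 * v 1, u 2 * v 0 - u 0 * v 2, u 0 * v 1 - u 1 * v 0]

def Indep (p q : Fin 3 → L) : Prop := ∀ α β : L, α • p + β • q = 0 → α = 0 ∧ β = 0

theorem dot_comb (u p q : Fin 3 → L) (α β : L) :
    dot u (α • p + β • q) = α * dot u p + β * dot u q := by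
  simp only [dot, Fin.sum_univ_three, Pi.add_apply, Pi.smul_apply, smul_eq_mul]; ring

theorem par {c w : Fin 3 → L} (hc : c ≠ 0) (h : cr w c = 0) : ∃ l : L, w = l • c := by
  have h0 : w 1 * c 2 - w 2 * c 1 = 0 := congrFun h 0
  have h1 : w 2 * c 0 - w 0 * c 2 = 0 := congrFun h 1
  have h2 : w 0 * c 1 - w 1 * c 0 = 0 := congrFun h 2
  obtain ⟨i, hi⟩ := Function.ne_iff.1 hc
  simp only [Pi.zero_apply] at hi
  refine ⟨w i / c i, ?_⟩
  funext j
  simp only [Pi.smul_apply, smul_eq_mul]
  field_simp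
  fin_cases i <;> fin_cases j <;> simp only [Fin.zero_eta, Fin.mk_one, Fin.reduceFinMk, Fin.isValue] <;>
    first | rfl | linear_combination h0 | linear_combination -h0 | linear_combination h1 | linear_combination -h1 | linear_combination h2 | linear_combination -h2

theorem perp {u : Fin 3 → L} (hu : u ≠ 0) : ∃ p q : Fin 3 → L, Indep p q ∧ dot u p = 0 ∧
    dot u q = 0 ∧ ∀ w, dot u w = 0 → ∃ α β : L, w = α • p + β • q := by
  obtain ⟨i, hi⟩ := Function.ne_iff.1 hu
  simp only [Pi.zero_apply] at hi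
  fin_cases i
  · have hi' : u 0 ≠ 0 := hi
    refine ⟨![-u 1, u 0, 0], ![-u 2, 0, u 0], ?_, ?_, ?_, ?_⟩
    · intro α β h
      have h1 := congrFun h 1
      have h2 := congrFun h 2
      simp [hi'] at h1 h2
      exact ⟨h1, h2⟩
    · simp [dot, Fin.sum_univ_three]; ring
    · simp [dot, Fin.sum_univ_three]; ring
    · intro w hw
      simp only [dot, Fin.sum_univ_three] at hw
      refine ⟨w 1 / u 0, w 2 / u 0, ?_⟩
      funext j
      fin_cases j <;> simp <;> field_simp
      linear_combination hw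
  · have hi' : u 1 ≠ 0 := hi
    refine ⟨![u 1, -u 0, 0], ![0, -u 2, u 1], ?_, ?_, ?_, ?_⟩
    · intro α β h
      have h1 := congrFun h 0
      have h2 := congrFun h 2
      simp [hi'] at h1 h2
      exact ⟨h1, h2⟩
    · simp [dot, Fin.sum_univ_three]; ring
    · simp [dot, Fin.sum_univ_three]; ring
    · intro w hw
      simp only [dot, Fin.sum_univ_three] at hw
      refine ⟨w 0 / u 1, w 2 / u 1, ?_⟩
      funext j
      fin_cases j <;> simp <;> field_simp
      linear_combination hw
  · have hi' : u 2 ≠ 0 := hi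
    refine ⟨![u 2, 0, -u 0], ![0, u 2, -u 1], ?_, ?_, ?_, ?_⟩
    · intro α β h
      have h1 := congrFun h 0
      have h2 := congrFun h 1
      simp [hi'] at h1 h2
      exact ⟨h1, h2⟩
    · simp [dot, Fin.sum_univ_three]; ring
    · simp [dot, Fin.sum_univ_three]; ring
    · intro w hw
      simp only [dot, Fin.sum_univ_three] at hw
      refine ⟨w 0 / u 2, w 1 / u 2, ?_⟩
      funext j
      fin_cases j <;> simp <;> field_simp
      linear_combination hw

theorem dot_zero (w : Fin 3 → L) : dot 0 w = 0 := by simp [dot]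

theorem dot_smul_left (l : L) (u w : Fin 3 → L) : dot (l • u) w = l * dot u w := by
  simp only [dot, Fin.sum_univ_three, Pi.smul_apply, smul_eq_mul]; ring

theorem dot_smul_right (l : L) (u w : Fin 3 → L) : dot u (l • w) = l * dot u w := by
  simp only [dot, Fin.sum_univ_three, Pi.smul_apply, smul_eq_mul]; ring

theorem line_of_cr {u v : Fin 3 → L} (h : cr u v = 0) : ∃ p q : Fin 3 → L, Indep p q ∧
    dot u p = 0 ∧ dot u q = 0 ∧ dot v p = 0 ∧ dot v q = 0 := by
  by_cases hv : v = 0
  · by_cases hu : u = 0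
    · obtain ⟨p, q, h1, -⟩ := perp (u := (fun _ => (1 : L))) (fun h => one_ne_zero (congrFun h 0))
      exact ⟨p, q, h1, by rw [hu, dot_zero], by rw [hu, dot_zero], by rw [hv, dot_zero],
        by rw [hv, dot_zero]⟩
    · obtain ⟨p, q, h1, h2, h3, -⟩ := perp hu
      exact ⟨p, q, h1, h2, h3, by rw [hv, dot_zero], by rw [hv, dot_zero]⟩
  · obtain ⟨l, hl⟩ := par hv h
    obtain ⟨p, q, h1, h2, h3, -⟩ := perp hv
    exact ⟨p, q, h1, by rw [hl, dot_smul_left, h2, mul_zero],
      by rw [hl, dot_smul_left, h3, mul_zero], h2, h3⟩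

theorem dot_cr_left (u v : Fin 3 → L) : dot u (cr u v) = 0 := by
  simp [dot, cr, Fin.sum_univ_three]; ring

theorem dot_cr_right (u v : Fin 3 → L) : dot v (cr u v) = 0 := by
  simp [dot, cr, Fin.sum_univ_three]; ring

theorem cr_cr {u v w : Fin 3 → L} (h1 : dot u w = 0) (h2 : dot v w = 0) : cr w (cr u v) = 0 := by
  simp only [dot, Fin.sum_univ_three] at h1 h2
  funext j
  fin_cases j
  · simp [cr]; linear_combination u 0 * h2 - v 0 * h1
  · simp [cr]; linear_combination u 1 * h2 - v 1 * h1
  · simp [cr]; linear_combination u 2 * h2 - v 2 * h1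

/-- the restriction of the diagonal form to a line -/
noncomputable def lp (b p q : Fin 3 → L) (D : ℕ) : L[X] := ∑ j, C (b j) * (C (p j) + C (q j) * X) ^ D

theorem lp_eval (b p q : Fin 3 → L) (D : ℕ) (s : L) :
    (lp b p q D).eval s = dot b ((p + s • q) ^ D) := by
  simp only [lp, dot, eval_finsetSum, eval_mul, eval_C, eval_pow, eval_add, eval_X, Pi.pow_apply,
    Pi.add_apply, Pi.smul_apply, smul_eq_mul, mul_comm s]

theorem lp_deg (b p q : Fin 3 → L) (D : ℕ) : (lp b p q D).natDegree ≤ D := by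
  unfold lp
  refine natDegree_sum_le_of_forall_le _ _ fun j _ => ?_
  refine (natDegree_C_mul_le _ _).trans (natDegree_pow_le.trans ?_)
  have : (C (p j) + C (q j) * X).natDegree ≤ 1 := by compute_degree
  calc D * (C (p j) + C (q j) * X).natDegree ≤ D * 1 := Nat.mul_le_mul_left _ this
    _ = D := mul_one _

theorem dot_smul_pow (b w : Fin 3 → L) (l : L) (D : ℕ) :
    dot b ((l • w) ^ D) = l ^ D * dot b (w ^ D) := by
  rw [_root_.smul_pow, dot_smul_right]

theorem Indep.ne {p q : Fin 3 → L} (h : Indep p q) (s : L) : p + s • q ≠ 0 := by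
  intro h0
  have := h 1 s (by rw [one_smul]; exact h0)
  exact one_ne_zero this.1

theorem Indep.ne' {p q : Fin 3 → L} (h : Indep p q) : q ≠ 0 := by
  intro h0
  have := h 0 1 (by rw [h0]; simp)
  exact one_ne_zero this.2

theorem Indep.symm {p q : Fin 3 → L} (h : Indep p q) : Indep q p := by
  intro α β h0
  exact (h β α (by rw [add_comm]; exact h0)).symm

theorem exists_on_line [IsAlgClosed L] [CharZero L] {p q : Fin 3 → L} (h : Indep p q)
    (b : Fin 3 → L) {D : ℕ} (hD : D ≠ 0) :
    ∃ α β : L, α • p + β • q ≠ 0 ∧ dot b ((α • p + β • q) ^ D) = 0 := by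
  by_contra hc
  push Not at hc
  have key : ∀ p q : Fin 3 → L, Indep p q →
      (∀ α β : L, α • p + β • q ≠ 0 → dot b ((α • p + β • q) ^ D) ≠ 0) →
      ∃ c : L, ∀ s : L, dot b ((p + s • q) ^ D) = c := by
    intro p q h hc
    have h1 : (lp b p q D).degree = 0 := by
      by_contra h2
      obtain ⟨s, hs⟩ := IsAlgClosed.exists_root _ h2
      rw [IsRoot.def, lp_eval] at hs
      exact hc 1 s (by rw [one_smul]; exact h.ne s) (by rw [one_smul]; exact hs)
    refine ⟨(lp b p q D).coeff 0, fun s => ?_⟩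
    rw [← lp_eval, eq_C_of_degree_eq_zero h1]
    simp
  obtain ⟨c, hc1⟩ := key p q h hc
  obtain ⟨c', hc2⟩ := key q p h.symm (fun α β h0 => by
    rw [add_comm] at h0 ⊢; exact hc β α h0)
  have e1 : c = c' := by rw [← hc1 1, ← hc2 1]; simp [add_comm]
  have e2 : c = 2 ^ D * c' := by
    rw [← hc1 2, ← hc2 (2 : L)⁻¹, ← dot_smul_pow]
    congr 2
    rw [smul_add, smul_smul, mul_inv_cancel₀ two_ne_zero, one_smul, add_comm]
  have e3 : c ≠ 0 := by
    rw [← hc1 0]
    have := hc 1 0 (by rw [one_smul]; exact h.ne 0)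
    rwa [one_smul] at this
  rw [← e1] at e2
  have e4 : (2 : L) ^ D = 1 := by
    have : (2 ^ D - 1) * c = 0 := by linear_combination -e2
    rcases mul_eq_zero.1 this with h5 | h5
    · linear_combination h5
    · exact absurd h5 e3
  have e5 : (2 : ℕ) ^ D = 1 := by exact_mod_cast e4
  simp [hD] at e5

/-- points over `z` on the plane cut out by two linear forms and a diagonal form -/
def Fib (z : Fin 2 → L) (u v b : Fin 3 → L) (D : ℕ) : Set (Projectivization L (Fin 2 × Fin 3 → L)) :=
  {x | ∃ w, w ≠ 0 ∧ x = seg z w ∧ dot u w = 0 ∧ dot v w = 0 ∧ dot b (w ^ D) = 0}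

theorem Fib_comm (z : Fin 2 → L) (u v b : Fin 3 → L) (D : ℕ) : Fib z u v b D = Fib z v u b D := by
  ext x
  constructor <;> rintro ⟨w, h1, h2, h3, h4, h5⟩ <;> exact ⟨w, h1, h2, h4, h3, h5⟩

theorem ncard_roots_le {P : L[X]} (hP : P ≠ 0) : {s : L | P.eval s = 0}.ncard ≤ P.natDegree := by
  classical
  have : {s : L | P.eval s = 0} = ↑P.roots.toFinset := by
    ext s; simp [hP]
  rw [this, Set.ncard_coe_finset]
  exact (Multiset.toFinset_card_le _).trans (card_roots' P)

theorem finite_roots {P : L[X]} (hP : P ≠ 0) : {s : L | P.eval s = 0}.Finite := by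
  classical
  have : {s : L | P.eval s = 0} = ↑P.roots.toFinset := by
    ext s; simp [hP]
  rw [this]
  exact Finset.finite_toSet _

theorem fib_line [Infinite L] {z : Fin 2 → L} (hz : z ≠ 0) {u : Fin 3 → L} (hu : u ≠ 0)
    (v b : Fin 3 → L) {D : ℕ} (hD : D ≠ 0) (hf : (Fib z u v b D).Finite) :
    (Fib z u v b D).ncard ≤ D + 1 := by
  obtain ⟨p, q, hpq, hp, hq, hw⟩ := perp hu
  let R : Set L := {s | (lp b p q D).eval s = 0 ∧ (lp v p q 1).eval s = 0}
  let π : L → Projectivization L (Fin 2 × Fin 3 → L) := fun s => seg z (p + s • q)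
  have hπ : Function.Injective π := by
    intro s s' h
    obtain ⟨c, d, -, -, -, h2⟩ := seg_inj hz (hpq.ne s') hz (hpq.ne s) h
    have h3 := hpq (1 - d) (s - d * s') (by
      rw [sub_smul, sub_smul, one_smul, mul_smul]
      rw [smul_add] at h2
      linear_combination (exp := 1) h2)
    have h4 : d = 1 := by linear_combination -h3.1
    have h5 := h3.2
    rw [h4] at h5
    linear_combination h5
  have h1 : π '' R ⊆ Fib z u v b D := by
    rintro _ ⟨s, ⟨hs1, hs2⟩, rfl⟩
    rw [lp_eval] at hs1 hs2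
    rw [pow_one] at hs2
    refine ⟨p + s • q, hpq.ne s, rfl, ?_, hs2, hs1⟩
    have := dot_comb u p q 1 s
    rw [one_smul] at this
    rw [this, hp, hq]; ring
  have h2 : Fib z u v b D ⊆ insert (seg z q) (π '' R) := by
    rintro _ ⟨w, hw0, rfl, hw1, hw2, hw3⟩
    obtain ⟨α, β, rfl⟩ := hw w hw1
    by_cases hα : α = 0
    · left
      subst hα
      have hβ : β ≠ 0 := by rintro rfl; simp at hw0
      rw [zero_smul, zero_add]
      have := seg_smul hz hpq.ne' one_ne_zero hβ
      rwa [one_smul] at this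
    · right
      have e : α • p + β • q = α • (p + (β / α) • q) := by
        rw [smul_add, smul_smul, mul_div_cancel₀ _ hα]
      rw [e] at hw2 hw3 ⊢
      refine ⟨β / α, ⟨?_, ?_⟩, ?_⟩
      · rw [lp_eval]
        rw [dot_smul_pow] at hw3
        exact (mul_eq_zero.1 hw3).resolve_left (pow_ne_zero _ hα)
      · rw [lp_eval, pow_one]
        rw [dot_smul_right] at hw2
        exact (mul_eq_zero.1 hw2).resolve_left hα
      · have := seg_smul hz (hpq.ne (β / α)) one_ne_zero hα
        rw [one_smul] at this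
        exact this.symm
  have hR : R.Finite := (hf.subset h1).of_finite_image hπ.injOn
  have hRc : R.ncard ≤ D := by
    by_cases hg : lp b p q D = 0
    · by_cases hh : lp v p q 1 = 0
      · exfalso
        have : R = Set.univ := by ext s; simp [R, hg, hh]
        rw [this] at hR
        exact Set.infinite_univ hR
      · calc R.ncard ≤ {s : L | (lp v p q 1).eval s = 0}.ncard :=
              Set.ncard_le_ncard (fun s hs => hs.2) (finite_roots hh)
          _ ≤ 1 := (ncard_roots_le hh).trans (lp_deg _ _ _ _)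
          _ ≤ D := Nat.one_le_iff_ne_zero.2 hD
    · calc R.ncard ≤ {s : L | (lp b p q D).eval s = 0}.ncard :=
            Set.ncard_le_ncard (fun s hs => hs.1) (finite_roots hg)
        _ ≤ D := (ncard_roots_le hg).trans (lp_deg _ _ _ _)
  calc (Fib z u v b D).ncard ≤ (insert (seg z q) (π '' R)).ncard :=
        Set.ncard_le_ncard h2 ((hR.image π).insert _)
    _ ≤ (π '' R).ncard + 1 := Set.ncard_insert_le _ _
    _ ≤ D + 1 := Nat.add_le_add_right ((Set.ncard_image_le hR).trans hRc) 1

theorem fib_zero [IsAlgClosed L] [CharZero L] {z : Fin 2 → L} (hz : z ≠ 0)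
    (b : Fin 3 → L) {D : ℕ} (hD : D ≠ 0) : (Fib z 0 0 b D).Infinite := by
  by_cases hb : b 2 = 0
  · have hi : Indep (![1, 0, 0] : Fin 3 → L) ![0, 1, 0] := by
      intro α β h
      have h0 := congrFun h 0
      have h1 := congrFun h 1
      simp at h0 h1
      exact ⟨h0, h1⟩
    obtain ⟨α, β, h1, h2⟩ := exists_on_line hi b hD
    have h3 : α ≠ 0 ∨ β ≠ 0 := by
      by_contra h4
      push Not at h4
      rw [h4.1, h4.2] at h1
      simp at h1
    have hne : ∀ r : L, (![α, β, r] : Fin 3 → L) ≠ 0 := by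
      intro r h
      have h0 := congrFun h 0
      have h1 := congrFun h 1
      simp at h0 h1
      tauto
    refine Set.infinite_of_injective_forall_mem (f := fun r : L => seg z ![α, β, r]) ?_ ?_
    · intro r r' h
      obtain ⟨c, d, -, -, -, h5⟩ := seg_inj hz (hne r') hz (hne r) h
      have h0 := congrFun h5 0
      have h1 := congrFun h5 1
      have h2 := congrFun h5 2
      simp at h0 h1 h2
      have : d = 1 := by
        rcases h3 with h3 | h3
        · exact mul_right_cancel₀ h3 (by rw [one_mul]; exact h0.symm)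
        · exact mul_right_cancel₀ h3 (by rw [one_mul]; exact h1.symm)
      rw [h2, this, one_mul]
    · intro r
      refine ⟨_, hne r, rfl, dot_zero _, dot_zero _, ?_⟩
      simp [dot, Fin.sum_univ_three, hb] at h2 ⊢
      exact h2
  · have hi : ∀ r : L, Indep (![1, r, 0] : Fin 3 → L) ![0, 0, 1] := by
      intro r α β h
      have h0 := congrFun h 0
      have h1 := congrFun h 2
      simp at h0 h1
      exact ⟨h0, h1⟩
    choose α β h1 h2 using fun r : L => exists_on_line (hi r) b hD
    have hα : ∀ r, α r ≠ 0 := by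
      intro r h0
      have h3 := h2 r
      have h4 := h1 r
      rw [h0] at h3 h4
      simp [dot, Fin.sum_univ_three, hb, hD] at h3
      rw [h3] at h4
      simp at h4
    refine Set.infinite_of_injective_forall_mem
      (f := fun r : L => seg z (α r • ![1, r, 0] + β r • ![0, 0, 1])) ?_ ?_
    · intro r r' h
      obtain ⟨c, d, -, -, -, h5⟩ := seg_inj hz (h1 r') hz (h1 r) h
      have h0 := congrFun h5 0
      have h1 := congrFun h5 1
      simp at h0 h1
      rw [← mul_assoc, ← h0] at h1
      exact mul_left_cancel₀ (hα r) h1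
    · intro r
      exact ⟨_, h1 r, rfl, dot_zero _, dot_zero _, h2 r⟩

theorem fib_le [IsAlgClosed L] [CharZero L] {z : Fin 2 → L} (hz : z ≠ 0)
    (u v b : Fin 3 → L) {D : ℕ} (hD : D ≠ 0) (hf : (Fib z u v b D).Finite) :
    (Fib z u v b D).ncard ≤ D + 1 := by
  by_cases hu : u = 0
  · by_cases hv : v = 0
    · subst hu hv
      exact absurd hf (fib_zero hz b hD)
    · rw [Fib_comm] at hf ⊢
      exact fib_line hz hv u b hD hf
  · exact fib_line hz hu v b hD hf

end Pool.Agent.H99Z.SDD
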