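import Pool.Agent.H99Z.SDDB

set_option autoImplicit false

namespace Pool.Agent.H99Z.SDD

open Projectivization Polynomial

variable {L : Type} [Field L]

def lin (a : Fin 2 × Fin 3 → L) (z : Fin 2 → L) : Fin 3 → L :=
  fun j => a (0, j) * z 0 + a (1, j) * z 1

theorem onHyp_seg' (a : Fin 2 × Fin 3 → L) {z : Fin 2 → L} {w : Fin 3 → L} (hz : z ≠ 0)
    (hw : w ≠ 0) : OnHyp a (seg z w) ↔ dot (lin a z) w = 0 := onHyp_seg a hz hw

theorem z1_ne (t : L) : (![1, t] : Fin 2 → L) ≠ 0 := fun h => one_ne_zero (congrFun h 0)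

theorem z0_ne : (![0, 1] : Fin 2 → L) ≠ 0 := fun h => one_ne_zero (congrFun h 1)

theorem seg_norm {z : Fin 2 → L} {w : Fin 3 → L} (hz : z ≠ 0) (hw : w ≠ 0) :
    seg z w = seg ![0, 1] w ∨ ∃ t, seg z w = seg ![1, t] w := by
  by_cases h : z 0 = 0
  · left
    have h1 : z 1 ≠ 0 := by
      intro h1; apply hz; funext i; fin_cases i <;> simp [h, h1]
    have h2 : z = z 1 • ![0, 1] := by funext i; fin_cases i <;> simp [h]
    have := seg_smul (z0_ne (L := L)) hw h1 one_ne_zero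
    rwa [one_smul, ← h2] at this
  · right
    refine ⟨z 1 / z 0, ?_⟩
    have h2 : z = z 0 • ![1, z 1 / z 0] := by
      funext i; fin_cases i <;> simp
      field_simp
    have := seg_smul (z1_ne (z 1 / z 0)) hw h one_ne_zero
    rwa [one_smul, ← h2] at this

theorem seg_t_inj {t t' : L} {w w' : Fin 3 → L} (hw : w ≠ 0) (hw' : w' ≠ 0)
    (h : seg ![1, t] w = seg ![1, t'] w') : t = t' := by
  obtain ⟨c, d, -, -, h1, -⟩ := seg_inj (z1_ne t') hw' (z1_ne t) hw h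
  have h0 := congrFun h1 0
  have h2 := congrFun h1 1
  simp at h0 h2
  rw [h2, ← h0, one_mul]

/-- the fibre of the intersection over `z` -/
def FF (m : ℕ) (a₀ : Fin 2 × Fin 3 → L) (a : Fin 2 → Fin 2 × Fin 3 → L) (z : Fin 2 → L) :=
  Fib z (lin (a 0) z) (lin (a 1) z) (lin a₀ (z ^ 3 ^ m)) (2 ^ m)

theorem mem_cut (m : ℕ) (a₀ : Fin 2 × Fin 3 → L) (a : Fin 2 → Fin 2 × Fin 3 → L)
    {z : Fin 2 → L} {w : Fin 3 → L} (hz : z ≠ 0) (hw : w ≠ 0) :
    seg z w ∈ cut (XX L) (ff^[m]) a₀ a ↔ dot (lin (a 0) z) w = 0 ∧ dot (lin (a 1) z) w = 0 ∧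
      dot (lin a₀ (z ^ 3 ^ m)) (w ^ 2 ^ m) = 0 := by
  unfold cut
  simp only [Set.mem_ofPred_eq, Fin.forall_fin_two]
  rw [ff_iter m hz hw, onHyp_seg' _ hz hw, onHyp_seg' _ hz hw,
    onHyp_seg' _ (pw_ne hz _) (pw_ne hw _)]
  constructor
  · rintro ⟨-, h1, h2, h3⟩; exact ⟨h2, h3, h1⟩
  · rintro ⟨h1, h2, h3⟩; exact ⟨⟨z, w, hz, hw, rfl⟩, h3, h1, h2⟩

theorem FF_sub (m : ℕ) (a₀ : Fin 2 × Fin 3 → L) (a : Fin 2 → Fin 2 × Fin 3 → L)
    {z : Fin 2 → L} (hz : z ≠ 0) : FF m a₀ a z ⊆ cut (XX L) (ff^[m]) a₀ a := by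
  rintro _ ⟨w, hw, rfl, h⟩
  exact (mem_cut m a₀ a hz hw).2 h

theorem cut_sub (m : ℕ) (a₀ : Fin 2 × Fin 3 → L) (a : Fin 2 → Fin 2 × Fin 3 → L)
    {x : Projectivization L (Fin 2 × Fin 3 → L)} (hx : x ∈ cut (XX L) (ff^[m]) a₀ a) :
    x ∈ FF m a₀ a ![0, 1] ∨ ∃ t, x ∈ FF m a₀ a ![1, t] := by
  obtain ⟨z, w, hz, hw, rfl⟩ := hx.1
  rcases seg_norm hz hw with h | ⟨t, h⟩
  · rw [h] at hx ⊢
    exact Or.inl ⟨w, hw, rfl, (mem_cut m a₀ a z0_ne hw).1 hx⟩
  · rw [h] at hx ⊢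
    exact Or.inr ⟨t, w, hw, rfl, (mem_cut m a₀ a (z1_ne t) hw).1 hx⟩

noncomputable def linP (a : Fin 2 × Fin 3 → L) (e : ℕ) (j : Fin 3) : L[X] :=
  C (a (0, j)) + C (a (1, j)) * X ^ e

theorem linP_eval (a : Fin 2 × Fin 3 → L) (e : ℕ) (j : Fin 3) (t : L) :
    (linP a e j).eval t = lin a (![1, t] ^ e) j := by
  simp [linP, lin]

theorem linP_deg (a : Fin 2 × Fin 3 → L) (e : ℕ) (j : Fin 3) : (linP a e j).natDegree ≤ e := by
  unfold linP
  compute_degree

noncomputable def crP (a b : Fin 2 × Fin 3 → L) : Fin 3 → L[X] :=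
  ![linP a 1 1 * linP b 1 2 - linP a 1 2 * linP b 1 1,
    linP a 1 2 * linP b 1 0 - linP a 1 0 * linP b 1 2,
    linP a 1 0 * linP b 1 1 - linP a 1 1 * linP b 1 0]

theorem crP_eval (a b : Fin 2 × Fin 3 → L) (j : Fin 3) (t : L) :
    (crP a b j).eval t = cr (lin a ![1, t]) (lin b ![1, t]) j := by
  fin_cases j <;> simp [crP, cr, linP_eval]

theorem crP_deg (a b : Fin 2 × Fin 3 → L) (j : Fin 3) : (crP a b j).natDegree ≤ 2 := by
  have key : ∀ i k : Fin 3, (linP a 1 i * linP b 1 k - linP a 1 k * linP b 1 i).natDegree ≤ 2 := by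
    intro i k
    refine (natDegree_sub_le _ _).trans (max_le ?_ ?_)
    · exact natDegree_mul_le.trans (add_le_add (linP_deg a 1 i) (linP_deg b 1 k))
    · exact natDegree_mul_le.trans (add_le_add (linP_deg a 1 k) (linP_deg b 1 i))
  fin_cases j
  · exact key 1 2
  · exact key 2 0
  · exact key 0 1

theorem cut_le [IsAlgClosed L] [CharZero L] (m : ℕ) (a₀ : Fin 2 × Fin 3 → L)
    (a : Fin 2 → Fin 2 × Fin 3 → L) (hf : (cut (XX L) (ff^[m]) a₀ a).Finite) :
    (cut (XX L) (ff^[m]) a₀ a).ncard ≤ 9 * 3 ^ m := by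
  classical
  have hD : (2 : ℕ) ^ m ≠ 0 := by positivity
  let c : L → Fin 3 → L := fun t => cr (lin (a 0) ![1, t]) (lin (a 1) ![1, t])
  by_cases hc : ∀ j, crP (a 0) (a 1) j = 0
  · exfalso
    have h1 : ∀ t : L, ∃ w, w ≠ 0 ∧ seg ![1, t] w ∈ cut (XX L) (ff^[m]) a₀ a := by
      intro t
      have h2 : c t = 0 := by
        funext j
        have := crP_eval (a 0) (a 1) j t
        rw [hc j, eval_zero] at this
        exact this.symm
      obtain ⟨p, q, hpq, h3, h4, h5, h6⟩ := line_of_cr h2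
      obtain ⟨α, β, h7, h8⟩ := exists_on_line hpq (lin a₀ (![1, t] ^ 3 ^ m)) hD
      refine ⟨_, h7, (mem_cut m a₀ a (z1_ne t) h7).2 ⟨?_, ?_, h8⟩⟩
      · rw [dot_comb, h3, h4]; ring
      · rw [dot_comb, h5, h6]; ring
    choose w hw1 hw2 using h1
    exact Set.infinite_of_injective_forall_mem (f := fun t : L => seg ![1, t] (w t))
      (fun t t' h => seg_t_inj (hw1 t) (hw1 t') h) hw2 hf
  push Not at hc
  obtain ⟨j₀, hj₀⟩ := hc
  let Bad : Set L := {t | (crP (a 0) (a 1) j₀).eval t = 0}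
  have hBf : Bad.Finite := finite_roots hj₀
  have hBc : Bad.ncard ≤ 2 := (ncard_roots_le hj₀).trans (crP_deg _ _ _)
  have hgood : ∀ t, t ∉ Bad → c t ≠ 0 := by
    intro t ht h0
    apply ht
    change (crP (a 0) (a 1) j₀).eval t = 0
    rw [crP_eval]
    exact congrFun h0 j₀
  let P : L[X] := ∑ j, linP a₀ (3 ^ m) j * crP (a 0) (a 1) j ^ 2 ^ m
  have hPe : ∀ t, P.eval t = dot (lin a₀ (![1, t] ^ 3 ^ m)) (c t ^ 2 ^ m) := by
    intro t
    simp only [P, dot, eval_finsetSum, eval_mul, eval_pow, linP_eval, crP_eval, Pi.pow_apply, c]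
  have hPd : P.natDegree ≤ 3 ^ m + 2 ^ m * 2 := by
    refine natDegree_sum_le_of_forall_le _ _ fun j _ => ?_
    refine natDegree_mul_le.trans (add_le_add (linP_deg _ _ _) (natDegree_pow_le.trans ?_))
    exact Nat.mul_le_mul_left _ (crP_deg _ _ _)
  have hP : P ≠ 0 := by
    intro h0
    have h1 : (Badᶜ).Infinite := hBf.infinite_compl
    have h2 : (fun t : L => seg ![1, t] (c t)) '' Badᶜ ⊆ cut (XX L) (ff^[m]) a₀ a := by
      rintro _ ⟨t, ht, rfl⟩
      refine (mem_cut m a₀ a (z1_ne t) (hgood t ht)).2 ⟨dot_cr_left _ _, dot_cr_right _ _, ?_⟩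
      rw [← hPe, h0, eval_zero]
    exact h1 ((hf.subset h2).of_finite_image
      (fun t ht t' ht' h => seg_t_inj (hgood t ht) (hgood t' ht') h))
  have hF : ∀ z : Fin 2 → L, z ≠ 0 → (FF m a₀ a z).Finite ∧ (FF m a₀ a z).ncard ≤ 2 ^ m + 1 := by
    intro z hz
    have := hf.subset (FF_sub m a₀ a hz)
    exact ⟨this, fib_le hz _ _ _ hD this⟩
  let U : Finset (Projectivization L (Fin 2 × Fin 3 → L)) :=
    hBf.toFinset.biUnion (fun t => (hF ![1, t] (z1_ne t)).1.toFinset)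
  have hU : U.card ≤ 2 * (2 ^ m + 1) := by
    refine (Finset.card_biUnion_le_card_mul _ _ (2 ^ m + 1) fun t _ => ?_).trans ?_
    · rw [← Set.ncard_eq_toFinset_card _ (hF _ (z1_ne t)).1]
      exact (hF _ (z1_ne t)).2
    · rw [← Set.ncard_eq_toFinset_card _ hBf]
      exact Nat.mul_le_mul_right _ hBc
  have hsub : cut (XX L) (ff^[m]) a₀ a ⊆ (FF m a₀ a ![0, 1] ∪ ↑U) ∪
      (fun t : L => seg ![1, t] (c t)) '' {t | P.eval t = 0} := by
    intro x hx
    rcases cut_sub m a₀ a hx with h | ⟨t, h⟩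
    · exact Or.inl (Or.inl h)
    · by_cases ht : t ∈ Bad
      · refine Or.inl (Or.inr ?_)
        simp only [U, Finset.coe_biUnion, Set.mem_iUnion]
        exact ⟨t, by simpa using ht, by simpa using h⟩
      · obtain ⟨w, hw, rfl, h1, h2, h3⟩ := h
        obtain ⟨l, hl⟩ := par (hgood t ht) (cr_cr h1 h2)
        have hl0 : l ≠ 0 := by rintro rfl; exact hw (by rw [hl, zero_smul])
        refine Or.inr ⟨t, ?_, ?_⟩
        · change P.eval t = 0
          rw [hl, dot_smul_pow] at h3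
          rw [hPe]
          exact (mul_eq_zero.1 h3).resolve_left (pow_ne_zero _ hl0)
        · have := seg_smul (z1_ne t) (hgood t ht) one_ne_zero hl0
          rw [one_smul] at this
          rw [hl]
          exact this.symm
  have h23 : 2 ^ m ≤ 3 ^ m := Nat.pow_le_pow_left (by norm_num) m
  have h13 : 1 ≤ 3 ^ m := Nat.one_le_pow _ _ (by norm_num)
  have e1 := Set.ncard_le_ncard hsub
    (((hF _ z0_ne).1.union U.finite_toSet).union ((finite_roots hP).image _))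
  have e2 := Set.ncard_union_le (FF m a₀ a ![0, 1] ∪ ↑U)
    ((fun t : L => seg ![1, t] (c t)) '' {t | P.eval t = 0})
  have e3 := Set.ncard_union_le (FF m a₀ a ![0, 1]) (↑U)
  have e4 := (Set.ncard_image_le (f := fun t : L => seg ![1, t] (c t)) (finite_roots hP)).trans
    ((ncard_roots_le hP).trans hPd)
  have e5 := (hF _ z0_ne).2
  rw [Set.ncard_coe_finset] at e3
  omega

theorem ncard_unity [IsAlgClosed L] [CharZero L] {e : ℕ} (he : e ≠ 0) :
    {t : L | t ^ e = 1}.Finite ∧ {t : L | t ^ e = 1}.ncard = e := by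
  classical
  have : NeZero e := ⟨he⟩
  obtain ⟨ζ, hζ⟩ := HasEnoughRootsOfUnity.exists_primitiveRoot L e
  have h : {t : L | t ^ e = 1} = ↑(nthRootsFinset e (1 : L)) := by
    ext t
    simp [mem_nthRootsFinset (Nat.pos_of_ne_zero he)]
  rw [h, Set.ncard_coe_finset]
  exact ⟨Finset.finite_toSet _, hζ.card_nthRootsFinset⟩

theorem cut_ge [IsAlgClosed L] [CharZero L] (m : ℕ) : ∃ (a₀ : Fin 2 × Fin 3 → L)
    (a : Fin 2 → Fin 2 × Fin 3 → L), (cut (XX L) (ff^[m]) a₀ a).Finite ∧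
      3 ^ m ≤ (cut (XX L) (ff^[m]) a₀ a).ncard := by
  have hE : (3 : ℕ) ^ m ≠ 0 := by positivity
  have hD : (2 : ℕ) ^ m ≠ 0 := by positivity
  let a₀ : Fin 2 × Fin 3 → L := fun p => ![![-1, 0, 0], ![1, 0, 0]] p.1 p.2
  let a : Fin 2 → Fin 2 × Fin 3 → L := ![fun p => ![![0, 1, 0], ![-1, 0, 0]] p.1 p.2,
    fun p => ![![0, 0, 1], ![0, -1, 0]] p.1 p.2]
  have hne : ∀ t : L, (![1, t, t ^ 2] : Fin 3 → L) ≠ 0 := fun t h => one_ne_zero (congrFun h 0)
  have hne' : (![0, 0, 1] : Fin 3 → L) ≠ 0 := fun h => one_ne_zero (congrFun h 2)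
  obtain ⟨hu1, hu2⟩ := ncard_unity (L := L) hE
  let π : L → Projectivization L (Fin 2 × Fin 3 → L) := fun t => seg ![1, t] ![1, t, t ^ 2]
  have hπ : Function.Injective π := fun t t' h => seg_t_inj (hne t) (hne t') h
  have h1 : π '' {t : L | t ^ 3 ^ m = 1} ⊆ cut (XX L) (ff^[m]) a₀ a := by
    rintro _ ⟨t, ht, rfl⟩
    refine (mem_cut m a₀ a (z1_ne t) (hne t)).2 ⟨?_, ?_, ?_⟩
    · simp [dot, lin, a, Fin.sum_univ_three]
    · simp [dot, lin, a, Fin.sum_univ_three]; ring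
    · have ht' : t ^ 3 ^ m = 1 := ht
      simp [dot, lin, a₀, Fin.sum_univ_three, ht']
  have h2 : cut (XX L) (ff^[m]) a₀ a ⊆
      insert (seg ![0, 1] ![0, 0, 1]) (π '' {t : L | t ^ 3 ^ m = 1}) := by
    intro x hx
    rcases cut_sub m a₀ a hx with ⟨w, hw, rfl, h3, h4, -⟩ | ⟨t, w, hw, rfl, h3, h4, h5⟩
    · left
      simp [dot, lin, a, Fin.sum_univ_three] at h3 h4
      have h6 : w = w 2 • ![0, 0, 1] := by
        funext j; fin_cases j <;> simp [h3, h4]
      have h7 : w 2 ≠ 0 := by intro h; apply hw; rw [h6, h, zero_smul]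
      have := seg_smul (z0_ne (L := L)) hne' one_ne_zero h7
      rwa [one_smul, ← h6] at this
    · right
      simp [dot, lin, a, Fin.sum_univ_three] at h3 h4
      simp [dot, lin, a₀, Fin.sum_univ_three] at h5
      have h6 : w = w 0 • ![1, t, t ^ 2] := by
        funext j; fin_cases j <;> simp
        · linear_combination h3
        · linear_combination h4 + t * h3
      have h7 : w 0 ≠ 0 := by intro h; apply hw; rw [h6, h, zero_smul]
      refine ⟨t, ?_, ?_⟩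
      · rcases h5 with h5 | h5
        · change t ^ 3 ^ m = 1
          linear_combination h5
        · exact absurd h5 h7
      · have := seg_smul (z1_ne t) (hne t) one_ne_zero h7
        rw [one_smul, ← h6] at this
        exact this.symm
  have hf : (cut (XX L) (ff^[m]) a₀ a).Finite := ((hu1.image π).insert _).subset h2
  refine ⟨a₀, a, hf, ?_⟩
  have := Set.ncard_le_ncard h1 hf
  rwa [Set.ncard_image_of_injective _ hπ, hu2] at this

theorem hasDim_XX [IsAlgClosed L] : HasDim (XX L) 3 := by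
  constructor
  · intro a
    let A : Matrix (Fin 3) (Fin 3) L := fun i j => a i (0, j)
    let B : Matrix (Fin 3) (Fin 3) L := fun i j => a i (1, j)
    by_cases hB : B.det = 0
    · obtain ⟨w, hw, h⟩ := Matrix.exists_mulVec_eq_zero_iff.2 hB
      refine ⟨seg ![0, 1] w, ⟨_, _, z0_ne, hw, rfl⟩, fun i => ?_⟩
      rw [onHyp_seg' _ z0_ne hw]
      have := congrFun h i
      simpa [dot, lin, B, Matrix.mulVec, dotProduct] using this
    · obtain ⟨t, ht⟩ := Module.End.exists_eigenvalue (Matrix.toLin' (-(B⁻¹ * A)))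
      obtain ⟨w, hw⟩ := ht.exists_hasEigenvector
      have h1 := hw.apply_eq_smul
      rw [Matrix.toLin'_apply] at h1
      have h2 : A.mulVec w + t • B.mulVec w = 0 := by
        rw [← Matrix.mulVec_smul, ← h1, Matrix.mulVec_mulVec, Matrix.mul_neg, ← Matrix.mul_assoc,
          Matrix.mul_nonsing_inv _ (isUnit_iff_ne_zero.2 hB), Matrix.one_mul, Matrix.neg_mulVec,
          add_neg_cancel]
      refine ⟨seg ![1, t] w, ⟨_, _, z1_ne t, hw.2, rfl⟩, fun i => ?_⟩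
      rw [onHyp_seg' _ (z1_ne t) hw.2]
      have := congrFun h2 i
      simp [A, B, Matrix.mulVec, dotProduct, Fin.sum_univ_three] at this
      simp [dot, lin, Fin.sum_univ_three]
      linear_combination this
  · refine ⟨![fun p => ![![1, 0, 0], ![0, 0, 0]] p.1 p.2, fun p => ![![0, 1, 0], ![1, 0, 0]] p.1 p.2,
      fun p => ![![0, 0, 1], ![0, 1, 0]] p.1 p.2, fun p => ![![0, 0, 0], ![0, 0, 1]] p.1 p.2], ?_⟩
    rintro _ ⟨z, w, hz, hw, rfl⟩
    by_contra hc
    push Not at hc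
    have h0 := (onHyp_seg' _ hz hw).1 (hc 0)
    have h1 := (onHyp_seg' _ hz hw).1 (hc 1)
    have h2 := (onHyp_seg' _ hz hw).1 (hc 2)
    have h3 := (onHyp_seg' _ hz hw).1 (hc 3)
    simp [dot, lin, Fin.sum_univ_three] at h0 h1 h2 h3
    apply hw
    by_cases hz0 : z 0 = 0
    · have hz1 : z 1 ≠ 0 := by
        intro h; apply hz; funext i; fin_cases i <;> simp [hz0, h]
      simp [hz0, hz1] at h1 h2 h3
      funext j; fin_cases j <;> simp [h1, h2, h3]
    · have e0 : w 0 = 0 := h0.resolve_left hz0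
      simp [e0, hz0] at h1
      simp [h1, hz0] at h2
      funext j; fin_cases j <;> simp [e0, h1, h2]

theorem dynDeg_XX [IsAlgClosed L] [CharZero L] (s : ℕ) :
    HasDynDeg (XX L) (ff^[s]) ((3 ^ s : ℕ) : ℝ) := by
  refine hasDynDeg_of _ _ 2 hasDim_XX (3 ^ s) 9 (by positivity) (by norm_num) ?_ ?_
  · intro n
    rw [← Function.iterate_mul, ← pow_mul]
    exact cut_ge _
  · intro n
    rw [← Function.iterate_mul, ← pow_mul]
    exact cut_le _

end Pool.Agent.H99Z.SDD
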