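import Pool.Agent.H99Z.SDDC

set_option autoImplicit false

namespace Pool.Agent.H99Z.SDD

open Projectivization MvPolynomial

variable {L : Type} [Field L]

theorem closed_XX (K : Type) [Field K] [Algebra K L] : IsClosedOver K (XX L) := by
  refine ⟨Set.range (fun q : (Fin 2 × Fin 3) × (Fin 2 × Fin 3) =>
    (X q.1 * X q.2 - X (q.1.1, q.2.2) * X (q.2.1, q.1.2) : MvPolynomial (Fin 2 × Fin 3) K)), ?_, ?_⟩
  · rintro _ ⟨q, rfl⟩
    exact ⟨2, ((isHomogeneous_X K _).mul (isHomogeneous_X K _)).sub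
      ((isHomogeneous_X K _).mul (isHomogeneous_X K _))⟩
  · ext x
    constructor
    · rintro ⟨z, w, hz, hw, rfl⟩ _ ⟨q, rfl⟩
      rw [seg_eq hz hw, aeval_mk (e := 2) (((isHomogeneous_X K _).mul (isHomogeneous_X K _)).sub
        ((isHomogeneous_X K _).mul (isHomogeneous_X K _)))]
      simp only [map_sub, map_mul, aeval_X, tens]
      ring
    · intro hx
      have h : ∀ p q : Fin 2 × Fin 3,
          x.rep p * x.rep q - x.rep (p.1, q.2) * x.rep (q.1, p.2) = 0 := by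
        intro p q
        have := hx _ ⟨(p, q), rfl⟩
        simpa only [map_sub, map_mul, aeval_X] using this
      obtain ⟨p₀, hp₀⟩ := Function.ne_iff.1 x.rep_nonzero
      simp only [Pi.zero_apply] at hp₀
      have ht : tens (fun i => x.rep (i, p₀.2)) (fun j => x.rep (p₀.1, j) / x.rep p₀) = x.rep := by
        funext p
        simp only [tens]
        field_simp
        linear_combination -h p p₀
      have hne := ne_of_tens (ht ▸ x.rep_nonzero)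
      refine ⟨_, _, hne.1, hne.2, ?_⟩
      rw [seg_eq hne.1 hne.2]
      simp only [ht, mk_rep]

theorem variety_XX [Infinite L] : IsVariety (XX L) := by
  refine ⟨closed_XX L, ⟨_, _, _, z0_ne, (fun h => one_ne_zero (congrFun h 0) :
    (fun _ => 1 : Fin 3 → L) ≠ 0), rfl⟩, ?_⟩
  refine irred_param (σ := Fin 2 ⊕ Fin 3) (fun p => X (Sum.inl p.1) * X (Sum.inr p.2)) _ ?_
  intro x
  constructor
  · rintro ⟨z, w, hz, hw, rfl⟩
    have e : (fun p : Fin 2 × Fin 3 => eval (Sum.elim z w)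
        (X (Sum.inl p.1) * X (Sum.inr p.2) : MvPolynomial (Fin 2 ⊕ Fin 3) L)) = tens z w := by
      funext p; simp [tens]
    refine ⟨Sum.elim z w, e ▸ tens_ne hz hw, ?_⟩
    rw [seg_eq hz hw]
    simp only [e]
  · rintro ⟨v, h, rfl⟩
    have e : (fun p : Fin 2 × Fin 3 => eval v
        (X (Sum.inl p.1) * X (Sum.inr p.2) : MvPolynomial (Fin 2 ⊕ Fin 3) L))
        = tens (fun i => v (Sum.inl i)) (fun j => v (Sum.inr j)) := by
      funext p; simp [tens]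
    have hne := ne_of_tens (e ▸ h)
    refine ⟨_, _, hne.1, hne.2, ?_⟩
    rw [seg_eq hne.1 hne.2]
    simp only [e]

theorem morph_ff (K : Type) [Field K] [Algebra K L] : IsMorphismOver K (XX L) ff := by
  rintro _ ⟨z, w, hz, hw, rfl⟩
  obtain ⟨l, hl⟩ := Function.ne_iff.1 hw
  simp only [Pi.zero_apply] at hl
  have key : ∀ (z : Fin 2 → L) (w : Fin 3 → L), z ≠ 0 → w ≠ 0 → ∃ c : L, c ≠ 0 ∧
      (fun p : Fin 2 × Fin 3 => aeval (seg z w).rep
        (X p ^ 2 * X (p.1, l) : MvPolynomial (Fin 2 × Fin 3) K))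
        = (c * w l) • tens (z ^ 3) (w ^ 2) := by
    intro z w hz hw
    obtain ⟨c, hc, h⟩ := rep_mk (tens z w) (tens_ne hz hw)
    refine ⟨c ^ 3, pow_ne_zero _ hc, ?_⟩
    rw [seg_eq hz hw, h]
    funext p
    simp only [map_mul, map_pow, aeval_X, tens, Pi.smul_apply, smul_eq_mul, Pi.pow_apply]
    ring
  refine ⟨3, fun p => X p ^ 2 * X (p.1, l), fun p =>
    ((isHomogeneous_X K _).pow 2).mul (isHomogeneous_X K _), ?_, ?_⟩
  · obtain ⟨c, hc, h⟩ := key z w hz hw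
    rw [h]
    exact smul_ne_zero (mul_ne_zero hc hl) (tens_ne (pw_ne hz 3) (pw_ne hw 2))
  · rintro _ ⟨z', w', hz', hw', rfl⟩ h0
    obtain ⟨c, hc, h⟩ := key z' w' hz' hw'
    rw [ff_seg hz' hw', seg_eq (pw_ne hz' 3) (pw_ne hw' 2)]
    symm
    rw [mk_eq_mk_iff']
    exact ⟨c * w' l, h.symm⟩

theorem root_vec [IsAlgClosed L] {n : ℕ} {z : Fin n → L} (hz : z ≠ 0) {e : ℕ} (he : 0 < e) :
    ∃ z' : Fin n → L, z' ≠ 0 ∧ z' ^ e = z := by
  choose z' hz' using fun i => IsAlgClosed.exists_pow_nat_eq (z i) he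
  have h : z' ^ e = z := funext hz'
  refine ⟨z', ?_, h⟩
  rintro rfl
  apply hz
  rw [← h, zero_pow he.ne']

theorem surj_ff [IsAlgClosed L] : ff '' XX L = XX L := by
  ext x
  constructor
  · rintro ⟨_, ⟨z, w, hz, hw, rfl⟩, rfl⟩
    exact ⟨_, _, pw_ne hz 3, pw_ne hw 2, ff_seg hz hw⟩
  · rintro ⟨z, w, hz, hw, rfl⟩
    obtain ⟨z', hz', rfl⟩ := root_vec hz (e := 3) (by norm_num)
    obtain ⟨w', hw', rfl⟩ := root_vec hw (e := 2) (by norm_num)
    exact ⟨_, ⟨z', w', hz', hw', rfl⟩, ff_seg hz' hw'⟩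

/-- the line `y = ζ x` over the fixed point of the first factor -/
def YY (ζ : L) : Set (Projectivization L (Fin 2 × Fin 3 → L)) :=
  {x | ∃ w : Fin 3 → L, w ≠ 0 ∧ w 1 = ζ * w 0 ∧ x = seg ![1, 0] w}

theorem YY_sub (ζ : L) : YY ζ ⊆ XX L := by
  rintro _ ⟨w, hw, -, rfl⟩
  exact ⟨_, _, z1_ne 0, hw, rfl⟩

theorem closed_YY (ζ : L) : IsClosedOver L (YY ζ) := by
  have hh : (X (0, 1) - C ζ * X (0, 0) : MvPolynomial (Fin 2 × Fin 3) L).IsHomogeneous 1 :=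
    (isHomogeneous_X L _).sub ((isHomogeneous_X L _).C_mul ζ)
  refine ⟨insert (X (0, 1) - C ζ * X (0, 0)) (Set.range fun j : Fin 3 => X (1, j)), ?_, ?_⟩
  · rintro _ (rfl | ⟨j, rfl⟩)
    · exact ⟨1, hh⟩
    · exact ⟨1, isHomogeneous_X L _⟩
  · ext x
    constructor
    · rintro ⟨w, hw, h, rfl⟩ _ (rfl | ⟨j, rfl⟩)
      · rw [seg_eq (z1_ne 0) hw, aeval_mk hh]
        simp [tens, h]
      · rw [seg_eq (z1_ne 0) hw, aeval_mk (isHomogeneous_X L _)]
        simp [tens]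
    · intro hx
      have h1 : x.rep (0, 1) - ζ * x.rep (0, 0) = 0 := by
        simpa using hx _ (Or.inl rfl)
      have h2 : ∀ j, x.rep (1, j) = 0 := fun j => by
        simpa using hx _ (Or.inr ⟨j, rfl⟩)
      have ht : tens ![1, 0] (fun j => x.rep (0, j)) = x.rep := by
        funext ⟨i, j⟩
        fin_cases i <;> simp [tens, h2]
      have hne := ne_of_tens (ht ▸ x.rep_nonzero)
      refine ⟨_, hne.2, by linear_combination h1, ?_⟩
      rw [seg_eq hne.1 hne.2]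
      simp only [ht, mk_rep]

theorem e2_ne : (![0, 0, 1] : Fin 3 → L) ≠ 0 := fun h => one_ne_zero (congrFun h 2)

theorem pt_mem (ζ : L) : seg ![1, 0] ![0, 0, 1] ∈ YY ζ := ⟨_, e2_ne, by simp, rfl⟩

theorem variety_YY [Infinite L] (ζ : L) : IsVariety (YY ζ) := by
  refine ⟨closed_YY ζ, ⟨_, pt_mem ζ⟩, ?_⟩
  have e : ∀ v : Fin 2 → L, (fun p : Fin 2 × Fin 3 => eval v
      (![![X 0, C ζ * X 0, X 1], ![0, 0, 0]] p.1 p.2 : MvPolynomial (Fin 2) L))
      = tens ![1, 0] ![v 0, ζ * v 0, v 1] := by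
    intro v
    funext ⟨i, j⟩
    fin_cases i <;> fin_cases j <;> simp [tens]
  refine irred_param (σ := Fin 2) (fun p => ![![X 0, C ζ * X 0, X 1], ![0, 0, 0]] p.1 p.2) _ ?_
  intro x
  constructor
  · rintro ⟨w, hw, h, rfl⟩
    have e2 : (![(![w 0, w 2] : Fin 2 → L) 0, ζ * (![w 0, w 2] : Fin 2 → L) 0,
        (![w 0, w 2] : Fin 2 → L) 1] : Fin 3 → L) = w := by
      funext j; fin_cases j <;> simp [h]
    have e3 := e ![w 0, w 2]
    rw [e2] at e3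
    refine ⟨![w 0, w 2], e3 ▸ tens_ne (z1_ne 0) hw, ?_⟩
    rw [seg_eq (z1_ne 0) hw]
    simp only [e3]
  · rintro ⟨v, h, rfl⟩
    have hne := ne_of_tens (e v ▸ h)
    refine ⟨_, hne.2, by simp, ?_⟩
    rw [seg_eq hne.1 hne.2]
    simp only [e v]

theorem e0_pow (m : ℕ) : (![1, 0] : Fin 2 → L) ^ 3 ^ m = ![1, 0] := by
  funext i; fin_cases i <;> simp

theorem image_YY [IsAlgClosed L] (ζ : L) (m : ℕ) : ff^[m] '' YY ζ = YY (ζ ^ 2 ^ m) := by
  ext x
  constructor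
  · rintro ⟨_, ⟨w, hw, h, rfl⟩, rfl⟩
    refine ⟨w ^ 2 ^ m, pw_ne hw _, by simp [h, mul_pow], ?_⟩
    rw [ff_iter m (z1_ne 0) hw, e0_pow]
  · rintro ⟨w, hw, h, rfl⟩
    obtain ⟨α, hα⟩ := IsAlgClosed.exists_pow_nat_eq (w 0) (n := 2 ^ m) (by positivity)
    obtain ⟨β, hβ⟩ := IsAlgClosed.exists_pow_nat_eq (w 2) (n := 2 ^ m) (by positivity)
    have e : (![α, ζ * α, β] : Fin 3 → L) ^ 2 ^ m = w := by
      funext j; fin_cases j <;> simp [hα, hβ, h, mul_pow]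
    have hne : (![α, ζ * α, β] : Fin 3 → L) ≠ 0 := by
      intro h0; apply hw; rw [← e, h0, zero_pow (by positivity)]
    refine ⟨_, ⟨_, hne, by simp, rfl⟩, ?_⟩
    rw [ff_iter m (z1_ne 0) hne, e0_pow, e]

theorem YY_inj {ζ ζ' : L} (h : YY ζ = YY ζ') : ζ = ζ' := by
  have hne : (![1, ζ, 0] : Fin 3 → L) ≠ 0 := fun h => one_ne_zero (congrFun h 0)
  have h1 : seg ![1, 0] ![1, ζ, 0] ∈ YY ζ := ⟨_, hne, by simp, rfl⟩
  rw [h] at h1
  obtain ⟨w, hw, h2, h3⟩ := h1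
  obtain ⟨c, d, -, -, -, h4⟩ := seg_inj (z1_ne 0) hw (z1_ne 0) hne h3
  have h5 := congrFun h4 0
  have h6 := congrFun h4 1
  simp at h5 h6
  rw [h6, h2]
  linear_combination (-ζ') * h5

theorem hasDim_YY (ζ : L) : HasDim (YY ζ) 1 := by
  constructor
  · intro a
    by_cases h : a 0 (0, 2) = 0
    · refine ⟨_, pt_mem ζ, fun j => ?_⟩
      rw [Subsingleton.elim j 0, onHyp_seg' _ (z1_ne 0) e2_ne]
      simp [dot, lin, Fin.sum_univ_three, h]
    · have hne : (![a 0 (0, 2), ζ * a 0 (0, 2), -(a 0 (0, 0) + a 0 (0, 1) * ζ)] : Fin 3 → L) ≠ 0 :=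
        fun h0 => h (congrFun h0 0)
      refine ⟨_, ⟨_, hne, by simp, rfl⟩, fun j => ?_⟩
      rw [Subsingleton.elim j 0, onHyp_seg' _ (z1_ne 0) hne]
      simp [dot, lin, Fin.sum_univ_three]
      ring
  · refine ⟨![fun p => ![![1, 0, 0], ![0, 0, 0]] p.1 p.2,
      fun p => ![![0, 0, 1], ![0, 0, 0]] p.1 p.2], ?_⟩
    rintro _ ⟨w, hw, h, rfl⟩
    by_contra hc
    push Not at hc
    have h0 := (onHyp_seg' _ (z1_ne 0) hw).1 (hc 0)
    have h1 := (onHyp_seg' _ (z1_ne 0) hw).1 (hc 1)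
    simp [dot, lin, Fin.sum_univ_three] at h0 h1
    apply hw
    funext j; fin_cases j <;> simp [h0, h1, h]

theorem cut_YY (ζ : L) (m : ℕ) (a₀ : Fin 2 × Fin 3 → L) (a : Fin 0 → Fin 2 × Fin 3 → L) :
    cut (YY ζ) (ff^[m]) a₀ a = Fib ![1, 0] ![ζ, -1, 0] 0 (lin a₀ ![1, 0]) (2 ^ m) := by
  ext x
  constructor
  · rintro ⟨⟨w, hw, h, rfl⟩, h1, -⟩
    rw [ff_iter m (z1_ne 0) hw, e0_pow, onHyp_seg' _ (z1_ne 0) (pw_ne hw _)] at h1
    exact ⟨w, hw, rfl, by simp [dot, Fin.sum_univ_three, h], dot_zero _, h1⟩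
  · rintro ⟨w, hw, rfl, h, -, h1⟩
    refine ⟨⟨w, hw, ?_, rfl⟩, ?_, fun j => j.elim0⟩
    · simp [dot, Fin.sum_univ_three] at h
      linear_combination -h
    · rw [ff_iter m (z1_ne 0) hw, e0_pow, onHyp_seg' _ (z1_ne 0) (pw_ne hw _)]
      exact h1

theorem cut_YY_ge [IsAlgClosed L] [CharZero L] (ζ : L) (m : ℕ) : ∃ (a₀ : Fin 2 × Fin 3 → L)
    (a : Fin 0 → Fin 2 × Fin 3 → L), (cut (YY ζ) (ff^[m]) a₀ a).Finite ∧
      2 ^ m ≤ (cut (YY ζ) (ff^[m]) a₀ a).ncard := by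
  have hD : (2 : ℕ) ^ m ≠ 0 := by positivity
  obtain ⟨hu1, hu2⟩ := ncard_unity (L := L) hD
  refine ⟨fun p => ![![-1, 0, 1], ![0, 0, 0]] p.1 p.2, fun j => j.elim0, ?_⟩
  rw [cut_YY]
  have hne : ∀ t : L, (![1, ζ, t] : Fin 3 → L) ≠ 0 := fun t h => one_ne_zero (congrFun h 0)
  let π : L → Projectivization L (Fin 2 × Fin 3 → L) := fun t => seg ![1, 0] ![1, ζ, t]
  have hπ : Function.Injective π := by
    intro t t' h
    obtain ⟨c, d, -, -, -, h4⟩ := seg_inj (z1_ne 0) (hne t') (z1_ne 0) (hne t) h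
    have h5 := congrFun h4 0
    have h6 := congrFun h4 2
    simp at h5 h6
    rw [h6, ← h5, one_mul]
  have h1 : Fib ![1, 0] ![ζ, -1, 0] 0
      (lin (fun p : Fin 2 × Fin 3 => (![![-1, 0, 1], ![0, 0, 0]] p.1 p.2 : L)) ![1, 0]) (2 ^ m)
      = π '' {t : L | t ^ 2 ^ m = 1} := by
    ext x
    constructor
    · rintro ⟨w, hw, rfl, h2, -, h3⟩
      simp [dot, lin, Fin.sum_univ_three] at h2 h3
      have h4 : w 0 ≠ 0 := by
        intro h0
        rw [h0] at h2 h3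
        simp at h2 h3
        apply hw
        funext j; fin_cases j <;> simp [h0, h2, h3]
      have h5 : w = w 0 • ![1, ζ, w 2 / w 0] := by
        funext j; fin_cases j <;> simp
        · linear_combination -h2
        · field_simp
      refine ⟨w 2 / w 0, ?_, ?_⟩
      · change (w 2 / w 0) ^ 2 ^ m = 1
        rw [div_pow, div_eq_one_iff_eq (pow_ne_zero _ h4)]
        linear_combination h3
      · have := seg_smul (z1_ne (0 : L)) (hne (w 2 / w 0)) one_ne_zero h4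
        rw [one_smul, ← h5] at this
        exact this.symm
    · rintro ⟨t, ht, rfl⟩
      have ht' : t ^ 2 ^ m = 1 := ht
      refine ⟨_, hne t, rfl, by simp [dot, Fin.sum_univ_three], dot_zero _, ?_⟩
      simp [dot, lin, Fin.sum_univ_three, ht']
  rw [h1, Set.ncard_image_of_injective _ hπ, hu2]
  exact ⟨hu1.image π, le_rfl⟩

theorem dynDeg_YY [IsAlgClosed L] [CharZero L] (ζ : L) (s : ℕ) :
    HasDynDeg (YY ζ) (ff^[s]) ((2 ^ s : ℕ) : ℝ) := by
  refine hasDynDeg_of _ _ 0 (hasDim_YY ζ) (2 ^ s) 2 (by positivity) (by norm_num) ?_ ?_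
  · intro n
    rw [← Function.iterate_mul, ← pow_mul]
    exact cut_YY_ge _ _
  · intro n a₀ a
    rw [← Function.iterate_mul, ← pow_mul, cut_YY]
    intro hf
    have h1 := fib_le (z1_ne 0) _ _ _ (by positivity) hf
    have h2 : 1 ≤ 2 ^ (s * n) := Nat.one_le_two_pow
    omega

theorem period_YY [IsAlgClosed L] {r : ℕ} (hr : 2 ≤ r) {ζ : L}
    (hζ : IsPrimitiveRoot ζ (2 ^ r - 1)) : HasPeriod ff (YY ζ) r := by
  have h4 : 4 ≤ 2 ^ r := by
    calc 4 = 2 ^ 2 := by norm_num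
      _ ≤ 2 ^ r := Nat.pow_le_pow_right (by norm_num) hr
  have hζ0 : ζ ≠ 0 := hζ.ne_zero (by omega)
  have key : ∀ t : ℕ, ζ ^ 2 ^ t = ζ ^ (2 ^ t - 1) * ζ := by
    intro t
    rw [← pow_succ, Nat.sub_add_cancel Nat.one_le_two_pow]
  constructor
  · refine ⟨by omega, ?_⟩
    rw [image_YY, key, hζ.pow_eq_one, one_mul]
  · rintro t ⟨ht, h⟩
    rw [image_YY] at h
    have h1 := YY_inj h
    rw [key] at h1
    have h2 : ζ ^ (2 ^ t - 1) = 1 := mul_right_cancel₀ hζ0 (by rw [h1, one_mul])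
    have h3 := hζ.dvd_of_pow_eq_one _ h2
    have h5 : 2 ≤ 2 ^ t := by
      calc 2 = 2 ^ 1 := by norm_num
        _ ≤ 2 ^ t := Nat.pow_le_pow_right (by norm_num) ht
    have h6 := Nat.le_of_dvd (by omega) h3
    have h7 : 2 ^ r ≤ 2 ^ t := by omega
    exact (Nat.pow_le_pow_iff_right (by norm_num)).1 h7

theorem deg_pt (K : Type) [Field K] [Algebra K L] :
    ptDegree K (seg (L := L) ![1, 0] ![0, 0, 1]) = 1 := by
  unfold ptDegree
  rw [IntermediateField.finrank_adjoin_eq_one_iff]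
  rintro _ ⟨p, rfl⟩
  obtain ⟨c, hc, h⟩ := rep_mk (tens (L := L) ![1, 0] ![0, 0, 1]) (tens_ne (z1_ne 0) e2_ne)
  rw [seg_eq (z1_ne 0) e2_ne, h]
  have key : ∀ q : Fin 2 × Fin 3, tens (L := L) ![1, 0] ![0, 0, 1] q = 0 ∨
      tens (L := L) ![1, 0] ![0, 0, 1] q = 1 := by
    rintro ⟨i, j⟩
    fin_cases i <;> fin_cases j <;> simp [tens]
  rcases key p.1 with h1 | h1 <;> rcases key p.2 with h2 | h2 <;>
    simp [h1, h2, hc, zero_mem, one_mem]

theorem main (K : Type) [Field K] [Algebra K L] [IsAlgClosed L] [CharZero L] :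
    ∃ (ι : Type) (_ : Fintype ι) (X : Set (Projectivization L (ι → L)))
      (f : Projectivization L (ι → L) → Projectivization L (ι → L)) (δ : ℝ),
      IsClosedOver K X ∧ IsVariety X ∧ IsMorphismOver K X f ∧ f '' X = X ∧
      HasDynDeg X f δ ∧ 1 < δ ∧ ∃ x, ptDegree K x = 1 ∧
      ∀ N : ℕ, ∃ (Y : Set (Projectivization L (ι → L))) (s : ℕ),
        IsVariety Y ∧ Y ⊆ X ∧ HasPeriod f Y s ∧ N < s ∧ IsSDD X f Y ∧ x ∈ Y := by
  refine ⟨Fin 2 × Fin 3, inferInstance, XX L, ff, ((3 ^ 1 : ℕ) : ℝ), closed_XX K, variety_XX,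
    morph_ff K, surj_ff, dynDeg_XX 1, by norm_num, _, deg_pt K, fun N => ?_⟩
  have h4 : 2 ≤ 2 ^ (N + 2) := by
    calc 2 = 2 ^ 1 := by norm_num
      _ ≤ 2 ^ (N + 2) := Nat.pow_le_pow_right (by norm_num) (by omega)
  have : NeZero (2 ^ (N + 2) - 1) := ⟨by omega⟩
  obtain ⟨ζ, hζ⟩ := HasEnoughRootsOfUnity.exists_primitiveRoot L (2 ^ (N + 2) - 1)
  have hp := period_YY (r := N + 2) (by omega) hζ
  refine ⟨YY ζ, N + 2, variety_YY ζ, YY_sub ζ, hp, by omega,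
    ⟨N + 2, by omega, hp.1.2, _, _, dynDeg_YY ζ _, dynDeg_XX _, ?_⟩, pt_mem ζ⟩
  exact_mod_cast Nat.pow_lt_pow_left (by norm_num) (by omega)

end Pool.Agent.H99Z.SDD
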