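import Mathlib

set_option autoImplicit false

/-!
Projective varieties in coordinates, endomorphisms, the first dynamical degree.
Points of projective space over the (algebraically closed) field `L` with homogeneous coordinates
indexed by the finite type `ι` are the elements of `Projectivization L (ι → L)`.
-/

namespace Pool.Agent.H99Z.SDD

open MvPolynomial Filter

variable {L : Type} [Field L] {ι : Type} [Fintype ι]

/-- `X` is the common zero set in projective space over `L` of a family of homogeneous polynomials
with coefficients in the subfield `K`. -/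
def IsClosedOver (K : Type) [Field K] [Algebra K L] (X : Set (Projectivization L (ι → L))) : Prop :=
  ∃ S : Set (MvPolynomial ι K), (∀ F ∈ S, ∃ e : ℕ, F.IsHomogeneous e) ∧
    X = {x | ∀ F ∈ S, aeval x.rep F = 0}

/-- `Y` is an irreducible closed subvariety of projective space over `L`: it is Zariski closed,
nonempty, and is not covered by two Zariski closed sets unless one of them covers it. -/
def IsVariety (Y : Set (Projectivization L (ι → L))) : Prop :=
  IsClosedOver L Y ∧ Y.Nonempty ∧
    ∀ A B : Set (Projectivization L (ι → L)), IsClosedOver L A → IsClosedOver L B →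
      Y ⊆ A ∪ B → Y ⊆ A ∨ Y ⊆ B

/-- `f` restricted to `X` is a morphism defined over `K`: near every point of `X` it is given by
forms of one degree with coefficients in `K` (on the open subset of `X` where these forms do not
all vanish). -/
def IsMorphismOver (K : Type) [Field K] [Algebra K L] (X : Set (Projectivization L (ι → L)))
    (f : Projectivization L (ι → L) → Projectivization L (ι → L)) : Prop :=
  ∀ x ∈ X, ∃ (e : ℕ) (F : ι → MvPolynomial ι K), (∀ i, (F i).IsHomogeneous e) ∧
    (fun i => aeval x.rep (F i)) ≠ 0 ∧
    ∀ y ∈ X, ∀ h : (fun i => aeval y.rep (F i)) ≠ 0,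
      f y = Projectivization.mk L (fun i => aeval y.rep (F i)) h

/-- The point `x` lies on the zero set of the linear form with coefficients `a`. -/
def OnHyp (a : ι → L) (x : Projectivization L (ι → L)) : Prop := ∑ i, a i * x.rep i = 0

/-- `V` has dimension `k`: any `k` linear forms have a common zero on `V`, and some `k + 1` linear
forms have no common zero on `V`. -/
def HasDim (V : Set (Projectivization L (ι → L))) (k : ℕ) : Prop :=
  (∀ a : Fin k → ι → L, ∃ x ∈ V, ∀ j, OnHyp (a j) x) ∧
    ∃ a : Fin (k + 1) → ι → L, ∀ x ∈ V, ∃ j, ¬ OnHyp (a j) x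

/-- The intersection on `V` of the pullback under `g` of the hyperplane `a₀` with the hyperplanes
`a j`. -/
def cut (V : Set (Projectivization L (ι → L)))
    (g : Projectivization L (ι → L) → Projectivization L (ι → L)) {k : ℕ}
    (a₀ : ι → L) (a : Fin k → ι → L) : Set (Projectivization L (ι → L)) :=
  {x | x ∈ V ∧ OnHyp a₀ (g x) ∧ ∀ j, OnHyp (a j) x}

/-- `m` is the intersection number `(g^* H · H^k)` on `V` (for `V` of dimension `k + 1`, `H` the
hyperplane class, `g` a surjective endomorphism, characteristic zero): the largest number of points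
of a finite intersection of the pullback of a hyperplane with `k` hyperplanes. -/
def IsInterNum (V : Set (Projectivization L (ι → L)))
    (g : Projectivization L (ι → L) → Projectivization L (ι → L)) (k m : ℕ) : Prop :=
  IsGreatest {c : ℕ | ∃ (a₀ : ι → L) (a : Fin k → ι → L),
    (cut V g a₀ a).Finite ∧ (cut V g a₀ a).ncard = c} m

/-- `δ` is the first dynamical degree of `g` on the positive dimensional variety `V`: the limit of
`((g^n)^* H · H^(dim V - 1))^(1/n)`. -/
def HasDynDeg (V : Set (Projectivization L (ι → L)))
    (g : Projectivization L (ι → L) → Projectivization L (ι → L)) (δ : ℝ) : Prop :=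
  ∃ k : ℕ, HasDim V (k + 1) ∧ ∃ I : ℕ → ℕ, (∀ n, IsInterNum V (g^[n]) k (I n)) ∧
    Tendsto (fun n : ℕ => (I n : ℝ) ^ (1 / (n : ℝ))) atTop (nhds δ)

/-- `Y` is `f`-periodic with period `s`: `s` is the least positive integer with `f^s(Y) = Y`. -/
def HasPeriod (f : Projectivization L (ι → L) → Projectivization L (ι → L))
    (Y : Set (Projectivization L (ι → L))) (s : ℕ) : Prop :=
  IsLeast {t : ℕ | 0 < t ∧ f^[t] '' Y = Y} s

/-- `Y` is of small dynamical degree for the endomorphism `f` of `X`: for some `s > 0` with
`f^s(Y) = Y` one has `d₁(f^s|Y) < d₁(f^s)`. -/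
def IsSDD (X : Set (Projectivization L (ι → L)))
    (f : Projectivization L (ι → L) → Projectivization L (ι → L))
    (Y : Set (Projectivization L (ι → L))) : Prop :=
  ∃ s : ℕ, 0 < s ∧ f^[s] '' Y = Y ∧
    ∃ a b : ℝ, HasDynDeg Y (f^[s]) a ∧ HasDynDeg X (f^[s]) b ∧ a < b

/-- The degree `[K(x) : K]` of a point: `K(x)` is generated over `K` by the ratios of the
homogeneous coordinates of `x`. -/
noncomputable def ptDegree (K : Type) [Field K] [Algebra K L] (x : Projectivization L (ι → L)) :
    ℕ :=
  Module.finrank K
    (IntermediateField.adjoin K (Set.range (fun p : ι × ι => x.rep p.1 / x.rep p.2)))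

end Pool.Agent.H99Z.SDD
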